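import Pool.Agent.LPL.HSb

/-!
# LPL: choice of the index set `K` (all 8 sheets at the same time)

Markov: for a family of 8 sheets the fraction of the `σ` violating one of: `NumOK` (`8 * 10^(-4)`), one of the 8 links
(`64 * 10^(-4)`), `μ (irregular) ≤ 10^(-6)` (16 tests, each violated by a fraction at most `10^(-9) / 10^(-6) = 10^(-3)`)
is less than 1.  Flatness of `us` and of `v + r e_f`, `0 ≤ r ≤ 8`: `PosOK.chain`, `us_eq`.
-/

set_option autoImplicit false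

open MeasureTheory
open scoped Classical

namespace Pool.Agent.LPL

open Pool.Agent.OIP Pool.Agent.LP Pool.Agent.LPW

variable {Ω E : Type} [MeasurableSpace Ω] [Fintype E] [DecidableEq E] {n : ℕ}

private theorem cho_uv {i f : Fin 4} (hfi : f ≠ i) : uv f true i = 0 := by
  show (Pi.single f (Pool.LPG.sg true) : Fin 4 → ℤ) i = 0
  exact Pi.single_eq_of_ne hfi.symm _

private theorem cho_flat {q : Pos} (h : PosOK q) {Flat : Fin 4 → Bool → Bs → Prop} (hflat : AllFlat q Flat)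
    (r : ℕ) (hr : r ≤ 8) : Flat q.i q.s (q.v + (r : ℤ) • uv q.f true) := by
  refine hflat _ (h.chain r (by positivity) (by exact_mod_cast hr)) ?_
  rw [Pi.add_apply, Pi.smul_apply, cho_uv h.fi, smul_zero, add_zero, h.vi]

private theorem cho_ind {P : Prop} {x : ℝ} (hx : ind P ≤ x) (h1 : x < 1) : ¬ P := by
  intro hP
  rw [ind, if_pos hP] at hx
  linarith

theorem choose_K {q : Pos} (h : PosOK q) {p : ℝ} {μ : Measure Ω} {W : Cb → Ω → SimpleGraph (V E)}
    (hM : ∀ c, MModel p μ (W c)) {ι : Fin n → E} {Flat : Cb → Fin 4 → Bool → Bs → Prop}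
    {XS : Cb → Bs → Set (SimpleGraph (V E))} (hL : ∀ c, LocIn μ (W c) ι (Flat c) (XS c))
    (hflat : ∀ c, AllFlat q (Flat c)) :
    ∃ K : Finset E, ∀ c, NumOK μ (W c) q.i q.s q.us K ∧
      μ.real {ω | W c ω ∉ HS q ι (XS c) K} ≤ 1 / 10 ^ 5 := by
  let F1 : Cb → Equiv.Perm E → ℝ := fun c σ =>
    μ.real {ω | W c ω ∉ XS c q.v ∧ ¬ Rgl (W c ω) ι q.v (q.v, ∅) (KK ι σ)}
  let F2 : Cb → Equiv.Perm E → ℝ := fun c σ =>
    μ.real {ω | W c ω ∉ XS c (q.v - uv q.i q.s) ∧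
      ¬ Rgl (W c ω) ι (q.v - uv q.i q.s) (In q.i q.s (q.v, ∅)) (KK ι σ)}
  let A1 : Cb → Equiv.Perm E → ℝ := fun c σ => ind (¬ NumOK μ (W c) q.i q.s q.us (KK ι σ))
  let A2 : Cb → Equiv.Perm E → ℝ := fun c σ => ∑ r ∈ Finset.range 8,
    ind (¬ LnkOK μ (W c) q.i q.s (q.v + (r : ℤ) • uv q.f true) (uv q.f true) (KK ι σ))
  let A3 : Cb → Equiv.Perm E → ℝ := fun c σ => ind (1 / 10 ^ 6 < F1 c σ)
  let A4 : Cb → Equiv.Perm E → ℝ := fun c σ => ind (1 / 10 ^ 6 < F2 c σ)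
  have n1 : ∀ c σ, 0 ≤ A1 c σ := fun c σ => ind_nonneg _
  have n2 : ∀ c σ, 0 ≤ A2 c σ := fun c σ => Finset.sum_nonneg fun r _ => ind_nonneg _
  have n3 : ∀ c σ, 0 ≤ A3 c σ := fun c σ => ind_nonneg _
  have n4 : ∀ c σ, 0 ≤ A4 c σ := fun c σ => ind_nonneg _
  have e1 : ∀ c, avg (A1 c) ≤ 1 / 10 ^ 4 := by
    intro c
    refine (hL c).num q.i q.s q.us ?_
    have := cho_flat h (hflat c) 8 le_rfl
    rw [h.us_eq]
    exact_mod_cast this
  have e2 : ∀ c, avg (A2 c) ≤ 8 * (1 / 10 ^ 4) := by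
    intro c
    have h1 : avg (A2 c) = ∑ r ∈ Finset.range 8, avg (fun σ : Equiv.Perm E =>
        ind (¬ LnkOK μ (W c) q.i q.s (q.v + (r : ℤ) • uv q.f true) (uv q.f true) (KK ι σ))) :=
      avg_sum _ _
    rw [h1]
    calc _ ≤ ∑ r ∈ Finset.range 8, (1 / 10 ^ 4 : ℝ) := by
          refine Finset.sum_le_sum fun r hr => ?_
          have hr' := Finset.mem_range.1 hr
          refine (hL c).lnk q.i q.s _ q.f true h.fi (cho_flat h (hflat c) r (by omega)) ?_
          have h2 := cho_flat h (hflat c) (r + 1) (by omega)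
          have h3 : q.v + (r : ℤ) • uv q.f true + uv q.f true = q.v + ((r + 1 : ℕ) : ℤ) • uv q.f true := by
            push_cast
            rw [add_smul, one_smul, add_assoc]
          rw [h3]
          exact h2
      _ = 8 * (1 / 10 ^ 4) := by simp
  have e3 : ∀ c, avg (A3 c) ≤ 1 / 10 ^ 3 := by
    intro c
    have h1 : avg (F1 c) ≤ 1 / 10 ^ 9 := rgl_avg (hM c) (hL c).xsDep q.v (q.v, ∅) rfl
    have h2 : avg (A3 c) ≤ avg (F1 c) / (1 / 10 ^ 6) :=
      avg_ind_lt_le (fun σ => measureReal_nonneg) (by norm_num)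
    refine h2.trans ?_
    rw [div_le_iff₀ (by norm_num)]
    refine h1.trans ?_
    norm_num
  have e4 : ∀ c, avg (A4 c) ≤ 1 / 10 ^ 3 := by
    intro c
    have h1 : avg (F2 c) ≤ 1 / 10 ^ 9 :=
      rgl_avg (hM c) (hL c).xsDep (q.v - uv q.i q.s) (In q.i q.s (q.v, ∅)) rfl
    have h2 : avg (A4 c) ≤ avg (F2 c) / (1 / 10 ^ 6) :=
      avg_ind_lt_le (fun σ => measureReal_nonneg) (by norm_num)
    refine h2.trans ?_
    rw [div_le_iff₀ (by norm_num)]
    refine h1.trans ?_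
    norm_num
  let T : Equiv.Perm E → ℝ := fun σ => ∑ c : Cb, (A1 c σ + (A2 c σ + (A3 c σ + A4 c σ)))
  have hT : avg T < 1 := by
    have h1 : avg T = ∑ c : Cb, avg (fun σ => A1 c σ + (A2 c σ + (A3 c σ + A4 c σ))) := avg_sum _ _
    have h2 : ∀ c : Cb, avg (fun σ => A1 c σ + (A2 c σ + (A3 c σ + A4 c σ))) ≤ 3 / 10 ^ 3 := by
      intro c
      rw [avg_add, avg_add, avg_add]
      have := e1 c
      have := e2 c
      have := e3 c
      have := e4 c
      have f1 : avg (fun σ => A1 c σ) = avg (A1 c) := rfl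
      have f2 : avg (fun σ => A2 c σ) = avg (A2 c) := rfl
      have f3 : avg (fun σ => A3 c σ) = avg (A3 c) := rfl
      have f4 : avg (fun σ => A4 c σ) = avg (A4 c) := rfl
      rw [f1, f2, f3, f4]
      norm_num at *
      linarith
    rw [h1]
    calc _ ≤ ∑ c : Cb, (3 / 10 ^ 3 : ℝ) := Finset.sum_le_sum fun c _ => h2 c
      _ < 1 := by
        rw [Finset.sum_const, Finset.card_univ, nsmul_eq_mul]
        have : Fintype.card Cb = 8 := by simp [Cb]
        rw [this]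
        norm_num
  obtain ⟨σ, hσ⟩ := exists_le_avg T
  have hσ1 : T σ < 1 := lt_of_le_of_lt hσ hT
  have hc : ∀ c : Cb, A1 c σ + (A2 c σ + (A3 c σ + A4 c σ)) < 1 := by
    intro c
    refine lt_of_le_of_lt ?_ hσ1
    exact Finset.single_le_sum (f := fun c => A1 c σ + (A2 c σ + (A3 c σ + A4 c σ)))
      (fun c _ => add_nonneg (n1 c σ) (add_nonneg (n2 c σ) (add_nonneg (n3 c σ) (n4 c σ))))
      (Finset.mem_univ c)
  refine ⟨KK ι σ, fun c => ?_⟩
  have hcc := hc c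
  have m1 := n1 c σ
  have m2 := n2 c σ
  have m3 := n3 c σ
  have m4 := n4 c σ
  have r1 : ¬ ¬ NumOK μ (W c) q.i q.s q.us (KK ι σ) :=
    cho_ind (x := A1 c σ) le_rfl (by linarith)
  have r3 : ¬ (1 / 10 ^ 6 < F1 c σ) := cho_ind (x := A3 c σ) le_rfl (by linarith)
  have r4 : ¬ (1 / 10 ^ 6 < F2 c σ) := cho_ind (x := A4 c σ) le_rfl (by linarith)
  refine ⟨not_not.1 r1, hs_prob h (hM c) (hL c) (hflat c) (not_lt.1 r3) (not_lt.1 r4) ?_⟩
  intro r hr
  refine not_not.1 (cho_ind (x := A2 c σ) ?_ (by linarith))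
  exact Finset.single_le_sum (f := fun r : ℕ =>
    ind (¬ LnkOK μ (W c) q.i q.s (q.v + (r : ℤ) • uv q.f true) (uv q.f true) (KK ι σ)))
    (fun r _ => ind_nonneg _) (Finset.mem_range.2 hr)

end Pool.Agent.LPL
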