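import Pool.Agent.LPL.Defs

/-!
# LPL: measure version of `cond_main`

Restrict to the finite window `T` = all hubs and sheets: `W' ω = (W ω).comap (Subtype.val : T → V)`, weights
`marg μ W'` (`marg_law`, `marg_indep`, `marg_pr`), placement `q'` = `q` with values in `T`, `F' c = winEv T (F c)`
(`mem_winEv`, `depOn_winEv` of ConcM); `act q' (G.comap val) = act q G`.
-/

set_option autoImplicit false

open MeasureTheory
open scoped Classical

namespace Pool.Agent.LPL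

open Pool.Agent.OIP Pool.Agent.LP Pool.Agent.LPW

section aux

variable {V : Type} {T : Set V}

/-- placement with values in a window -/
private def condm_plc (q : Plc V) (hx : ∀ c, q.x c ∈ T) (hy : ∀ c, q.y c ∈ T) (hk : ∀ c, q.k c ∈ T)
    (hl : ∀ c, q.l c ∈ T) : Plc T where
  x c := ⟨q.x c, hx c⟩
  y c := ⟨q.y c, hy c⟩
  k c := ⟨q.k c, hk c⟩
  l c := ⟨q.l c, hl c⟩
  sh c := Subtype.val ⁻¹' (q.sh c)

private theorem condm_ok {q : Plc V} (h : PlcOK q) (hx : ∀ c, q.x c ∈ T) (hy : ∀ c, q.y c ∈ T)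
    (hk : ∀ c, q.k c ∈ T) (hl : ∀ c, q.l c ∈ T) : PlcOK (condm_plc q hx hy hk hl) where
  x_inj c d hcd := h.x_inj (congrArg Subtype.val hcd)
  y_inj c d hcd := h.y_inj (congrArg Subtype.val hcd)
  xy c d hcd := h.xy c d (congrArg Subtype.val hcd)
  k_mem c := h.k_mem c
  l_mem c := h.l_mem c
  x_not c d := h.x_not c d
  y_not c d := h.y_not c d
  disj c d hcd := (h.disj c d hcd).preimage _

private theorem condm_rel (q : Plc V) (hx : ∀ c, q.x c ∈ T) (hy : ∀ c, q.y c ∈ T)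
    (hk : ∀ c, q.k c ∈ T) (hl : ∀ c, q.l c ∈ T) (G : SimpleGraph V) (a b : AV) :
    ActRel (condm_plc q hx hy hk hl) (G.comap (Subtype.val : T → V)) a b ↔ ActRel q G a b := by
  constructor
  · intro h
    cases h with
    | xx c d h => exact ActRel.xx c d h
    | yy c d h => exact ActRel.yy c d h
    | xy c d h => exact ActRel.xy c d h
    | yk c h => exact ActRel.yk c h
    | yl c h => exact ActRel.yl c h
  · intro h
    cases h with
    | xx c d h => exact ActRel.xx c d h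
    | yy c d h => exact ActRel.yy c d h
    | xy c d h => exact ActRel.xy c d h
    | yk c h => exact ActRel.yk c h
    | yl c h => exact ActRel.yl c h

private theorem condm_act (q : Plc V) (hx : ∀ c, q.x c ∈ T) (hy : ∀ c, q.y c ∈ T)
    (hk : ∀ c, q.k c ∈ T) (hl : ∀ c, q.l c ∈ T) (G : SimpleGraph V) :
    act (condm_plc q hx hy hk hl) (G.comap (Subtype.val : T → V)) = act q G := by
  ext a b
  unfold act
  rw [SimpleGraph.fromRel_adj, SimpleGraph.fromRel_adj, condm_rel, condm_rel]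

end aux

theorem cond_mainM {Ω V : Type} [MeasurableSpace Ω] (μ : Measure Ω) [IsProbabilityMeasure μ]
    (W : Ω → SimpleGraph V) (hmeas : ∀ a b, MeasurableSet {ω | (W ω).Adj a b}) (hind : OneIndepM μ W)
    {q : Plc V} (hq : PlcOK q) (hfin : ∀ c, (q.sh c).Finite) {p lam : ℝ} (hp : pc ≤ p)
    (hxx : ∀ (a : Fin 3) (c : Cb), p ≤ μ.real {ω | (W ω).Adj (q.x c) (q.x (fl a c))})
    (hyy : ∀ (a : Fin 3) (c : Cb), p ≤ μ.real {ω | (W ω).Adj (q.y c) (q.y (fl a c))})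
    (hxy : ∀ c : Cb, p ≤ μ.real {ω | (W ω).Adj (q.x c) (q.y c)})
    {F : Cb → Set (SimpleGraph V)} (hF : ∀ c, DepOn (q.sh c) (F c)) (hpos : ∀ c, 0 < μ.real {ω | W ω ∈ F c})
    (hk : ∀ c : Cb, (LP.sc - 1 / 1000) * μ.real {ω | W ω ∈ F c} ≤
      μ.real {ω | W ω ∈ F c ∧ (W ω).Adj (q.y c) (q.k c)})
    (hl : ∀ c : Cb, (1 - LP.sc - 1 / 1000) * μ.real {ω | W ω ∈ F c} ≤
      μ.real {ω | W ω ∈ F c ∧ (W ω).Adj (q.y c) (q.l c)})
    (hcl : ∀ c : Cb, μ.real {ω | W ω ∈ F c ∧ ¬ (W ω).Adj (q.x c) (q.y c) ∧ (W ω).Adj (q.y c) (q.l c)} ≤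
      1 / 1000 * μ.real {ω | W ω ∈ F c})
    (hlam : μ.real {ω | (∀ c, W ω ∈ F c) ∧ act q (W ω) ∈ Lk} ≤ lam) :
    p ≤ pc + 10000 * (lam / ∏ c : Cb, μ.real {ω | W ω ∈ F c}) := by
  obtain ⟨T, hTx, hTy, hTs, hTfin⟩ : ∃ T : Set V, (∀ c, q.x c ∈ T) ∧ (∀ c, q.y c ∈ T) ∧
      (∀ c, q.sh c ⊆ T) ∧ T.Finite := by
    refine ⟨(Set.range q.x ∪ Set.range q.y) ∪ ⋃ c, q.sh c, fun c => Or.inl (Or.inl ⟨c, rfl⟩),
      fun c => Or.inl (Or.inr ⟨c, rfl⟩), fun c => fun v hv => Or.inr (Set.mem_iUnion.2 ⟨c, hv⟩), ?_⟩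
    exact ((Set.finite_range _).union (Set.finite_range _)).union (Set.finite_iUnion hfin)
  have hTk : ∀ c, q.k c ∈ T := fun c => hTs c (hq.k_mem c)
  have hTl : ∀ c, q.l c ∈ T := fun c => hTs c (hq.l_mem c)
  have : Fintype T := hTfin.fintype
  obtain ⟨W', hW'⟩ : ∃ W' : Ω → SimpleGraph T, W' = fun ω => (W ω).comap (Subtype.val : T → V) := ⟨_, rfl⟩
  have hmeas' : ∀ a b, MeasurableSet {ω | (W' ω).Adj a b} := by
    intro a b
    rw [hW']
    exact hmeas a.1 b.1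
  have hind' : OneIndepM μ W' := by
    rw [hW']
    exact hind.comap Subtype.val_injective
  have hlaw := marg_law μ W' hmeas'
  have hone := marg_indep μ W' hmeas' hind'
  have hmem : ∀ c ω, (W' ω ∈ winEv T (F c) ↔ W ω ∈ F c) := by
    intro c ω
    rw [hW']
    exact mem_winEv (hTs c) (hF c) (W ω)
  have hact : ∀ ω, act (condm_plc q hTx hTy hTk hTl) (W' ω) = act q (W ω) := by
    intro ω
    rw [hW']
    exact condm_act q hTx hTy hTk hTl (W ω)
  obtain ⟨q', hq'⟩ : ∃ q' : Plc T, q' = condm_plc q hTx hTy hTk hTl := ⟨_, rfl⟩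
  rw [← hq'] at hact
  have hXX : ∀ c d ω, (W' ω).Adj (q'.x c) (q'.x d) ↔ (W ω).Adj (q.x c) (q.x d) := by
    intro c d ω
    rw [hW', hq']
    exact Iff.rfl
  have hYY : ∀ c d ω, (W' ω).Adj (q'.y c) (q'.y d) ↔ (W ω).Adj (q.y c) (q.y d) := by
    intro c d ω
    rw [hW', hq']
    exact Iff.rfl
  have hXY : ∀ c d ω, (W' ω).Adj (q'.x c) (q'.y d) ↔ (W ω).Adj (q.x c) (q.y d) := by
    intro c d ω
    rw [hW', hq']
    exact Iff.rfl
  have hYK : ∀ c ω, (W' ω).Adj (q'.y c) (q'.k c) ↔ (W ω).Adj (q.y c) (q.k c) := by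
    intro c ω
    rw [hW', hq']
    exact Iff.rfl
  have hYL : ∀ c ω, (W' ω).Adj (q'.y c) (q'.l c) ↔ (W ω).Adj (q.y c) (q.l c) := by
    intro c ω
    rw [hW', hq']
    exact Iff.rfl
  have hok : PlcOK q' := by
    rw [hq']
    exact condm_ok hq hTx hTy hTk hTl
  have hsh : ∀ c, DepOn (q'.sh c) (winEv T (F c)) := by
    intro c
    rw [hq']
    exact depOn_winEv (hF c)
  -- translation of probabilities
  have tr : ∀ (P : SimpleGraph T → Prop) (P' : Ω → Prop), (∀ ω, P (W' ω) ↔ P' ω) →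
      pr (marg μ W') {G | P G} = μ.real {ω | P' ω} := by
    intro P P' hPP
    rw [marg_pr μ W' hmeas' {G | P G}]
    congr 1
    ext ω
    exact hPP ω
  have eF : ∀ c, pr (marg μ W') {G | G ∈ winEv T (F c)} = μ.real {ω | W ω ∈ F c} := fun c =>
    tr _ _ (fun ω => hmem c ω)
  have key := cond_main (w := marg μ W') (W := fun G : SimpleGraph T => G) (p := p) (lam := lam) hlaw hone
    hok hp
    (F := fun c => winEv T (F c))
    (fun a c => by
      rw [tr (fun G => G.Adj (q'.x c) (q'.x (fl a c))) (fun ω => (W ω).Adj (q.x c) (q.x (fl a c)))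
        (fun ω => hXX _ _ ω)]
      exact hxx a c)
    (fun a c => by
      rw [tr (fun G => G.Adj (q'.y c) (q'.y (fl a c))) (fun ω => (W ω).Adj (q.y c) (q.y (fl a c)))
        (fun ω => hYY _ _ ω)]
      exact hyy a c)
    (fun c => by
      rw [tr (fun G => G.Adj (q'.x c) (q'.y c)) (fun ω => (W ω).Adj (q.x c) (q.y c)) (fun ω => hXY _ _ ω)]
      exact hxy c)
    hsh
    (fun c => by
      rw [eF c]
      exact hpos c)
    (fun c => by
      rw [eF c, tr (fun G => G ∈ winEv T (F c) ∧ G.Adj (q'.y c) (q'.k c))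
        (fun ω => W ω ∈ F c ∧ (W ω).Adj (q.y c) (q.k c)) (fun ω => and_congr (hmem c ω) (hYK c ω))]
      exact hk c)
    (fun c => by
      rw [eF c, tr (fun G => G ∈ winEv T (F c) ∧ G.Adj (q'.y c) (q'.l c))
        (fun ω => W ω ∈ F c ∧ (W ω).Adj (q.y c) (q.l c)) (fun ω => and_congr (hmem c ω) (hYL c ω))]
      exact hl c)
    (fun c => by
      rw [eF c, tr (fun G => G ∈ winEv T (F c) ∧ ¬ G.Adj (q'.x c) (q'.y c) ∧ G.Adj (q'.y c) (q'.l c))
        (fun ω => W ω ∈ F c ∧ ¬ (W ω).Adj (q.x c) (q.y c) ∧ (W ω).Adj (q.y c) (q.l c))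
        (fun ω => and_congr (hmem c ω) (and_congr (not_congr (hXY c c ω)) (hYL c ω)))]
      exact hcl c)
    (by
      rw [tr (fun G => (∀ c, G ∈ winEv T (F c)) ∧ act q' G ∈ Lk)
        (fun ω => (∀ c, W ω ∈ F c) ∧ act q (W ω) ∈ Lk)
        (fun ω => and_congr (forall_congr' fun c => hmem c ω) (by rw [hact ω]))]
      exact hlam)
  have e1 : ∏ c : Cb, pr (marg μ W') {G | G ∈ winEv T (F c)} = ∏ c : Cb, μ.real {ω | W ω ∈ F c} :=
    Finset.prod_congr rfl fun c _ => eF c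
  rw [← e1]
  exact key

end Pool.Agent.LPL
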