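import Pool.Agent.LP.VDefs
import Pool.Agent.LP.GPrS
import Pool.Agent.LP.WNum
import Pool.Agent.LPW.Cond

/-!
# LPL: the leak of a flat window (full Q1 of MP_8c5616_pr, Part IV.3 - IV.5), definitions

`Bs` = base lattice, `V D` = vertices of the model with fibre directions `D`.  The model has the fibre directions `D`,
three of them (`a : Fin 3 → D`) are active, the others are `j : E → D`; for `c : Cb` the sheet of `c` is the copy
`emb j a c` of `V E`.
A flat wall in axis `i` with sign `s` and outer height `ht`: outer sites `u`, `u i = ht`, inner sites `u - uv i s`.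
`In i s O` is the inner centre of the outer centre `O`.
-/

set_option autoImplicit false

open MeasureTheory Finset
open scoped Classical

namespace Pool.Agent.LPL

open Pool.Agent.OIP Pool.Agent.LP Pool.Agent.LPW

noncomputable section

/-- base lattice -/
abbrev Bs := Fin 4 → ℤ

abbrev uv := Pool.LPG.uv
abbrev sg := Pool.LPG.sg
abbrev Ball := Pool.LPG.Ball
abbrev Snd := Pool.LPG.S
abbrev anc := Pool.LPG.anc
abbrev RegE := Pool.LPG.RegE
abbrev lev := Pool.LPG.lev

/-- translation of a vertex by a base vector -/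
def bst {D : Type} (v : Bs) (O : V D) : V D := (O.1 + v, O.2)

/-- inner vertex of an outer vertex -/
def In {D : Type} (i : Fin 4) (s : Bool) (O : V D) : V D := (O.1 - uv i s, O.2)

/-- all vertices over the base set `B` -/
def Ov {D : Type} (B : Set Bs) : Set (V D) := {v | v.1 ∈ B}

/-- cluster of `x` inside the region over `U` -/
def Cl {D : Type} (G : SimpleGraph (V D)) (U : Set Bs) (x : V D) : Set (V D) := {v | Cn G (Ov U) x v}

section

variable {D : Type} [DecidableEq D]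

/-- for every set closed in the region `R` the two sites have the same majority -/
def Same (G : SimpleGraph (V D)) (R : Set (V D)) (O : V D) (K : Finset D) (O' : V D) (K' : Finset D) : Prop :=
  ∀ A : Set (V D), ClosedOn G R A → (aa A O K ↔ aa A O' K')

/-- the window region of a star with centre `(u, ∅)` and index set `K`, without the hub column -/
def Wn (u : Bs) (K : Finset D) : Set (V D) := {v | v.1 ∈ Ball u 3 ∧ v.2 ≠ K}

/-- `x` lies in the giant cluster of the fibre over `z` -/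
def IsG [Fintype D] {n : ℕ} (G : SimpleGraph (V D)) (ι : Fin n → D) (z : Bs) (x : V D) : Prop :=
  x.1 = z ∧ ∀ O : V D, O.1 = z → avg (fun σ : Equiv.Perm D => ind (¬ aa (Cl G {z} x) O (KK ι σ))) ≤ 1 / 10 ^ 9

end

/-- the link between two neighbouring sites in a star window is reliable on both sides of the wall -/
def LnkOK {Ω D : Type} [DecidableEq D] [MeasurableSpace Ω] (μ : Measure Ω) (W : Ω → SimpleGraph (V D)) (i : Fin 4)
    (s : Bool) (u b : Bs) (K : Finset D) : Prop :=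
  μ.real {ω | ¬ (Same (W ω) (Wn u K) (u, ∅) K (u + b, ∅) K ∧
    Same (W ω) (Wn u K) (In i s (u, ∅)) K (In i s (u + b, ∅)) K)} ≤ 1 / 10 ^ 7

/-- the numbers of an unlinked star with outer centre `(u, ∅)` and index set `K`: hubs `(u, K)` (outer, pure end) and
`In (u, K)` (inner, mixed end), two leaves `In (u, K \ a)`, `In (u, K \ b)` of the inner hub; `Ev` = the first leaf lies
in the majority cluster of the inner layer, the second one in that of the outer layer, `SM` = the two majority clusters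
coincide; both are local in `Wn u K` -/
def NumOK {Ω D : Type} [DecidableEq D] [MeasurableSpace Ω] (μ : Measure Ω) (W : Ω → SimpleGraph (V D)) (i : Fin 4)
    (s : Bool) (u : Bs) (K : Finset D) : Prop :=
  ∃ a ∈ K, ∃ b ∈ K, ∃ Ev SM : Set (SimpleGraph (V D)), DepOn (Wn u K) Ev ∧ DepOn (Wn u K) SM ∧
    (∀ G ∈ Ev, ∀ A, ClosedOn G (Wn u K) A → aa A (In i s (u, ∅)) K → In i s (u, K.erase a) ∈ A) ∧
    (∀ G ∈ Ev, ∀ A, ClosedOn G (Wn u K) A → ¬ aa A (u, ∅) K → In i s (u, K.erase b) ∉ A) ∧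
    (∀ G ∈ SM, ∀ A, ClosedOn G (Wn u K) A → aa A (In i s (u, ∅)) K → aa A (u, ∅) K) ∧
    LP.sc * (1 - LP.sc) - 1 / 10 ^ 5 ≤ μ.real {ω | W ω ∈ Ev} ∧
    μ.real {ω | W ω ∈ Ev \ SM} ≤ LP.sc * (1 - LP.sc) + 1 / 10 ^ 5 ∧
    LP.sc * (LP.sc * (1 - LP.sc)) - 1 / 10 ^ 5 ≤
      μ.real {ω | W ω ∈ Ev ∧ (W ω).Adj (In i s (u, K)) (In i s (u, K.erase a))} ∧
    (1 - LP.sc) * (LP.sc * (1 - LP.sc)) - 1 / 10 ^ 5 ≤
      μ.real {ω | W ω ∈ Ev ∧ (W ω).Adj (In i s (u, K)) (In i s (u, K.erase b))} ∧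
    μ.real {ω | W ω ∈ Ev \ SM ∧ (W ω).Adj (In i s (u, K)) (In i s (u, K.erase b)) ∧
      ¬ (W ω).Adj (u, K) (In i s (u, K))} ≤ 1 / 10 ^ 5

/-- BOUNDARY between IV.3 and IV.4: everything the leak theorem uses about one sheet `(μ, W)`.
`Flat i s u` = flatness of the outer base site `u` (deterministic), `XS` = bad sites. -/
structure LocIn {Ω E : Type} [MeasurableSpace Ω] [DecidableEq E] [Fintype E] {n : ℕ} (μ : Measure Ω)
    (W : Ω → SimpleGraph (V E)) (ι : Fin n → E) (Flat : Fin 4 → Bool → Bs → Prop)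
    (XS : Bs → Set (SimpleGraph (V E))) : Prop where
  xsDep : ∀ z, DepOn (Ov (Ball z 3)) (XS z)
  xsP : ∀ z, μ {ω | W ω ∈ XS z} ≤ ENNReal.ofReal (1 / 10 ^ 21)
  flat : ∀ i s u ω A, ClosedOn (W ω) (Ov (Ball u 3)) A → W ω ∉ XS u → W ω ∉ XS (u - uv i s) →
    Wall μ W ι (2 / (n : ℝ) ^ 4) A i s u → Flat i s u
  gO : ∀ i s u ω, Flat i s u → W ω ∉ XS u → ∃ x, IsG (W ω) ι u x
  gI : ∀ i s u ω, Flat i s u → W ω ∉ XS (u - uv i s) → ∃ x, IsG (W ω) ι (u - uv i s) x
  lO : ∀ i s u j t ω x x', j ≠ i → Flat i s u → Flat i s (u + uv j t) → W ω ∉ XS u → W ω ∉ XS (u + uv j t) →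
    IsG (W ω) ι u x → IsG (W ω) ι (u + uv j t) x' → Cn (W ω) (Ov {u, u + uv j t}) x x'
  lI : ∀ i s u j t ω x x', j ≠ i → Flat i s u → Flat i s (u + uv j t) → W ω ∉ XS (u - uv i s) →
    W ω ∉ XS (u - uv i s + uv j t) → IsG (W ω) ι (u - uv i s) x → IsG (W ω) ι (u - uv i s + uv j t) x' →
    Cn (W ω) (Ov {u - uv i s, u - uv i s + uv j t}) x x'
  num : ∀ i s u, Flat i s u → avg (fun σ : Equiv.Perm E => ind (¬ NumOK μ W i s u (KK ι σ))) ≤ 1 / 10 ^ 4
  lnk : ∀ i s u j t, j ≠ i → Flat i s u → Flat i s (u + uv j t) →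
    avg (fun σ : Equiv.Perm E => ind (¬ LnkOK μ W i s u (uv j t) (KK ι σ))) ≤ 1 / 10 ^ 4

section sheets

variable {D E : Type} [DecidableEq D]

/-- the active directions of `c` -/
def cs (a : Fin 3 → D) (c : Cb) : Finset D := (Finset.univ.filter (fun x => c x = true)).image a

/-- the sheet of `c` -/
def emb (j : E → D) (a : Fin 3 → D) (c : Cb) (v : V E) : V D := (v.1, v.2.image j ∪ cs a c)

/-- the graph of the sheet of `c` -/
def sht (j : E → D) (a : Fin 3 → D) (c : Cb) (G : SimpleGraph (V D)) : SimpleGraph (V E) := G.comap (emb j a c)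

/-- the splitting of the directions `D` into the active ones and the others -/
structure Split [Fintype D] [Fintype E] (j : E → D) (a : Fin 3 → D) : Prop where
  j_inj : Function.Injective j
  a_inj : Function.Injective a
  disj : ∀ x y, j x ≠ a y
  card : Fintype.card D = Fintype.card E + 3

end sheets

/-- positions: window cell `Y` of level `m + 2`, cells `Y1`, `Y2` of levels `m + 1`, `m` inside `Y` on the outer slice,
base sites `u2` in `Y2`, `v` in `Y1` next to `us`, `us = v + 8 e_f` in `Y` -/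
structure Pos where
  i : Fin 4
  s : Bool
  ht : ℤ
  m : ℕ
  f : Fin 4
  Y : Bs
  Y1 : Bs
  Y2 : Bs
  u2 : Bs
  v : Bs
  us : Bs

/-- inner cell below the outer cell `y` of level `k` -/
def Pos.low (q : Pos) (k : ℕ) (y : Bs) : Bs := lev q.i (q.ht - sg q.s) k y

structure PosOK (q : Pos) : Prop where
  m1 : 1 ≤ q.m
  fi : q.f ≠ q.i
  us_eq : q.us = q.v + (8 : ℤ) • uv q.f true
  parY2 : Pool.LPG.par q.Y2 = q.Y1
  parY1 : Pool.LPG.par q.Y1 = q.Y
  Y2i : q.Y2 q.i = q.ht / 100 ^ q.m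
  Y1i : q.Y1 q.i = q.ht / 100 ^ (q.m + 1)
  Yi : q.Y q.i = q.ht / 100 ^ (q.m + 2)
  u2a : anc q.m q.u2 = q.Y2
  u2i : q.u2 q.i = q.ht
  va : anc (q.m + 1) q.v = q.Y1
  vi : q.v q.i = q.ht
  chain : ∀ r : ℤ, 0 ≤ r → r ≤ 8 → anc (q.m + 2) (q.v + r • uv q.f true) = q.Y
  sep1 : ∀ u, anc (q.m + 1) u = q.Y1 → u q.f + 8 ≤ q.us q.f
  sep2 : ∀ u, anc q.m u = q.Y2 → u q.f + 4 * 100 ^ q.m ≤ q.us q.f

/-- sheet region without the hubs `(us, K)`, `(us - uv i s, K)` -/
def Shs {E : Type} (q : Pos) (K : Finset E) : Set (V E) :=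
  {v | v.1 ∈ RegE (q.m + 2) q.Y ∧ ¬ ((v.1 = q.us ∨ v.1 = q.us - uv q.i q.s) ∧ v.2 = K)}

section events

variable {E : Type} [DecidableEq E] [Fintype E] {n : ℕ}

/-- `A` contains the giants of the inner sound sites and avoids those of the outer sound sites of the cell `Y2` -/
def Mg (q : Pos) (ι : Fin n → E) (XS : Bs → Set (SimpleGraph (V E))) (G : SimpleGraph (V E)) (A : Set (V E)) : Prop :=
  (∀ u, anc q.m u = q.Y2 → u q.i = q.ht → Snd {z | G ∈ XS z} q.m Set.univ 0 u → ∀ x, IsG G ι u x → x ∉ A) ∧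
  (∀ z, anc q.m z = q.low q.m q.Y2 → z q.i = q.ht - sg q.s → Snd {z | G ∈ XS z} q.m Set.univ 0 z →
    ∀ x, IsG G ι z x → x ∈ A)

/-- the star `((us, ∅), K)` is well connected with the giants of `Y2` inside the sheet without the hubs -/
def HS (q : Pos) (ι : Fin n → E) (XS : Bs → Set (SimpleGraph (V E))) (K : Finset E) : Set (SimpleGraph (V E)) :=
  {G | ∀ A, ClosedOn G (Shs q K) A → Mg q ι XS G A → aa A (In q.i q.s (q.us, ∅)) K ∧ ¬ aa A (q.us, ∅) K}

end events

/-- a base cell configuration with 3 active directions: bad sites of the model and of all sheets -/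
def Xtot {Ω D E : Type} [DecidableEq D] (W : Ω → SimpleGraph (V D)) (j : E → D) (a : Fin 3 → D) (X : Bs → Set Ω)
    (XS : Cb → Bs → Set (SimpleGraph (V E))) (z : Bs) : Set Ω :=
  {ω | ω ∈ X z ∨ ∃ c, sht j a c (W ω) ∈ XS c z}

/-- the leak event: no set closed in the region of the window has closed flat walls at all sound pairs -/
def EvE {Ω D : Type} [DecidableEq D] [Fintype D] [MeasurableSpace Ω] {n : ℕ} (μ : Measure Ω)
    (W : Ω → SimpleGraph (V D)) (ι : Fin n → D) (X : Bs → Set Ω) (i : Fin 4) (s : Bool) (ht : ℤ) (k : ℕ) (Y : Bs) :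
    Set Ω :=
  {ω | ∀ A : Set (V D), ClosedOn (W ω) (Ov (RegE k Y)) A → ∃ u, anc k u = Y ∧ u i = ht ∧
    Snd (Pool.LPG.XX X ω) k Set.univ 0 u ∧ Snd (Pool.LPG.XX X ω) k Set.univ 0 (u - uv i s) ∧
    ¬ Wall μ W ι (1 / (n : ℝ) ^ 4) A i s u}

/-- the unlikely event that the cell `Y2` or the inner cell below it is not sound with respect to `Xt` -/
def Bd {Ω : Type} (Xt : Bs → Set Ω) (q : Pos) : Set Ω :=
  {ω | ¬ (Snd (Pool.LPG.XX Xt ω) (q.m + 2) Set.univ q.m q.Y2 ∧
    Snd (Pool.LPG.XX Xt ω) (q.m + 2) Set.univ q.m (q.low q.m q.Y2))}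

end

end Pool.Agent.LPL
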