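import Pool.Agent.LPL.Defs

/-!
# LPL: sheets

`emb j a c v = (v.1, v.2.image j ∪ cs a c)`.
-/

set_option autoImplicit false

open MeasureTheory
open scoped Classical

namespace Pool.Agent.LPL

open Pool.Agent.OIP Pool.Agent.LP Pool.Agent.LPW

variable {Ω D E : Type} [MeasurableSpace Ω] [Fintype D] [DecidableEq D] [Fintype E] [DecidableEq E]

private theorem emb_mem_cs {a : Fin 3 → D} (c : Cb) (x : D) : x ∈ cs a c ↔ ∃ r, c r = true ∧ a r = x := by
  unfold cs
  rw [Finset.mem_image]
  constructor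
  · rintro ⟨r, hr, h⟩
    exact ⟨r, (Finset.mem_filter.1 hr).2, h⟩
  · rintro ⟨r, hr, h⟩
    exact ⟨r, Finset.mem_filter.2 ⟨Finset.mem_univ _, hr⟩, h⟩

private theorem emb_j_notMem_cs {j : E → D} {a : Fin 3 → D} (h : Split j a) (c : Cb) (x : E) : j x ∉ cs a c := by
  rw [emb_mem_cs]
  rintro ⟨r, _, hr⟩
  exact h.disj x r hr.symm

private theorem emb_mem_j {j : E → D} {a : Fin 3 → D} (h : Split j a) (c : Cb) (v : V E) (x : E) :
    j x ∈ (emb j a c v).2 ↔ x ∈ v.2 := by
  show j x ∈ v.2.image j ∪ cs a c ↔ x ∈ v.2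
  rw [Finset.mem_union, h.j_inj.mem_finset_image]
  exact ⟨fun h' => h'.resolve_right (emb_j_notMem_cs h c x), Or.inl⟩

private theorem emb_mem_a {j : E → D} {a : Fin 3 → D} (h : Split j a) (c : Cb) (v : V E) (r : Fin 3) :
    a r ∈ (emb j a c v).2 ↔ c r = true := by
  show a r ∈ v.2.image j ∪ cs a c ↔ c r = true
  rw [Finset.mem_union, emb_mem_cs]
  constructor
  · rintro (h1 | ⟨r', hr', hrr⟩)
    · obtain ⟨x, _, hx⟩ := Finset.mem_image.1 h1
      exact absurd hx (h.disj x r)
    · rw [← h.a_inj hrr]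
      exact hr'
  · intro hr
    exact Or.inr ⟨r, hr, rfl⟩

private theorem emb_mem_no {j : E → D} {a : Fin 3 → D} (c : Cb) (v : V E) {x : D} (hx : ∀ y, j y ≠ x) :
    x ∈ (emb j a c v).2 ↔ x ∈ cs a c := by
  show x ∈ v.2.image j ∪ cs a c ↔ x ∈ cs a c
  rw [Finset.mem_union]
  refine ⟨fun h' => h'.resolve_left fun h1 => ?_, Or.inr⟩
  obtain ⟨y, _, hy⟩ := Finset.mem_image.1 h1
  exact hx y hy

theorem emb_inj {j : E → D} {a : Fin 3 → D} (h : Split j a) (c : Cb) : Function.Injective (emb j a c) := by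
  intro v w hvw
  have h1 : v.1 = w.1 := congrArg (fun z : V D => z.1) hvw
  have h2 : v.2 = w.2 := by
    ext x
    rw [← emb_mem_j h c v x, ← emb_mem_j h c w x, hvw]
  exact Prod.ext h1 h2

theorem emb_ne {j : E → D} {a : Fin 3 → D} (h : Split j a) {c d : Cb} (hcd : c ≠ d) (v w : V E) :
    emb j a c v ≠ emb j a d w := by
  intro hvw
  apply hcd
  funext r
  have h1 := emb_mem_a h c v r
  rw [hvw, emb_mem_a h d w r] at h1
  exact (Bool.eq_iff_iff.2 h1).symm

theorem flip_emb {j : E → D} {a : Fin 3 → D} (h : Split j a) (c : Cb) (K : Finset E) (v : V E) :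
    flip (K.image j) (emb j a c v) = emb j a c (flip K v) := by
  refine Prod.ext rfl ?_
  ext x
  by_cases hx : ∃ y, j y = x
  · obtain ⟨y, rfl⟩ := hx
    rw [emb_mem_j h]
    show j y ∈ symmDiff (emb j a c v).2 (K.image j) ↔ y ∈ symmDiff v.2 K
    rw [Finset.mem_symmDiff, Finset.mem_symmDiff, emb_mem_j h, h.j_inj.mem_finset_image]
  · push Not at hx
    rw [emb_mem_no c _ hx]
    show x ∈ symmDiff (emb j a c v).2 (K.image j) ↔ x ∈ cs a c
    have hK : x ∉ K.image j := by
      intro h1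
      obtain ⟨y, _, hy⟩ := Finset.mem_image.1 h1
      exact hx y hy
    rw [Finset.mem_symmDiff, emb_mem_no c _ hx]
    tauto

theorem aa_emb {j : E → D} {a : Fin 3 → D} (h : Split j a) (c : Cb) (A : Set (V D)) (O : V E) (K : Finset E) :
    aa A (emb j a c O) (K.image j) ↔ aa (emb j a c ⁻¹' A) O K := by
  unfold aa
  have h1 : (K.image j).card = K.card := Finset.card_image_of_injective _ h.j_inj
  have h2 : (K.image j).filter (fun k => flip ((K.image j).erase k) (emb j a c O) ∈ A) =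
      (K.filter (fun k => flip (K.erase k) O ∈ emb j a c ⁻¹' A)).image j := by
    ext x
    rw [Finset.mem_filter, Finset.mem_image, Finset.mem_image]
    have h3 : ∀ y, (K.image j).erase (j y) = (K.erase y).image j := fun y =>
      (Finset.image_erase h.j_inj K y).symm
    constructor
    · rintro ⟨⟨y, hy, rfl⟩, hA⟩
      refine ⟨y, Finset.mem_filter.2 ⟨hy, ?_⟩, rfl⟩
      rw [h3, flip_emb h] at hA
      exact hA
    · rintro ⟨y, hy, rfl⟩
      obtain ⟨hy1, hy2⟩ := Finset.mem_filter.1 hy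
      refine ⟨⟨y, hy1, rfl⟩, ?_⟩
      rw [h3, flip_emb h]
      exact hy2
  rw [h1, h2, Finset.card_image_of_injective _ h.j_inj]

/-- active neighbours -/
theorem emb_fl {j : E → D} {a : Fin 3 → D} (h : Split j a) (r : Fin 3) (c : Cb) (v : V E) :
    emb j a (fl r c) v = mv (Sum.inr (a r)) (emb j a c v) := by
  refine Prod.ext rfl ?_
  ext x
  show x ∈ (emb j a (fl r c) v).2 ↔ x ∈ symmDiff (emb j a c v).2 {a r}
  rw [Finset.mem_symmDiff, Finset.mem_singleton]
  by_cases hx : ∃ r', a r' = x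
  · obtain ⟨r', rfl⟩ := hx
    rw [emb_mem_a h, emb_mem_a h]
    by_cases hr : r' = r
    · subst hr
      have : fl r' c r' = !c r' := by
        unfold fl
        rw [Function.update_self]
      rw [this]
      cases c r' <;> simp
    · have h1 : fl r c r' = c r' := by
        unfold fl
        rw [Function.update_of_ne hr]
      have h2 : a r' ≠ a r := fun h' => hr (h.a_inj h')
      rw [h1]
      simp [h2]
  · push Not at hx
    have hxr : x ≠ a r := fun h' => hx r h'.symm
    by_cases hj : ∃ y, j y = x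
    · obtain ⟨y, rfl⟩ := hj
      rw [emb_mem_j h, emb_mem_j h]
      simp [hxr]
    · push Not at hj
      rw [emb_mem_no _ _ hj, emb_mem_no _ _ hj, emb_mem_cs, emb_mem_cs]
      have h0 : ∀ c' : Cb, ¬ ∃ r, c' r = true ∧ a r = x := by
        rintro c' ⟨r', _, h'⟩
        exact hx r' h'
      simp [h0, hxr]

theorem depOn_sht {j : E → D} {a : Fin 3 → D} (c : Cb) {R : Set (V E)} {U : Set (SimpleGraph (V E))}
    (hU : DepOn R U) : DepOn (emb j a c '' R) {G | sht j a c G ∈ U} := by
  intro G H hGH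
  refine hU (sht j a c G) (sht j a c H) ?_
  intro x hx y hy
  exact hGH _ ⟨x, hx, rfl⟩ _ ⟨y, hy, rfl⟩

private theorem emb_mv {j : E → D} {a : Fin 3 → D} (h : Split j a) (c : Cb) (v : V E) (d : Dir E) :
    ∃ d' : Dir D, emb j a c (mv d v) = mv d' (emb j a c v) := by
  rcases d with ⟨i, b⟩ | d
  · exact ⟨Sum.inl (i, b), rfl⟩
  · refine ⟨Sum.inr (j d), ?_⟩
    show emb j a c (flip {d} v) = flip {j d} (emb j a c v)
    rw [← flip_emb h, Finset.image_singleton]

/-- a sheet is a model -/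
theorem sheet_model {j : E → D} {a : Fin 3 → D} (h : Split j a) (c : Cb) {p : ℝ} {μ : Measure Ω}
    {W : Ω → SimpleGraph (V D)} (hM : MModel p μ W) : MModel p μ (fun ω => sht j a c (W ω)) := by
  refine ⟨hM.prob, fun x y => hM.meas (emb j a c x) (emb j a c y), hM.indep.comap (emb_inj h c), ?_, ?_⟩
  · intro v d
    obtain ⟨d', hd'⟩ := emb_mv h c v d
    have h1 : {ω | (sht j a c (W ω)).Adj v (mv d v)} = {ω | (W ω).Adj (emb j a c v) (mv d' (emb j a c v))} := by
      ext ω
      show (W ω).Adj (emb j a c v) (emb j a c (mv d v)) ↔ _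
      rw [hd']
      rfl
    rw [h1]
    exact hM.edge (emb j a c v) d'
  · intro ω u v huv
    obtain ⟨d, hd⟩ := hM.latt ω (emb j a c u) (emb j a c v) huv
    rcases d with ⟨i, b⟩ | x
    · refine ⟨Sum.inl (i, b), ?_⟩
      have h1 : v.1 = u.1 + Pi.single i (if b then 1 else -1) := congrArg (fun z : V D => z.1) hd
      have h2 : (emb j a c v).2 = (emb j a c u).2 := by rw [hd]; rfl
      refine Prod.ext h1 ?_
      show v.2 = u.2
      ext x
      rw [← emb_mem_j h c v x, ← emb_mem_j h c u x, h2]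
    · have h1 : v.1 = u.1 := congrArg (fun z : V D => z.1) hd
      have h2 : (emb j a c v).2 = symmDiff (emb j a c u).2 {x} := congrArg (fun z : V D => z.2) hd
      have h3 : x ∈ (emb j a c v).2 ↔ x ∉ (emb j a c u).2 := by
        rw [h2, Finset.mem_symmDiff, Finset.mem_singleton]
        tauto
      by_cases hx : ∃ y, j y = x
      · obtain ⟨y, rfl⟩ := hx
        refine ⟨Sum.inr y, ?_⟩
        refine Prod.ext h1 ?_
        show v.2 = symmDiff u.2 {y}
        ext z
        rw [← emb_mem_j h c v z, h2, Finset.mem_symmDiff, Finset.mem_symmDiff, Finset.mem_singleton,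
          Finset.mem_singleton, emb_mem_j h, h.j_inj.eq_iff]
      · push Not at hx
        rw [emb_mem_no c _ hx, emb_mem_no c _ hx] at h3
        exact absurd h3 (by tauto)

end Pool.Agent.LPL
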