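import Pool.Agent.LPL.Defs

/-!
# LPL: existence of positions

`f` = any axis `≠ i`; `Y1 = fun j => if j = i then ht / 100^(m+1) else 100 * Y j + 10`,
`Y2 = fun j => if j = i then ht / 100^m else 100 * Y1 j + 50`, `u2 = fun j => if j = i then ht else 100^m * Y2 j`,
`v = fun j => if j = i then ht else if j = f then 100^(m+1) * (Y1 f + 1) - 1 else 100^(m+1) * Y1 j`,
`us = v + 8 e_f`.
-/

set_option autoImplicit false

namespace Pool.Agent.LPL

open Pool.Agent.OIP Pool.Agent.LP

theorem posex_div {P a y : ℤ} (hP : 0 < P) : a / P = y ↔ P * y ≤ a ∧ a < P * y + P := by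
  constructor
  · rintro rfl
    constructor
    · exact Int.mul_ediv_self_le hP.ne'
    · have := Int.lt_mul_ediv_self_add (x := a) hP
      exact this
  · rintro ⟨h1, h2⟩
    apply le_antisymm
    · have : a / P < y + 1 := by
        rw [Int.ediv_lt_iff_lt_mul hP]
        linarith [mul_comm P y]
      omega
    · rw [Int.le_ediv_iff_mul_le hP]
      linarith [mul_comm P y]

theorem posex_pow (k : ℕ) : (0 : ℤ) < 100 ^ k := by positivity

theorem posex_anc {k : ℕ} {u y : Bs} : anc k u = y ↔ ∀ j, 100 ^ k * y j ≤ u j ∧ u j < 100 ^ k * y j + 100 ^ k := by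
  constructor
  · intro h j
    exact (posex_div (posex_pow k)).1 (congrFun h j)
  · intro h
    funext j
    exact (posex_div (posex_pow k)).2 (h j)

theorem posex_ex (i : Fin 4) : ∃ f : Fin 4, f ≠ i := by
  revert i
  decide

theorem pos_exists (i : Fin 4) (s : Bool) (ht : ℤ) (m : ℕ) (hm : 1 ≤ m) (Y : Bs) (hY : Y i = ht / 100 ^ (m + 2)) :
    ∃ q : Pos, PosOK q ∧ q.i = i ∧ q.s = s ∧ q.ht = ht ∧ q.m = m ∧ q.Y = Y := by
  obtain ⟨f, hf⟩ := posex_ex i
  set Y1 : Bs := fun j => if j = i then ht / 100 ^ (m + 1) else 100 * Y j + 10 with hY1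
  set Y2 : Bs := fun j => if j = i then ht / 100 ^ m else 100 * Y1 j + 50 with hY2
  set u2 : Bs := fun j => if j = i then ht else 100 ^ m * Y2 j with hu2
  set v : Bs := fun j => if j = i then ht else if j = f then 100 ^ (m + 1) * (Y1 f + 1) - 1
    else 100 ^ (m + 1) * Y1 j with hv
  have hP : (0 : ℤ) < 100 ^ m := by positivity
  have hP1 : (100 : ℤ) ^ (m + 1) = 100 * 100 ^ m := by rw [pow_succ]; ring
  have hP2 : (100 : ℤ) ^ (m + 2) = 10000 * 100 ^ m := by rw [pow_add]; ring
  have hPm : (100 : ℤ) ≤ 100 ^ m := by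
    obtain ⟨r, rfl⟩ : ∃ r, m = r + 1 := ⟨m - 1, by omega⟩
    have : (1 : ℤ) ≤ 100 ^ r := one_le_pow₀ (by norm_num)
    rw [pow_succ]
    linarith
  have hY1f : Y1 f = 100 * Y f + 10 := by simp [hY1, hf]
  have hY2f : Y2 f = 100 * Y1 f + 50 := by simp [hY2, hf]
  have hvf : v f = 100 ^ (m + 1) * (Y1 f + 1) - 1 := by simp [hv, hf]
  have huf : ((v + (8 : ℤ) • uv f true : Bs)) f = v f + 8 := by
    have : (uv f true : Bs) f = 1 := by
      show Pool.LPG.uv f true f = 1
      rw [Pool.LPG.uv_same]; rfl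
    simp [this]
  refine ⟨⟨i, s, ht, m, f, Y, Y1, Y2, u2, v, v + (8 : ℤ) • uv f true⟩, ?_, rfl, rfl, rfl, rfl, rfl⟩
  refine ⟨hm, hf, rfl, ?_, ?_, ?_, ?_, ?_, ?_, ?_, ?_, ?_, ?_, ?_, ?_⟩
  · -- parY2
    funext j
    show Y2 j / 100 = Y1 j
    by_cases hj : j = i
    · simp only [hY2, hY1, hj, if_true]
      rw [Int.ediv_ediv_of_nonneg hP.le, pow_succ]
    · simp only [hY2, hj, if_false]
      omega
  · funext j
    show Y1 j / 100 = Y j
    by_cases hj : j = i
    · simp only [hY1, hj, if_true]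
      rw [Int.ediv_ediv_of_nonneg (by positivity), ← pow_succ, hY]
    · simp only [hY1, hj, if_false]
      omega
  · simp [hY2]
  · simp [hY1]
  · exact hY
  · -- u2a
    funext j
    show u2 j / 100 ^ m = Y2 j
    by_cases hj : j = i
    · simp only [hu2, hY2, hj, if_true]
    · have : u2 j = 100 ^ m * Y2 j := by simp [hu2, hj]
      rw [this, Int.mul_ediv_cancel_left _ hP.ne']
  · simp [hu2]
  · -- va
    funext j
    show v j / 100 ^ (m + 1) = Y1 j
    by_cases hj : j = i
    · simp only [hv, hY1, hj, if_true]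
    · by_cases hjf : j = f
      · rw [hjf, hvf]
        rw [posex_div (by positivity)]
        constructor <;> nlinarith
      · have : v j = 100 ^ (m + 1) * Y1 j := by simp [hv, hj, hjf]
        rw [this, Int.mul_ediv_cancel_left _ (by positivity)]
  · simp [hv]
  · -- chain
    intro r hr0 hr8
    funext j
    show (v + r • uv f true : Bs) j / 100 ^ (m + 2) = Y j
    by_cases hjf : j = f
    · subst hjf
      have h1 : (v + r • uv j true : Bs) j = v j + r := by
        have : (uv j true : Bs) j = 1 := by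
          show Pool.LPG.uv j true j = 1
          rw [Pool.LPG.uv_same]; rfl
        simp [this]
      rw [h1, hvf, posex_div (by positivity), hY1f, hP1, hP2]
      constructor <;> nlinarith
    · have h1 : (v + r • uv f true : Bs) j = v j := by
        have : (uv f true : Bs) j = 0 := Pool.LPG.uv_ne _ hjf
        simp [this]
      rw [h1]
      by_cases hj : j = i
      · have h2 : v j = ht := by simp [hv, hj]
        rw [h2, hj, hY]
      · have h2 : v j = 100 ^ (m + 1) * (100 * Y j + 10) := by simp [hv, hj, hjf, hY1]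
        rw [h2, posex_div (by positivity), hP1, hP2]
        constructor <;> nlinarith
  · -- sep1
    intro u hu
    show u f + 8 ≤ (v + (8 : ℤ) • uv f true : Bs) f
    rw [huf, hvf]
    have h1 : anc (m + 1) u = Y1 := hu
    have := (posex_anc.1 h1 f).2
    have h3 : (100 : ℤ) ^ (m + 1) * (Y1 f + 1) = 100 ^ (m + 1) * Y1 f + 100 ^ (m + 1) := by ring
    omega
  · -- sep2
    intro u hu
    show u f + 4 * 100 ^ m ≤ (v + (8 : ℤ) • uv f true : Bs) f
    rw [huf, hvf, hP1]
    have h1 : anc m u = Y2 := hu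
    have h2 := (posex_anc.1 h1 f).2
    rw [hY2f] at h2
    nlinarith

/-- distances: everything stays inside `RegE` and away from `us` -/
theorem ball_sub {q : Pos} (h : PosOK q) (u : Bs) (hu : anc (q.m + 2) u = q.Y) (r : ℤ) (hr : r ≤ 3 * 100 ^ (q.m + 2)) :
    Ball u r ⊆ RegE (q.m + 2) q.Y := by
  intro x hx j
  have h1 := hx j
  have h2 := posex_anc.1 hu j
  have h3 := h.m1
  constructor <;> linarith [h1.1, h1.2, h2.1, h2.2]

theorem posex_usf {q : Pos} (h : PosOK q) : (q.us - uv q.i q.s) q.f = q.us q.f := by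
  have : (uv q.i q.s : Bs) q.f = 0 := Pool.LPG.uv_ne _ h.fi
  simp [this]

/-- sites within distance 3 of the cell `Y1` are different from `us`, `us - uv i s` -/
theorem away1 {q : Pos} (h : PosOK q) (u : Bs) (hu : anc (q.m + 1) u = q.Y1) (z : Bs) (hz : z ∈ Ball u 3) :
    z ≠ q.us ∧ z ≠ q.us - uv q.i q.s := by
  have h1 := h.sep1 u hu
  have h2 := (hz q.f).2
  constructor
  · intro hz'
    rw [hz'] at h2
    linarith
  · intro hz'
    rw [hz', posex_usf h] at h2
    linarith

/-- sites within distance `2 * 100^m` of the cell `Y2` are different from `us`, `us - uv i s` -/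
theorem away2 {q : Pos} (h : PosOK q) (u : Bs) (hu : anc q.m u = q.Y2) (z : Bs)
    (hz : z ∈ Ball u (2 * 100 ^ q.m + 1)) : z ≠ q.us ∧ z ≠ q.us - uv q.i q.s := by
  have h1 := h.sep2 u hu
  have h2 := (hz q.f).2
  have h3 : (1 : ℤ) ≤ 100 ^ q.m := one_le_pow₀ (by norm_num)
  constructor
  · intro hz'
    rw [hz'] at h2
    linarith
  · intro hz'
    rw [hz', posex_usf h] at h2
    linarith

/-- outer and inner slice -/
theorem anc_in {q : Pos} (k : ℕ) (y u : Bs) (hy : y q.i = q.ht / 100 ^ k) (hu : anc k u = y) (hi : u q.i = q.ht) :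
    anc k (u - uv q.i q.s) = q.low k y ∧ (u - uv q.i q.s) q.i = q.ht - sg q.s := by
  have h1 : (u - uv q.i q.s) q.i = q.ht - sg q.s := by
    have : (uv q.i q.s : Bs) q.i = sg q.s := Pool.LPG.uv_same _ _
    rw [Pi.sub_apply, this, hi]
  refine ⟨?_, h1⟩
  funext j
  by_cases hj : j = q.i
  · rw [hj]
    show (u - uv q.i q.s) q.i / 100 ^ k = Pool.LPG.lev q.i (q.ht - sg q.s) k y q.i
    rw [h1, Pool.LPG.lev_same]
  · show (u - uv q.i q.s) j / 100 ^ k = Pool.LPG.lev q.i (q.ht - sg q.s) k y j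
    rw [Pool.LPG.lev_ne _ _ _ _ hj]
    have : (uv q.i q.s : Bs) j = 0 := Pool.LPG.uv_ne _ hj
    rw [Pi.sub_apply, this, sub_zero, ← hu]
    rfl

theorem anc_out {q : Pos} (k : ℕ) (y z : Bs) (hy : y q.i = q.ht / 100 ^ k) (hz : anc k z = q.low k y)
    (hi : z q.i = q.ht - sg q.s) : anc k (z + uv q.i q.s) = y ∧ (z + uv q.i q.s) q.i = q.ht := by
  have h1 : (z + uv q.i q.s) q.i = q.ht := by
    have : (uv q.i q.s : Bs) q.i = sg q.s := Pool.LPG.uv_same _ _
    rw [Pi.add_apply, this, hi]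
    ring
  refine ⟨?_, h1⟩
  funext j
  by_cases hj : j = q.i
  · rw [hj, hy]
    show (z + uv q.i q.s) q.i / 100 ^ k = q.ht / 100 ^ k
    rw [h1]
  · show (z + uv q.i q.s) j / 100 ^ k = y j
    have : (uv q.i q.s : Bs) j = 0 := Pool.LPG.uv_ne _ hj
    rw [Pi.add_apply, this, add_zero]
    have h2 : z j / 100 ^ k = Pool.LPG.lev q.i (q.ht - sg q.s) k y j := congrFun hz j
    rw [h2, Pool.LPG.lev_ne _ _ _ _ hj]

end Pool.Agent.LPL
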