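import Pool.Agent.LPL.SLoc
import Pool.Agent.LPL.PosEx
import Pool.Agent.LPL.Emb
import Pool.Agent.LP.Bad

/-!
# LPL: dependence and measurability

`hs_dep`: `IsG G ι u x` depends on `G` over `u` only; soundness of `u` below level `m` depends on `XS z`,
`z ∈ RegX m u` (`snd_local`), hence on `G` over `Ball z 3 ⊆ Ball u (2 * 100^m)`; `away2`, `ball_sub` show that all these
vertices are in `Shs q K` (for the inner sites `z` use `z + uv i s`, `anc_out`).
`evE_meas`: only `A ∩ Ov (RegE k Y)` matters (finitely many sets; `Wall` at `u` with `anc k u = Y` uses only leaves over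
`u`, `u - uv i s`, which are in `RegE k Y`), for fixed `A` the set `{ω | ClosedOn (W ω) R A}` is measurable, and
soundness is measurable by `meas_S` (`RegS k 0 u ⊆ RegE k Y` for `anc k u = Y` or `anc k (u + uv i s) = Y`, `1 ≤ k`).
-/

set_option autoImplicit false

open MeasureTheory
open scoped Classical

namespace Pool.Agent.LPL

open Pool.Agent.OIP Pool.Agent.LP Pool.Agent.LPW

variable {Ω D E : Type} [MeasurableSpace Ω] [Fintype D] [DecidableEq D] [Fintype E] [DecidableEq E] {n : ℕ}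

theorem shs_finite (q : Pos) (K : Finset E) : (Shs q K : Set (V E)).Finite := by
  have h1 : (RegE (q.m + 2) q.Y).Finite :=
    Set.Finite.pi' fun i => Set.finite_Icc (100 ^ (q.m + 2) * q.Y i - 3 * 100 ^ (q.m + 2))
      (100 ^ (q.m + 2) * q.Y i + 4 * 100 ^ (q.m + 2))
  have h2 : (RegE (q.m + 2) q.Y ×ˢ (Set.univ : Set (Finset E))).Finite := h1.prod Set.finite_univ
  exact h2.subset fun v hv => ⟨hv.1, Set.mem_univ _⟩

private theorem dep_anc_us {q : Pos} (h : PosOK q) : anc (q.m + 2) q.us = q.Y := by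
  have := h.chain 8 (by norm_num) le_rfl
  rw [← h.us_eq] at this
  exact this

private theorem dep_pow (k : ℕ) : (1 : ℤ) ≤ 100 ^ k := one_le_pow₀ (by norm_num)

private theorem dep_pow2 (m : ℕ) : (2 : ℤ) * 100 ^ m + 1 ≤ 3 * 100 ^ (m + 2) := by
  have h1 := dep_pow m
  have h2 : (100 : ℤ) ^ (m + 2) = 10000 * 100 ^ m := by
    rw [pow_add]
    ring
  rw [h2]
  linarith

theorem wn_sub {q : Pos} (h : PosOK q) (K : Finset E) : (Wn q.us K : Set (V E)) ⊆ Shs q K := by
  rintro v ⟨h1, h2⟩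
  refine ⟨ball_sub h q.us (dep_anc_us h) 3 ?_ h1, fun h3 => h2 h3.2⟩
  have := dep_pow (q.m + 2)
  linarith

private theorem dep_Cn {V' : Type} {G H : SimpleGraph V'} {R S : Set V'} (hR : R ⊆ S)
    (hGH : ∀ a ∈ S, ∀ b ∈ S, (G.Adj a b ↔ H.Adj a b)) (x v : V') : Cn G R x v ↔ Cn H R x v :=
  depOn_Cn R x v G H fun a ha b hb => hGH a (hR ha) b (hR hb)

private theorem dep_isG {G H : SimpleGraph (V E)} {S : Set (V E)} {z : Bs} (hz : (Ov {z} : Set (V E)) ⊆ S)
    (hGH : ∀ a ∈ S, ∀ b ∈ S, (G.Adj a b ↔ H.Adj a b)) (ι : Fin n → E) (x : V E) :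
    IsG G ι z x ↔ IsG H ι z x := by
  have h1 : Cl G {z} x = Cl H {z} x := by
    ext v
    exact dep_Cn hz hGH x v
  unfold IsG
  rw [h1]

theorem hs_dep {q : Pos} (h : PosOK q) (ι : Fin n → E) {XS : Bs → Set (SimpleGraph (V E))}
    (hdep : ∀ z, DepOn (Ov (Ball z 3)) (XS z)) (K : Finset E) : DepOn (Shs q K) (HS q ι XS K) := by
  -- everything near the cell `Y2` is in the region
  have reg : ∀ u : Bs, anc q.m u = q.Y2 → ∀ x ∈ Ball u (2 * 100 ^ q.m + 1), (Ov {x} : Set (V E)) ⊆ Shs q K := by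
    rintro u hu x hx v hv
    have hv' : v.1 = x := hv
    have hY : anc (q.m + 2) u = q.Y := by
      have e1 : anc (q.m + 2) u = Pool.LPG.par (Pool.LPG.par (anc q.m u)) := by
        show Pool.LPG.anc (q.m + 2) u = _
        rw [show q.m + 2 = (q.m + 1) + 1 by ring, Pool.LPG.anc_succ, Pool.LPG.anc_succ]
      rw [e1, hu, h.parY2, h.parY1]
    have h1 : x ∈ RegE (q.m + 2) q.Y := ball_sub h u hY _ (dep_pow2 q.m) hx
    have h2 := away2 h u hu x hx
    refine ⟨?_, ?_⟩
    · rw [hv']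
      exact h1
    · rintro ⟨h3, _⟩
      rw [hv'] at h3
      exact h3.elim h2.1 h2.2
  -- a centre `w` at distance at most one from a site of `Y2`
  have near : ∀ G H : SimpleGraph (V E), (∀ a ∈ Shs q K, ∀ b ∈ Shs q K, (G.Adj a b ↔ H.Adj a b)) →
      ∀ u : Bs, anc q.m u = q.Y2 → ∀ w ∈ Ball u 1,
      (∀ x, IsG G ι w x ↔ IsG H ι w x) ∧
        (Snd {z | G ∈ XS z} q.m Set.univ 0 w ↔ Snd {z | H ∈ XS z} q.m Set.univ 0 w) := by
    intro G H hGH u hu w hw
    have hp := dep_pow q.m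
    constructor
    · intro x
      refine dep_isG (reg u hu w ?_) hGH ι x
      intro i
      have := hw i
      constructor <;> linarith [this.1, this.2]
    · refine snd_local _ _ _ _ fun z hz => ?_
      refine hdep z G H fun a ha b hb => ?_
      have hin : ∀ y : V E, y ∈ (Ov (Ball z 3) : Set (V E)) → y ∈ Shs q K := by
        intro y hy
        refine reg u hu y.1 ?_ (show y.1 ∈ ({y.1} : Set Bs) from rfl)
        intro i
        have h1 := hw i
        have h2 := hz i
        have h3 := hy i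
        constructor <;> linarith [h1.1, h1.2, h2.1, h2.2, h3.1, h3.2]
      exact hGH a (hin a ha) b (hin b hb)
  have self : ∀ u : Bs, u ∈ Ball u 1 := fun u i => by constructor <;> linarith
  have down : ∀ z : Bs, z ∈ Ball (z + uv q.i q.s) 1 := by
    intro z i
    have h1 : (uv q.i q.s : Bs) i = 0 ∨ (uv q.i q.s : Bs) i = 1 ∨ (uv q.i q.s : Bs) i = -1 := by
      by_cases hi : i = q.i
      · rw [hi]
        have : (uv q.i q.s : Bs) q.i = Pool.LPG.sg q.s := Pool.LPG.uv_same _ _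
        rw [this]
        cases q.s
        · exact Or.inr (Or.inr rfl)
        · exact Or.inr (Or.inl rfl)
      · exact Or.inl (Pool.LPG.uv_ne _ hi)
    have h2 : (z + uv q.i q.s) i = z i + (uv q.i q.s : Bs) i := rfl
    rw [h2]
    rcases h1 with h1 | h1 | h1 <;> rw [h1] <;> constructor <;> linarith
  have key : ∀ G H : SimpleGraph (V E), (∀ a ∈ Shs q K, ∀ b ∈ Shs q K, (G.Adj a b ↔ H.Adj a b)) →
      ∀ A, (Mg q ι XS G A → Mg q ι XS H A) ∧ (ClosedOn G (Shs q K) A → ClosedOn H (Shs q K) A) := by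
    intro G H hGH A
    refine ⟨fun hM => ⟨?_, ?_⟩, fun hc u hu v hv hadj => hc u hu v hv ((hGH u hu v hv).2 hadj)⟩
    · intro u hu hi hs x hx
      have hn := near G H hGH u hu u (self u)
      exact hM.1 u hu hi (hn.2.2 hs) x ((hn.1 x).2 hx)
    · intro z hz hi hs x hx
      have hu := anc_out q.m q.Y2 z h.Y2i hz hi
      have hn := near G H hGH (z + uv q.i q.s) hu.1 z (down z)
      exact hM.2 z hz hi (hn.2.2 hs) x ((hn.1 x).2 hx)
  intro G H hGH
  have hHG : ∀ a ∈ Shs q K, ∀ b ∈ Shs q K, (H.Adj a b ↔ G.Adj a b) := fun a ha b hb => (hGH a ha b hb).symm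
  constructor
  · intro hG A hc hM
    exact hG A ((key H G hHG A).2 hc) ((key H G hHG A).1 hM)
  · intro hH A hc hM
    exact hH A ((key G H hGH A).2 hc) ((key G H hGH A).1 hM)

private theorem dep_aa {A R : Set (V D)} {O : V D} (hO : (Ov {O.1} : Set (V D)) ⊆ R) (K : Finset D) :
    aa (A ∩ R) O K ↔ aa A O K := by
  unfold aa
  have h1 : ∀ k ∈ K, (flip (K.erase k) O ∈ A ∩ R ↔ flip (K.erase k) O ∈ A) := fun k _ =>
    ⟨fun h => h.1, fun h => ⟨h, hO (show (flip (K.erase k) O).1 ∈ ({O.1} : Set Bs) from rfl)⟩⟩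
  have e : ∀ s t : Finset D, s = t → (K.card < 2 * s.card ↔ K.card < 2 * t.card) := fun s t h => by rw [h]
  apply e
  ext k
  simp only [Finset.mem_filter]
  exact and_congr_right (h1 k)

private theorem dep_wall {μ : Measure Ω} {W : Ω → SimpleGraph (V D)} {ι : Fin n → D} {η : ℝ} {A R : Set (V D)}
    {i : Fin 4} {s : Bool} {u : Bs} (hu : (Ov {u} : Set (V D)) ⊆ R) (hu' : (Ov {u - uv i s} : Set (V D)) ⊆ R) :
    Wall μ W ι η (A ∩ R) i s u ↔ Wall μ W ι η A i s u := by
  have hmv : ∀ S : Finset D, (mv (Sum.inl (i, s) : Dir D) (u - Pool.LPG.uv i s, S)).1 = u := by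
    intro S
    show u - Pool.LPG.uv i s + Pi.single i (if s then 1 else -1) = u
    have : Pool.LPG.uv i s = Pi.single i (if s then 1 else -1) := rfl
    rw [this, sub_add_cancel]
  have h1 : ∀ (S : Finset D) (K : Finset D),
      WallAt μ W (A ∩ R) (u - Pool.LPG.uv i s, S) (Sum.inl (i, s)) K ↔
        WallAt μ W A (u - Pool.LPG.uv i s, S) (Sum.inl (i, s)) K := by
    intro S K
    unfold WallAt
    rw [dep_aa (A := A) (R := R) (O := (u - Pool.LPG.uv i s, S)) hu' K,
      dep_aa (A := A) (R := R) (O := mv (Sum.inl (i, s) : Dir D) (u - Pool.LPG.uv i s, S))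
        (by rw [hmv S]; exact hu) K]
  unfold Wall
  refine forall_congr' fun S => ?_
  have h2 : (fun σ : Equiv.Perm D => ind (¬ WallAt μ W (A ∩ R) (u - Pool.LPG.uv i s, S) (Sum.inl (i, s)) (KK ι σ))) =
      (fun σ : Equiv.Perm D => ind (¬ WallAt μ W A (u - Pool.LPG.uv i s, S) (Sum.inl (i, s)) (KK ι σ))) := by
    funext σ
    rw [h1 S (KK ι σ)]
  rw [h2]

private theorem dep_reg {k : ℕ} {Y u : Bs} (hu : anc k u = Y) {w : Bs} {r : ℤ} (hw : w ∈ Ball u r)
    (hr : r ≤ 3 * 100 ^ k) : w ∈ RegE k Y := by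
  intro i
  have h1 := hw i
  have h2 := posex_anc.1 hu i
  constructor <;> linarith [h1.1, h1.2, h2.1, h2.2]

private theorem dep_uv (i : Fin 4) (s : Bool) (u : Bs) : u - uv i s ∈ Ball u 1 := by
  intro l
  have h1 : (uv i s : Bs) l = 0 ∨ (uv i s : Bs) l = 1 ∨ (uv i s : Bs) l = -1 := by
    by_cases hi : l = i
    · rw [hi]
      have : (uv i s : Bs) i = Pool.LPG.sg s := Pool.LPG.uv_same _ _
      rw [this]
      cases s
      · exact Or.inr (Or.inr rfl)
      · exact Or.inr (Or.inl rfl)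
    · exact Or.inl (Pool.LPG.uv_ne _ hi)
  have h2 : (u - uv i s) l = u l - (uv i s : Bs) l := rfl
  rw [h2]
  rcases h1 with h1 | h1 | h1 <;> rw [h1] <;> constructor <;> linarith

theorem evE_meas {p : ℝ} {μ : Measure Ω} {W : Ω → SimpleGraph (V D)} (hM : MModel p μ W) (ι : Fin n → D)
    {X : Bs → Set Ω} (hX : ∀ z, MeasurableSet[FV W (Ball z 3)] (X z)) (i : Fin 4) (s : Bool) (ht : ℤ) (k : ℕ)
    (hk : 1 ≤ k) (Y : Bs) (hY : Y i = ht / 100 ^ k) :
    MeasurableSet[FV W (RegE k Y)] (EvE μ W ι X i s ht k Y) := by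
  have hpr : IsProbabilityMeasure μ := hM.prob
  have hloc := locV μ W hM.meas hM.indep
  have hp := dep_pow k
  -- the region is finite
  have hfinE : (RegE k Y).Finite :=
    Set.Finite.pi' fun i => Set.finite_Icc (100 ^ k * Y i - 3 * 100 ^ k) (100 ^ k * Y i + 4 * 100 ^ k)
  have hfin : (Ov (RegE k Y) : Set (V D)).Finite := by
    have h2 : (RegE k Y ×ˢ (Set.univ : Set (Finset D))).Finite := hfinE.prod Set.finite_univ
    exact h2.subset fun v hv => ⟨hv, Set.mem_univ _⟩
  -- soundness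
  have hsnd : ∀ u : Bs, ∀ w : Bs, anc k u = Y → w ∈ Ball u 1 →
      MeasurableSet[FV W (RegE k Y)] {ω | Snd (Pool.LPG.XX X ω) k Set.univ 0 w} := by
    intro u w hu hw
    refine hloc.mono _ _ ?_ _ (Pool.LPG.meas_S μ (FV W) hloc X hX k 0 (Nat.zero_le k) w)
    intro x hx
    refine dep_reg hu (r := 2 * 100 ^ k + 1) ?_ (by linarith)
    intro l
    have h1 := hx l
    have h2 := hw l
    rw [pow_zero, one_mul] at h1
    constructor <;> linarith [h1.1, h1.2, h2.1, h2.2]
  -- closed sets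
  have hcl : ∀ B : Set (V D), MeasurableSet[FV W (RegE k Y)] {ω | ClosedOn (W ω) (Ov (RegE k Y)) B} := by
    intro B
    refine concM_meas W hfin (U := {G | ClosedOn G (Ov (RegE k Y)) B}) ?_
    intro G H hGH
    constructor
    · intro h u hu v hv hadj
      exact h u hu v hv ((hGH u hu v hv).2 hadj)
    · intro h u hu v hv hadj
      exact h u hu v hv ((hGH u hu v hv).1 hadj)
  -- the event
  have hEv : EvE μ W ι X i s ht k Y = ⋂ B : Finset (V D), ⋂ _ : (B : Set (V D)) ⊆ Ov (RegE k Y),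
      ({ω | ClosedOn (W ω) (Ov (RegE k Y)) (B : Set (V D))}ᶜ ∪
        ⋃ u : Bs, ⋃ _ : anc k u = Y ∧ u i = ht ∧ ¬ Wall μ W ι (1 / (n : ℝ) ^ 4) (B : Set (V D)) i s u,
          ({ω | Snd (Pool.LPG.XX X ω) k Set.univ 0 u} ∩
            {ω | Snd (Pool.LPG.XX X ω) k Set.univ 0 (u - uv i s)})) := by
    ext ω
    simp only [Set.mem_iInter, Set.mem_union, Set.mem_compl_iff, Set.mem_iUnion, Set.mem_inter_iff, exists_prop]
    constructor
    · intro h B hB
      by_cases hc : ClosedOn (W ω) (Ov (RegE k Y)) (B : Set (V D))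
      · obtain ⟨u, h1, h2, h3, h4, h5⟩ := h B hc
        exact Or.inr ⟨u, ⟨h1, h2, h5⟩, h3, h4⟩
      · exact Or.inl hc
    · intro h A hA
      have hfA : (A ∩ Ov (RegE k Y)).Finite := hfin.subset Set.inter_subset_right
      have hB : ((hfA.toFinset : Finset (V D)) : Set (V D)) = A ∩ Ov (RegE k Y) := hfA.coe_toFinset
      rcases h hfA.toFinset (by rw [hB]; exact Set.inter_subset_right) with h1 | h1
      · exfalso
        apply h1
        show ClosedOn (W ω) (Ov (RegE k Y)) (hfA.toFinset : Set (V D))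
        rw [hB]
        intro u hu v hv hadj
        have := hA u hu v hv hadj
        exact ⟨fun h => ⟨this.1 h.1, hv⟩, fun h => ⟨this.2 h.1, hu⟩⟩
      · obtain ⟨u, ⟨h2, h3, h4⟩, h5, h6⟩ := h1
        refine ⟨u, h2, h3, h5, h6, fun hW => h4 ?_⟩
        rw [hB]
        refine (dep_wall ?_ ?_).2 hW
        · rintro v hv
          have hv' : v.1 = u := hv
          show v.1 ∈ RegE k Y
          rw [hv']
          exact dep_reg h2 (r := 0) (fun l => by constructor <;> linarith) (by linarith)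
        · rintro v hv
          have hv' : v.1 = u - uv i s := hv
          show v.1 ∈ RegE k Y
          rw [hv']
          exact dep_reg h2 (r := 1) (dep_uv i s u) (by linarith)
  rw [hEv]
  refine MeasurableSet.iInter fun B => MeasurableSet.iInter fun _ => ?_
  refine MeasurableSet.union (hcl B).compl ?_
  refine MeasurableSet.iUnion fun u => MeasurableSet.iUnion fun hu => ?_
  exact MeasurableSet.inter (hsnd u u hu.1 (fun l => by constructor <;> linarith))
    (hsnd u (u - uv i s) hu.1 (dep_uv i s u))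

/-- the placement of the active cube -/
def plc (q : Pos) (j : E → D) (a : Fin 3 → D) (K : Finset E) (a' b' : Cb → E) : Plc (V D) where
  x c := emb j a c (q.us, K)
  y c := emb j a c (In q.i q.s (q.us, K))
  k c := emb j a c (In q.i q.s (q.us, K.erase (a' c)))
  l c := emb j a c (In q.i q.s (q.us, K.erase (b' c)))
  sh c := emb j a c '' Shs q K

private theorem dep_uv_ne (i : Fin 4) (s : Bool) (u : Bs) : u ≠ u - uv i s := by
  intro h
  have h1 := congrFun h i
  have h2 : (u - uv i s) i = u i - (uv i s : Bs) i := rfl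
  have h3 : (uv i s : Bs) i = Pool.LPG.sg s := Pool.LPG.uv_same _ _
  rw [h2, h3] at h1
  cases s
  · have : Pool.LPG.sg false = -1 := rfl
    omega
  · have : Pool.LPG.sg true = 1 := rfl
    omega

theorem plc_ok {q : Pos} (h : PosOK q) {j : E → D} {a : Fin 3 → D} (hs : Split j a) {K : Finset E} {a' b' : Cb → E}
    (ha : ∀ c, a' c ∈ K) (hb : ∀ c, b' c ∈ K) : PlcOK (plc q j a K a' b') := by
  have hp := dep_pow (q.m + 2)
  have inn : q.us - uv q.i q.s ∈ RegE (q.m + 2) q.Y :=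
    ball_sub h q.us (dep_anc_us h) 1 (by linarith) (dep_uv q.i q.s q.us)
  have hne : ∀ x : E, x ∈ K → K.erase x ≠ K := fun x hx he => (Finset.erase_eq_self.1 he) hx
  refine ⟨?_, ?_, ?_, ?_, ?_, ?_, ?_, ?_⟩
  · intro c d hcd
    by_contra hne'
    exact emb_ne hs hne' _ _ hcd
  · intro c d hcd
    by_contra hne'
    exact emb_ne hs hne' _ _ hcd
  · intro c d hcd
    have h1 : (emb j a c (q.us, K)).1 = (emb j a d (In q.i q.s (q.us, K))).1 := congrArg Prod.fst hcd
    exact dep_uv_ne q.i q.s q.us h1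
  · intro c
    exact ⟨_, ⟨inn, fun h3 => hne _ (ha c) h3.2⟩, rfl⟩
  · intro c
    exact ⟨_, ⟨inn, fun h3 => hne _ (hb c) h3.2⟩, rfl⟩
  · rintro c d ⟨v, hv, hvc⟩
    by_cases hcd : d = c
    · subst hcd
      have : v = (q.us, K) := emb_inj hs d hvc
      rw [this] at hv
      exact hv.2 ⟨Or.inl rfl, rfl⟩
    · exact emb_ne hs hcd _ _ hvc
  · rintro c d ⟨v, hv, hvc⟩
    by_cases hcd : d = c
    · subst hcd
      have : v = In q.i q.s (q.us, K) := emb_inj hs d hvc
      rw [this] at hv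
      exact hv.2 ⟨Or.inr rfl, rfl⟩
    · exact emb_ne hs hcd _ _ hvc
  · intro c d hcd
    rw [Set.disjoint_left]
    rintro x ⟨v, _, hv⟩ ⟨v', _, hv'⟩
    exact emb_ne hs hcd v v' (hv.trans hv'.symm)

theorem plc_edges {q : Pos} (h : PosOK q) {j : E → D} {a : Fin 3 → D} (hs : Split j a) (K : Finset E) (a' b' : Cb → E)
    {p : ℝ} {μ : Measure Ω} {W : Ω → SimpleGraph (V D)} (hM : MModel p μ W) :
    (∀ (r : Fin 3) (c : Cb), p ≤ μ.real {ω | (W ω).Adj ((plc q j a K a' b').x c) ((plc q j a K a' b').x (fl r c))}) ∧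
    (∀ (r : Fin 3) (c : Cb), p ≤ μ.real {ω | (W ω).Adj ((plc q j a K a' b').y c) ((plc q j a K a' b').y (fl r c))}) ∧
    (∀ c : Cb, p ≤ μ.real {ω | (W ω).Adj ((plc q j a K a' b').x c) ((plc q j a K a' b').y c)}) := by
  refine ⟨?_, ?_, ?_⟩
  · intro r c
    show p ≤ μ.real {ω | (W ω).Adj (emb j a c (q.us, K)) (emb j a (fl r c) (q.us, K))}
    rw [emb_fl hs]
    exact hM.edge _ _
  · intro r c
    show p ≤ μ.real {ω | (W ω).Adj (emb j a c (In q.i q.s (q.us, K))) (emb j a (fl r c) (In q.i q.s (q.us, K)))}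
    rw [emb_fl hs]
    exact hM.edge _ _
  · intro c
    show p ≤ μ.real {ω | (W ω).Adj (emb j a c (q.us, K)) (emb j a c (In q.i q.s (q.us, K)))}
    have h1 : emb j a c (In q.i q.s (q.us, K)) = mv (Sum.inl (q.i, !q.s) : Dir D) (emb j a c (q.us, K)) := by
      refine Prod.ext ?_ rfl
      show q.us - uv q.i q.s = q.us + Pi.single q.i (if (!q.s) = true then 1 else -1)
      have h2 : (uv q.i q.s : Bs) = Pi.single q.i (if q.s then 1 else -1) := rfl
      rw [h2, sub_eq_add_neg, ← Pi.single_neg]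
      cases q.s <;> simp
    rw [h1]
    exact hM.edge _ _

end Pool.Agent.LPL
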