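import Pool.Agent.LPL.PosEx
import Pool.Agent.LP.GConn

/-!
# LPL: giants in a fibre, spreading along sound sites (deterministic, one sheet)

`isG_hi`: `x ∈ A`, `A` closed over `z` implies `Cl G {z} x ⊆ A` (if `x` is the only vertex of its cluster this is
trivial; induction on `Cn`), and `aa` is monotone in the set.  `isG_lo`: `x ∉ A` implies `Cl G {z} x ∩ A = ∅`, and two
disjoint sets cannot both contain more than half of the leaves.  `isG_cl`: some `σ` (in fact most) has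
`aa (Cl x) O K` and `aa (Cl x') O K`, so the clusters meet (`Cn` is symmetric: `G.Adj` is).
`spread`: `conn_slice` with `K = k`, `Top = {y}` (`S_comp`, `S_top`: for `anc k u = y` soundness with `Top = {y}` is
soundness with `Top = univ`); level 0 soundness implies `∉ X` because `1 ≤ k` (`S_not_bad'`).
-/

set_option autoImplicit false

open MeasureTheory
open scoped Classical

namespace Pool.Agent.LPL

open Pool.Agent.OIP Pool.Agent.LP Pool.Agent.LPW

variable {Ω E : Type} [MeasurableSpace Ω] [Fintype E] [DecidableEq E] {n : ℕ}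

theorem geo_cn_mem {D : Type} {G : SimpleGraph (V D)} {R A : Set (V D)} (hA : ClosedOn G R A) {x v : V D}
    (h : Cn G R x v) : (x ∈ A ↔ v ∈ A) := by
  unfold Cn at h
  induction h with
  | refl => exact Iff.rfl
  | tail _ hbc ih => exact ih.trans (hA _ hbc.2.1 _ hbc.2.2 hbc.1)

theorem geo_aa_mono {D : Type} [DecidableEq D] {A B : Set (V D)} (h : A ⊆ B) {O : V D} {K : Finset D}
    (ha : aa A O K) : aa B O K := by
  unfold aa at *
  refine lt_of_lt_of_le ha ?_
  apply Nat.mul_le_mul_left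
  apply Finset.card_le_card
  intro k hk
  rw [Finset.mem_filter] at hk ⊢
  exact ⟨hk.1, h hk.2⟩

theorem geo_aa_meet {D : Type} [DecidableEq D] {A B : Set (V D)} {O : V D} {K : Finset D}
    (ha : aa A O K) (hb : aa B O K) : ∃ v, v ∈ A ∧ v ∈ B := by
  by_contra hne
  unfold aa at *
  have hd : Disjoint (K.filter (fun k => Pool.Agent.LP.flip (K.erase k) O ∈ A))
      (K.filter (fun k => Pool.Agent.LP.flip (K.erase k) O ∈ B)) := by
    rw [Finset.disjoint_left]
    intro k hk hk'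
    exact hne ⟨_, (Finset.mem_filter.1 hk).2, (Finset.mem_filter.1 hk').2⟩
  have hc := Finset.card_union_of_disjoint hd
  have hs : (K.filter (fun k => Pool.Agent.LP.flip (K.erase k) O ∈ A) ∪
      K.filter (fun k => Pool.Agent.LP.flip (K.erase k) O ∈ B)).card ≤ K.card :=
    Finset.card_le_card (Finset.union_subset (Finset.filter_subset _ _) (Finset.filter_subset _ _))
  omega

theorem geo_cl_sub {D : Type} {G : SimpleGraph (V D)} {z : Bs} {x : V D} {A : Set (V D)}
    (hA : ClosedOn G (Ov {z}) A) (hxA : x ∈ A) : Cl G {z} x ⊆ A :=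
  fun _ hv => (geo_cn_mem hA hv).1 hxA

theorem geo_cl_disj {D : Type} {G : SimpleGraph (V D)} {z : Bs} {x : V D} {A : Set (V D)}
    (hA : ClosedOn G (Ov {z}) A) (hxA : x ∉ A) {v : V D} (hv : v ∈ Cl G {z} x) : v ∉ A :=
  fun h => hxA ((geo_cn_mem hA hv).2 h)

theorem geo_avg_one {P Q : Equiv.Perm E → Prop} (h : ∀ σ, P σ ∨ Q σ) :
    1 ≤ avg (fun σ : Equiv.Perm E => ind (P σ)) + avg (fun σ : Equiv.Perm E => ind (Q σ)) := by
  rw [← avg_add]
  calc (1 : ℝ) = avg (fun _ : Equiv.Perm E => (1 : ℝ)) := (avg_const 1).symm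
    _ ≤ _ := by
      apply avg_mono
      intro σ
      rcases h σ with h | h
      · have h1 : ind (P σ) = 1 := by unfold ind; rw [if_pos h]
        have h2 := ind_nonneg (Q σ)
        linarith
      · have h1 : ind (Q σ) = 1 := by unfold ind; rw [if_pos h]
        have h2 := ind_nonneg (P σ)
        linarith

theorem isG_hi {G : SimpleGraph (V E)} {ι : Fin n → E} {z : Bs} {x : V E} (hx : IsG G ι z x) {A : Set (V E)}
    (hA : ClosedOn G (Ov {z}) A) (hxA : x ∈ A) (O : V E) (hO : O.1 = z) :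
    avg (fun σ : Equiv.Perm E => ind (¬ aa A O (KK ι σ))) ≤ 1 / 10 ^ 9 := by
  refine le_trans (avg_mono fun σ => ind_mono ?_) (hx.2 O hO)
  exact fun h h' => h (geo_aa_mono (geo_cl_sub hA hxA) h')

theorem isG_lo {G : SimpleGraph (V E)} {ι : Fin n → E} {z : Bs} {x : V E} (hx : IsG G ι z x) {A : Set (V E)}
    (hA : ClosedOn G (Ov {z}) A) (hxA : x ∉ A) (O : V E) (hO : O.1 = z) :
    avg (fun σ : Equiv.Perm E => ind (aa A O (KK ι σ))) ≤ 1 / 10 ^ 9 := by
  refine le_trans (avg_mono fun σ => ind_mono ?_) (hx.2 O hO)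
  intro h h'
  obtain ⟨v, h1, h2⟩ := geo_aa_meet h h'
  exact geo_cl_disj hA hxA h2 h1

/-- membership of a giant is decided by one good star -/
theorem isG_mem {G : SimpleGraph (V E)} {z : Bs} {x : V E} {A : Set (V E)} (hA : ClosedOn G (Ov {z}) A) {O : V E}
    (hO : O.1 = z) {K : Finset E} (h : aa (Cl G {z} x) O K) (hxz : x.1 = z) : (x ∈ A ↔ aa A O K) := by
  constructor
  · intro hxA
    exact geo_aa_mono (geo_cl_sub hA hxA) h
  · intro h'
    by_contra hxA
    obtain ⟨v, h1, h2⟩ := geo_aa_meet h h'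
    exact geo_cl_disj hA hxA h1 h2

theorem isG_cl {G : SimpleGraph (V E)} {ι : Fin n → E} {z : Bs} {x x' : V E} (hx : IsG G ι z x)
    (hx' : IsG G ι z x') : Cl G {z} x = Cl G {z} x' := by
  have h1 : ∃ σ : Equiv.Perm E, aa (Cl G {z} x) x (KK ι σ) ∧ aa (Cl G {z} x') x (KK ι σ) := by
    by_contra hne
    have h2 := geo_avg_one (E := E) (P := fun σ => ¬ aa (Cl G {z} x) x (KK ι σ))
      (Q := fun σ => ¬ aa (Cl G {z} x') x (KK ι σ)) (by
        intro σ
        by_contra h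
        rw [not_or, not_not, not_not] at h
        exact hne ⟨σ, h⟩)
    have h3 := hx.2 x hx.1
    have h4 := hx'.2 x hx.1
    norm_num at h3 h4
    linarith
  obtain ⟨σ, h2, h3⟩ := h1
  obtain ⟨v, h4, h5⟩ := geo_aa_meet h2 h3
  have h6 : Cn G (Ov {z}) x v := h4
  have h7 : Cn G (Ov {z}) x' v := h5
  ext w
  constructor
  · intro hw
    exact h7.trans (h6.symm.trans hw)
  · intro hw
    exact h6.trans (h7.symm.trans hw)

/-- wall at `u` seen by the giants -/
theorem wall_giants {μ : Measure Ω} {W : Ω → SimpleGraph (V E)} {G : SimpleGraph (V E)} {ι : Fin n → E} (hn : 2 ≤ n)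
    {i : Fin 4} {s : Bool} {u : Bs} {A : Set (V E)} (hW : Wall μ W ι (2 / (n : ℝ) ^ 4) A i s u)
    (hA : ClosedOn G (Ov {u}) A) (hA' : ClosedOn G (Ov {u - uv i s}) A) :
    (∀ x, IsG G ι u x → x ∉ A) ∧ (∀ x, IsG G ι (u - uv i s) x → x ∈ A) := by
  have hn' : (2 : ℝ) ≤ n := by exact_mod_cast hn
  have hn4 : (2 : ℝ) / (n : ℝ) ^ 4 ≤ 1 / 8 := by
    have h1 : (16 : ℝ) ≤ (n : ℝ) ^ 4 := by
      calc (16 : ℝ) = 2 ^ 4 := by norm_num
        _ ≤ (n : ℝ) ^ 4 := pow_le_pow_left₀ (by norm_num) hn' 4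
    rw [div_le_div_iff₀ (by linarith) (by norm_num)]
    linarith
  have hmv : mv (Sum.inl (i, s)) ((u - Pool.LPG.uv i s, ∅) : V E) = (u, ∅) := by
    show (u - Pool.LPG.uv i s + Pi.single i (if s then 1 else -1), (∅ : Finset E)) = (u, ∅)
    have : (Pi.single i (if s then 1 else -1) : Bs) = Pool.LPG.uv i s := rfl
    rw [this, sub_add_cancel]
  have hw := (hW ∅).trans hn4
  constructor
  · intro x hx hxA
    have h1 := isG_hi hx hA hxA (u, ∅) rfl
    have h2 := geo_avg_one (E := E) (P := fun σ => ¬ aa A (u, ∅) (KK ι σ))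
      (Q := fun σ => ¬ WallAt μ W A (u - Pool.LPG.uv i s, ∅) (Sum.inl (i, s)) (KK ι σ)) (by
        intro σ
        by_contra h
        rw [not_or, not_not, not_not] at h
        apply h.2.2.1
        rw [hmv]
        exact h.1)
    norm_num at h1
    linarith
  · intro x hx
    by_contra hxA
    have h1 := isG_lo hx hA' hxA (u - uv i s, ∅) rfl
    have h2 := geo_avg_one (E := E) (P := fun σ => aa A (u - uv i s, ∅) (KK ι σ))
      (Q := fun σ => ¬ WallAt μ W A (u - Pool.LPG.uv i s, ∅) (Sum.inl (i, s)) (KK ι σ)) (by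
        intro σ
        by_contra h
        rw [not_or, not_not] at h
        exact h.1 h.2.1)
    norm_num at h1
    linarith

/-- a property of sound sites of a slice of a good cell spreads -/
theorem spread (X : Set Bs) (i : Fin 4) (h0 : ℤ) (k : ℕ) (hk : 1 ≤ k) (y : Bs)
    (hbad : y ∉ Pool.LPG.Bad X k) (P : Bs → Prop)
    (hstep : ∀ u j t, j ≠ i → anc k u = y → anc k (u + uv j t) = y → u i = h0 → u ∉ X → u + uv j t ∉ X →
      P u → P (u + uv j t)) (u u' : Bs) (hu : anc k u = y) (hu' : anc k u' = y) (hi : u i = h0) (hi' : u' i = h0)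
    (hs : Snd X k Set.univ 0 u) (hs' : Snd X k Set.univ 0 u') (hP : P u) : P u' := by
  have hconv : ∀ v : Bs, anc k v = y → Snd X k Set.univ 0 v → Pool.LPG.S X k {y} 0 v := by
    intro v hv hsv
    rw [Pool.LPG.S_comp X {y} (le_refl k) k 0 (by omega) v]
    refine ⟨hsv, ?_⟩
    rw [Pool.LPG.S_top]
    exact hv
  refine Pool.LPG.conn_slice X k {y} (by
      intro y' hy'
      rw [Set.mem_singleton_iff] at hy'
      rw [hy']
      exact hbad) i h0 k le_rfl y ((Pool.LPG.S_top X k {y} y).2 rfl) P ?_ u u' hu hu' hi hi'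
    (hconv u hu hs) (hconv u' hu' hs') hP
  rintro x x' hx hx' hxi hxi' hxs hxs' ⟨j, t, hji, rfl⟩ hPx
  exact hstep x j t hji hx hx' hxi (Pool.LPG.S_not_bad' (by omega) hxs)
    (Pool.LPG.S_not_bad' (by omega) hxs') hPx

/-- flatness of the whole outer slice of the window cell -/
def AllFlat (q : Pos) (Flat : Fin 4 → Bool → Bs → Prop) : Prop :=
  ∀ u, anc (q.m + 2) u = q.Y → u q.i = q.ht → Flat q.i q.s u

theorem geo_closedOn_mono {D : Type} {G : SimpleGraph (V D)} {R R' A : Set (V D)} (hA : ClosedOn G R A)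
    (h : R' ⊆ R) : ClosedOn G R' A := fun u hu v hv => hA u (h hu) v (h hv)

theorem geo_ov_pair {D : Type} {a b : Bs} {R : Set (V D)} (ha : Ov {a} ⊆ R) (hb : Ov {b} ⊆ R) :
    (Ov {a, b} : Set (V D)) ⊆ R := by
  intro v hv
  have h1 : v.1 ∈ ({a, b} : Set Bs) := hv
  rcases h1 with h1 | h1
  · exact ha h1
  · exact hb h1

/-- spreading of the giants inside a cell `y` of level `k ≤ m + 2` of the window, outer layer; `A` closed in a region
containing the fibres over the slice -/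
theorem spread_out {q : Pos} (h : PosOK q) {μ : Measure Ω} {W : Ω → SimpleGraph (V E)} {ι : Fin n → E}
    {Flat : Fin 4 → Bool → Bs → Prop} {XS : Bs → Set (SimpleGraph (V E))} (hL : LocIn μ W ι Flat XS)
    (hflat : AllFlat q Flat) {ω : Ω} {A R : Set (V E)} (hA : ClosedOn (W ω) R A) {k : ℕ} (hk : 1 ≤ k)
    {y : Bs} (hbad : y ∉ Pool.LPG.Bad {z | W ω ∈ XS z} k)
    (hy : ∀ u, anc k u = y → u q.i = q.ht → anc (q.m + 2) u = q.Y ∧ Ov {u} ⊆ R) (u u' : Bs) (hu : anc k u = y)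
    (hu' : anc k u' = y) (hi : u q.i = q.ht) (hi' : u' q.i = q.ht)
    (hs : Snd {z | W ω ∈ XS z} k Set.univ 0 u) (hs' : Snd {z | W ω ∈ XS z} k Set.univ 0 u')
    (hP : ∀ x, IsG (W ω) ι u x → x ∉ A) : ∀ x, IsG (W ω) ι u' x → x ∉ A := by
  refine spread {z | W ω ∈ XS z} q.i q.ht k hk y hbad (fun u => ∀ x, IsG (W ω) ι u x → x ∉ A) ?_
    u u' hu hu' hi hi' hs hs' hP
  intro v j t hj hv hv' hvi hvX hvX' hPv x' hx'
  have hvi' : (v + uv j t) q.i = q.ht := by
    show v q.i + Pool.LPG.uv j t q.i = q.ht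
    rw [Pool.LPG.uv_ne t hj.symm, add_zero, hvi]
  obtain ⟨h1, h2⟩ := hy v hv hvi
  obtain ⟨h3, h4⟩ := hy (v + uv j t) hv' hvi'
  have hf := hflat v h1 hvi
  have hf' := hflat (v + uv j t) h3 hvi'
  obtain ⟨x, hx⟩ := hL.gO q.i q.s v ω hf hvX
  have hc := hL.lO q.i q.s v j t ω x x' hj hf hf' hvX hvX' hx hx'
  have hxA := hPv x hx
  exact fun hx'A => hxA ((geo_cn_mem (geo_closedOn_mono hA (geo_ov_pair h2 h4)) hc).2 hx'A)

/-- the same for the inner layer -/
theorem spread_in {q : Pos} (h : PosOK q) {μ : Measure Ω} {W : Ω → SimpleGraph (V E)} {ι : Fin n → E}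
    {Flat : Fin 4 → Bool → Bs → Prop} {XS : Bs → Set (SimpleGraph (V E))} (hL : LocIn μ W ι Flat XS)
    (hflat : AllFlat q Flat) {ω : Ω} {A R : Set (V E)} (hA : ClosedOn (W ω) R A) {k : ℕ} (hk : 1 ≤ k)
    {y : Bs} (hbad : y ∉ Pool.LPG.Bad {z | W ω ∈ XS z} k)
    (hy : ∀ z, anc k z = y → z q.i = q.ht - sg q.s → anc (q.m + 2) (z + uv q.i q.s) = q.Y ∧ Ov {z} ⊆ R)
    (u u' : Bs) (hu : anc k u = y) (hu' : anc k u' = y) (hi : u q.i = q.ht - sg q.s) (hi' : u' q.i = q.ht - sg q.s)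
    (hs : Snd {z | W ω ∈ XS z} k Set.univ 0 u) (hs' : Snd {z | W ω ∈ XS z} k Set.univ 0 u')
    (hP : ∀ x, IsG (W ω) ι u x → x ∈ A) : ∀ x, IsG (W ω) ι u' x → x ∈ A := by
  refine spread {z | W ω ∈ XS z} q.i (q.ht - sg q.s) k hk y hbad (fun u => ∀ x, IsG (W ω) ι u x → x ∈ A) ?_
    u u' hu hu' hi hi' hs hs' hP
  intro v j t hj hv hv' hvi hvX hvX' hPv x' hx'
  have hvi' : (v + uv j t) q.i = q.ht - sg q.s := by
    show v q.i + Pool.LPG.uv j t q.i = q.ht - sg q.s
    rw [Pool.LPG.uv_ne t hj.symm, add_zero, hvi]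
  obtain ⟨h1, h2⟩ := hy v hv hvi
  obtain ⟨h3, h4⟩ := hy (v + uv j t) hv' hvi'
  have hout : ∀ z : Bs, z q.i = q.ht - sg q.s → (z + uv q.i q.s) q.i = q.ht := by
    intro z hz
    show z q.i + Pool.LPG.uv q.i q.s q.i = q.ht
    rw [Pool.LPG.uv_same, hz]
    show q.ht - Pool.LPG.sg q.s + Pool.LPG.sg q.s = q.ht
    ring
  have hf := hflat (v + uv q.i q.s) h1 (hout v hvi)
  have hf' := hflat (v + uv j t + uv q.i q.s) h3 (hout _ hvi')
  have he1 : v + uv q.i q.s - uv q.i q.s = v := add_sub_cancel_right _ _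
  have he2 : v + uv j t + uv q.i q.s = v + uv q.i q.s + uv j t := add_right_comm _ _ _
  rw [he2] at hf'
  have hg := hL.gI q.i q.s (v + uv q.i q.s) ω hf
  rw [he1] at hg
  obtain ⟨x, hx⟩ := hg hvX
  have hc := hL.lI q.i q.s (v + uv q.i q.s) j t ω x x' hj hf hf'
  rw [he1] at hc
  have hc' := hc hvX hvX' hx hx'
  have hxA := hPv x hx
  exact (geo_cn_mem (geo_closedOn_mono hA (geo_ov_pair h2 h4)) hc').1 hxA

end Pool.Agent.LPL
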