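import Pool.Agent.LPL.MgA
import Pool.Agent.LP.Bad

/-!
# LPL: probability of `HS` for a good index set `K` (one sheet), and average over `K`

`hs_prob`: union bound with `hs_of`: 4 unsound vertices (`prob_unsound`, `F = FV W` (`locV`), `X z = {W ω ∈ XS z}`,
measurable by `concM_meas`; at most `10^(-11)` each), 2 bad cells (`prob_bad`, at most `10^(-17)`), 2 irregular giants
(`10^(-6)` each), 8 links (`10^(-7)` each): at most `10^(-5)`.
`rgl_avg`: for fixed `ω` with `z` not bad the giant `x` exists, all giants have the same cluster (`isG_cl`), and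
`avg_σ ind (¬ aa (Cl x) O (KK ι σ)) ≤ 10^(-9)`; integrate over `ω` (finite average of measures of measurable sets, the
events depend on the finite region over `Ball z 3`).
-/

set_option autoImplicit false

open MeasureTheory
open scoped Classical

namespace Pool.Agent.LPL

open Pool.Agent.OIP Pool.Agent.LP Pool.Agent.LPW

variable {Ω E : Type} [MeasurableSpace Ω] [Fintype E] [DecidableEq E] {n : ℕ}

private theorem hsb_real {μ : Measure Ω} {S : Set Ω} {c : ℝ} (hc : 0 ≤ c) (h : μ S ≤ ENNReal.ofReal c) :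
    μ.real S ≤ c := ENNReal.toReal_le_of_le_ofReal hc h

private theorem hsb_union {ι' : Type} (μ : Measure Ω) [IsProbabilityMeasure μ] (S : Finset ι') (A : ι' → Set Ω)
    (c : ℝ) (h : ∀ r ∈ S, μ.real (A r) ≤ c) : μ.real (⋃ r ∈ S, A r) ≤ S.card * c := by
  refine (measureReal_biUnion_finset_le S A).trans ?_
  refine (Finset.sum_le_sum h).trans ?_
  rw [Finset.sum_const, nsmul_eq_mul]

theorem hs_prob {q : Pos} (h : PosOK q) {p : ℝ} {μ : Measure Ω} {W : Ω → SimpleGraph (V E)} (hM : MModel p μ W)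
    {ι : Fin n → E} {Flat : Fin 4 → Bool → Bs → Prop} {XS : Bs → Set (SimpleGraph (V E))} (hL : LocIn μ W ι Flat XS)
    (hflat : AllFlat q Flat) {K : Finset E}
    (hr : μ.real {ω | W ω ∉ XS q.v ∧ ¬ Rgl (W ω) ι q.v (q.v, ∅) K} ≤ 1 / 10 ^ 6)
    (hr' : μ.real {ω | W ω ∉ XS (q.v - uv q.i q.s) ∧
      ¬ Rgl (W ω) ι (q.v - uv q.i q.s) (In q.i q.s (q.v, ∅)) K} ≤ 1 / 10 ^ 6)
    (hl : ∀ r : ℕ, r < 8 → LnkOK μ W q.i q.s (q.v + (r : ℤ) • uv q.f true) (uv q.f true) K) :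
    μ.real {ω | W ω ∉ HS q ι XS K} ≤ 1 / 10 ^ 5 := by
  have hprob := hM.prob
  have hloc := locV μ W hM.meas hM.indep
  let X : Bs → Set Ω := fun z => {ω | W ω ∈ XS z}
  have hX : ∀ z, MeasurableSet[FV W (Pool.LPG.Ball z 3)] (X z) := fun z =>
    concM_meas W (overB_finite z 3) (hL.xsDep z)
  have hδ : ∀ z, μ (X z) ≤ ENNReal.ofReal (1 / 10 ^ 20) := fun z =>
    (hL.xsP z).trans (ENNReal.ofReal_le_ofReal (by norm_num))
  have hbad : ∀ (k : ℕ) (y : Bs), μ.real {ω | y ∈ Pool.LPG.Bad {z | W ω ∈ XS z} k} ≤ 1 / 10 ^ 17 := by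
    intro k y
    have h1 := Pool.LPG.prob_bad μ (FV W) hloc X hX hδ k y
    refine (hsb_real (by positivity) h1).trans ?_
    have h2 : ((1 / 1000 : ℝ)) ^ (2 ^ k) ≤ 1 := pow_le_one₀ (by norm_num) (by norm_num)
    calc (1 / 10 ^ 17 * (1 / 1000) ^ (2 ^ k) : ℝ) ≤ 1 / 10 ^ 17 * 1 :=
          mul_le_mul_of_nonneg_left h2 (by norm_num)
      _ = 1 / 10 ^ 17 := mul_one _
  have huns : ∀ (K' : ℕ) (u : Bs), μ.real {ω | ¬ Snd {z | W ω ∈ XS z} K' Set.univ 0 u} ≤ 1 / 10 ^ 11 := by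
    intro K' u
    exact hsb_real (by positivity) (Pool.LPG.prob_unsound μ (FV W) hloc X hX hδ K' u)
  have hlk := hsb_union μ (Finset.range 8) (fun r : ℕ => {ω | ¬ (Same (W ω)
      (Wn (q.v + (r : ℤ) • uv q.f true) K) (q.v + (r : ℤ) • uv q.f true, ∅) K
        (q.v + (r : ℤ) • uv q.f true + uv q.f true, ∅) K ∧
      Same (W ω) (Wn (q.v + (r : ℤ) • uv q.f true) K) (In q.i q.s (q.v + (r : ℤ) • uv q.f true, ∅)) K
        (In q.i q.s (q.v + (r : ℤ) • uv q.f true + uv q.f true, ∅)) K)}) (1 / 10 ^ 7)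
    (fun r hr => hl r (Finset.mem_range.1 hr))
  rw [Finset.card_range] at hlk
  set B1 : Set Ω := {ω | q.Y1 ∈ Pool.LPG.Bad {z | W ω ∈ XS z} (q.m + 1)} with hB1
  set B2 : Set Ω := {ω | q.low (q.m + 1) q.Y1 ∈ Pool.LPG.Bad {z | W ω ∈ XS z} (q.m + 1)} with hB2
  set U1 : Set Ω := {ω | ¬ Snd {z | W ω ∈ XS z} (q.m + 1) Set.univ 0 q.u2} with hU1
  set U2 : Set Ω := {ω | ¬ Snd {z | W ω ∈ XS z} (q.m + 1) Set.univ 0 (q.u2 - uv q.i q.s)} with hU2
  set U3 : Set Ω := {ω | ¬ Snd {z | W ω ∈ XS z} (q.m + 1) Set.univ 0 q.v} with hU3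
  set U4 : Set Ω := {ω | ¬ Snd {z | W ω ∈ XS z} (q.m + 1) Set.univ 0 (q.v - uv q.i q.s)} with hU4
  set R1 : Set Ω := {ω | W ω ∉ XS q.v ∧ ¬ Rgl (W ω) ι q.v (q.v, ∅) K} with hR1
  set R2 : Set Ω := {ω | W ω ∉ XS (q.v - uv q.i q.s) ∧
      ¬ Rgl (W ω) ι (q.v - uv q.i q.s) (In q.i q.s (q.v, ∅)) K} with hR2
  set LL : Set Ω := ⋃ r ∈ Finset.range 8, {ω | ¬ (Same (W ω)
      (Wn (q.v + (r : ℤ) • uv q.f true) K) (q.v + (r : ℤ) • uv q.f true, ∅) K
        (q.v + (r : ℤ) • uv q.f true + uv q.f true, ∅) K ∧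
      Same (W ω) (Wn (q.v + (r : ℤ) • uv q.f true) K) (In q.i q.s (q.v + (r : ℤ) • uv q.f true, ∅)) K
        (In q.i q.s (q.v + (r : ℤ) • uv q.f true + uv q.f true, ∅)) K)} with hLL
  have hsub : {ω | W ω ∉ HS q ι XS K} ⊆ B1 ∪ (B2 ∪ (U1 ∪ (U2 ∪ (U3 ∪ (U4 ∪ (R1 ∪ (R2 ∪ LL))))))) := by
    intro ω hω
    by_contra hcon
    simp only [Set.mem_union, not_or] at hcon
    obtain ⟨c1, c2, c3, c4, c5, c6, c7, c8, c9⟩ := hcon
    have d3 := not_not.1 c3
    have d4 := not_not.1 c4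
    have d5 := not_not.1 c5
    have d6 := not_not.1 c6
    have n5 : W ω ∉ XS q.v := fun h1 => Pool.LPG.S_not_bad' (Nat.succ_pos _) d5 h1
    have n6 : W ω ∉ XS (q.v - uv q.i q.s) := fun h1 => Pool.LPG.S_not_bad' (Nat.succ_pos _) d6 h1
    refine hω (hs_of h hL hflat c1 c2 d3 d4 d5 d6 ?_ ?_ ?_)
    · by_contra h1
      exact c7 ⟨n5, h1⟩
    · by_contra h1
      exact c8 ⟨n6, h1⟩
    · intro r hr
      by_contra h1
      exact c9 (Set.mem_biUnion (Finset.mem_range.2 hr) h1)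
  refine (measureReal_mono hsub (measure_ne_top μ _)).trans ?_
  have t1 := measureReal_union_le (μ := μ) B1 (B2 ∪ (U1 ∪ (U2 ∪ (U3 ∪ (U4 ∪ (R1 ∪ (R2 ∪ LL)))))))
  have t2 := measureReal_union_le (μ := μ) B2 (U1 ∪ (U2 ∪ (U3 ∪ (U4 ∪ (R1 ∪ (R2 ∪ LL))))))
  have t3 := measureReal_union_le (μ := μ) U1 (U2 ∪ (U3 ∪ (U4 ∪ (R1 ∪ (R2 ∪ LL)))))
  have t4 := measureReal_union_le (μ := μ) U2 (U3 ∪ (U4 ∪ (R1 ∪ (R2 ∪ LL))))
  have t5 := measureReal_union_le (μ := μ) U3 (U4 ∪ (R1 ∪ (R2 ∪ LL)))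
  have t6 := measureReal_union_le (μ := μ) U4 (R1 ∪ (R2 ∪ LL))
  have t7 := measureReal_union_le (μ := μ) R1 (R2 ∪ LL)
  have t8 := measureReal_union_le (μ := μ) R2 LL
  have s1 := hbad (q.m + 1) q.Y1
  have s2 := hbad (q.m + 1) (q.low (q.m + 1) q.Y1)
  have s3 := huns (q.m + 1) q.u2
  have s4 := huns (q.m + 1) (q.u2 - uv q.i q.s)
  have s5 := huns (q.m + 1) q.v
  have s6 := huns (q.m + 1) (q.v - uv q.i q.s)
  have s7 : ((8 : ℕ) : ℝ) * (1 / 10 ^ 7) = 8 / 10 ^ 7 := by norm_num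
  rw [s7] at hlk
  have : (1 / 10 ^ 17 + 1 / 10 ^ 17 + 4 * (1 / 10 ^ 11) + 2 * (1 / 10 ^ 6) + 8 / 10 ^ 7 : ℝ) ≤ 1 / 10 ^ 5 := by
    norm_num
  linarith

/-- average of the measures of finitely many measurable sets -/
theorem avg_measure_le {X : Type} [Fintype X] [Nonempty X] (μ : Measure Ω) [IsProbabilityMeasure μ] (S : X → Set Ω)
    (hS : ∀ x, MeasurableSet (S x)) (m : ℝ) (h : ∀ ω, avg (fun x => ind (ω ∈ S x)) ≤ m) :
    avg (fun x => μ.real (S x)) ≤ m := by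
  have hc : (0 : ℝ) < Fintype.card X := by exact_mod_cast Fintype.card_pos
  unfold avg
  rw [div_le_iff₀ hc]
  have h1 : ∀ x, μ.real (S x) = ∫ ω, (S x).indicator (fun _ => (1 : ℝ)) ω ∂μ := by
    intro x
    rw [integral_indicator (hS x)]
    simp
  have h2 : ∑ x, μ.real (S x) = ∫ ω, ∑ x, (S x).indicator (fun _ => (1 : ℝ)) ω ∂μ := by
    rw [integral_finsetSum _ (fun x _ => (integrable_const (1 : ℝ)).indicator (hS x))]
    exact Finset.sum_congr rfl fun x _ => h1 x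
  rw [h2]
  have h3 : ∀ ω, ∑ x, (S x).indicator (fun _ => (1 : ℝ)) ω ≤ m * Fintype.card X := by
    intro ω
    have h4 := h ω
    unfold avg at h4
    rw [div_le_iff₀ hc] at h4
    refine le_trans (le_of_eq (Finset.sum_congr rfl fun x _ => ?_)) h4
    show (S x).indicator (fun _ => (1 : ℝ)) ω = ind (ω ∈ S x)
    unfold ind
    by_cases h5 : ω ∈ S x
    · rw [Set.indicator_of_mem h5, if_pos h5]
    · rw [Set.indicator_of_notMem h5, if_neg h5]
  calc ∫ ω, ∑ x, (S x).indicator (fun _ => (1 : ℝ)) ω ∂μ ≤ ∫ _ω, m * Fintype.card X ∂μ := by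
        refine integral_mono ?_ (integrable_const _) h3
        exact integrable_finsetSum _ (fun x _ => (integrable_const (1 : ℝ)).indicator (hS x))
    _ = m * Fintype.card X := by simp

private theorem hsb_cn {V : Type} {G H : SimpleGraph V} {R : Set V}
    (hGH : ∀ a ∈ R, ∀ b ∈ R, (G.Adj a b ↔ H.Adj a b)) (a b : V) : Cn G R a b ↔ Cn H R a b := by
  have key : ∀ {G H : SimpleGraph V}, (∀ a ∈ R, ∀ b ∈ R, (G.Adj a b ↔ H.Adj a b)) → Cn G R a b → Cn H R a b := by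
    intro G H hGH h
    unfold Cn at h ⊢
    induction h with
    | refl => exact Relation.ReflTransGen.refl
    | tail _ h1 ih => exact ih.tail ⟨(hGH _ h1.2.1 _ h1.2.2).1 h1.1, h1.2.1, h1.2.2⟩
  exact ⟨key hGH, key fun a ha b hb => (hGH a ha b hb).symm⟩

private theorem hsb_rgl {G H : SimpleGraph (V E)} {ι : Fin n → E} {z : Bs} {O : V E} {K : Finset E}
    (hGH : ∀ a ∈ Ov (D := E) {z}, ∀ b ∈ Ov (D := E) {z}, (G.Adj a b ↔ H.Adj a b)) :
    Rgl G ι z O K ↔ Rgl H ι z O K := by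
  have h1 : ∀ x : V E, Cl G {z} x = Cl H {z} x := by
    intro x
    ext v
    exact hsb_cn hGH x v
  have h2 : ∀ x, IsG G ι z x ↔ IsG H ι z x := by
    intro x
    unfold IsG
    rw [h1 x]
  unfold Rgl
  constructor
  · intro h x hx
    rw [← h1 x]
    exact h x ((h2 x).2 hx)
  · intro h x hx
    rw [h1 x]
    exact h x ((h2 x).1 hx)

theorem rgl_avg {p : ℝ} {μ : Measure Ω} {W : Ω → SimpleGraph (V E)} (hM : MModel p μ W) {ι : Fin n → E}
    {XS : Bs → Set (SimpleGraph (V E))} (hdep : ∀ z, DepOn (Ov (Ball z 3)) (XS z)) (z : Bs) (O : V E) (hO : O.1 = z) :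
    avg (fun σ : Equiv.Perm E => μ.real {ω | W ω ∉ XS z ∧ ¬ Rgl (W ω) ι z O (KK ι σ)}) ≤ 1 / 10 ^ 9 := by
  have hprob := hM.prob
  refine avg_measure_le μ (fun σ : Equiv.Perm E => {ω | W ω ∉ XS z ∧ ¬ Rgl (W ω) ι z O (KK ι σ)}) ?_ _ ?_
  · intro σ
    have hD : DepOn (Ov (D := E) (Ball z 3)) {G | G ∉ XS z ∧ ¬ Rgl G ι z O (KK ι σ)} := by
      intro G H hGH
      have hsub : Ov (D := E) {z} ⊆ Ov (Ball z 3) := by
        intro v hv
        have : v.1 = z := hv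
        intro i
        rw [this]
        constructor <;> linarith
      have h1 := hdep z G H hGH
      have h2 : Rgl G ι z O (KK ι σ) ↔ Rgl H ι z O (KK ι σ) :=
        hsb_rgl fun a ha b hb => hGH a (hsub ha) b (hsub hb)
      exact and_congr (not_congr h1) (not_congr h2)
    have h3 : MeasurableSet[sigV W (Ov (D := E) (Ball z 3))]
        {ω | W ω ∈ {G | G ∉ XS z ∧ ¬ Rgl G ι z O (KK ι σ)}} := concM_meas W (overB_finite z 3) hD
    exact infMarg_le W hM.meas _ _ h3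
  · intro ω
    by_cases hx : ∃ x, IsG (W ω) ι z x
    · obtain ⟨x, hx⟩ := hx
      refine le_trans (avg_mono fun σ => ind_mono ?_) (hx.2 O hO)
      rintro ⟨-, h1⟩ h2
      refine h1 fun x' hx' => ?_
      rw [isG_cl hx' hx]
      exact h2
    · refine avg_le_of_le (by norm_num) fun σ => ?_
      have h1 : ¬ (ω ∈ {ω | W ω ∉ XS z ∧ ¬ Rgl (W ω) ι z O (KK ι σ)}) := by
        rintro ⟨-, h2⟩
        exact h2 fun x hx' => absurd ⟨x, hx'⟩ hx
      unfold ind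
      rw [if_neg h1]
      norm_num

end Pool.Agent.LPL
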