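import Pool.Agent.LPL.Emb

/-!
# LPL: transfer of averages from the full model to a sheet

Both averages do not depend on the injections (`lrules_perm`, reindexing), so take `ι = j ∘ ι'`.  For `τ : Perm E` let
`τ'` = its extension to `D` (`τ` on the range of `j`, identity on the range of `a`).
`avg_σ g (KK ι σ) = avg_σ avg_τ g (image of KK ι σ under τ')`; for fixed `σ` with `KK ι σ` inside the range of `j` the
inner average is `avg_τ g ((KK ι' τ).image j)` (`KK ι σ` is the image of a set of `n` elements of `E`); the fraction of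
the `σ` with `KK ι σ` not inside the range of `j` is at most `3 n / card D ≤ 1/4` (for each `k : Fin n`, `y : Fin 3` the
fraction with `σ (ι k) = a y` is `1 / card D`).
`wall_sheet`: `g K = ind (¬ WallAt ..)`, `aa_emb`, and `Pty μ W (emb c O) (K.image j) ↔ Pty μ (sht c W) O K` (`degV`).
-/

set_option autoImplicit false

open MeasureTheory
open scoped Classical

namespace Pool.Agent.LPL

open Pool.Agent.OIP Pool.Agent.LP Pool.Agent.LPW

variable {Ω D E : Type} [MeasurableSpace Ω] [Fintype D] [DecidableEq D] [Fintype E] [DecidableEq E] {n : ℕ}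

/-- averages over the symmetric group of a function of the image of a fixed set -/
theorem tr_avg {X : Type} [Fintype X] [DecidableEq X] (F : Finset X → ℝ) (S₀ : Finset X) :
    avg (fun σ : Equiv.Perm X => F (S₀.image σ)) * ((Fintype.card X).choose S₀.card : ℝ) =
      ∑ S ∈ Finset.powersetCard S₀.card (Finset.univ : Finset X), F S := by
  have h1 : ∀ S ∈ Finset.powersetCard S₀.card (Finset.univ : Finset X),
      avg (fun σ : Equiv.Perm X => F (S.image σ)) = avg (fun σ : Equiv.Perm X => F (S₀.image σ)) := by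
    intro S hS
    have hc : S.card = S₀.card := (Finset.mem_powersetCard.1 hS).2
    obtain ⟨τ, hτ⟩ := lrules_perm hc
    rw [← avg_perm_mul_right τ (fun σ : Equiv.Perm X => F (S₀.image σ))]
    congr 1
    funext σ
    rw [hτ, Finset.image_image]
    rfl
  have h2 : ∀ σ : Equiv.Perm X,
      ∑ S ∈ Finset.powersetCard S₀.card (Finset.univ : Finset X), F (S.image σ) =
      ∑ S ∈ Finset.powersetCard S₀.card (Finset.univ : Finset X), F S := by
    intro σ
    refine Finset.sum_nbij' (fun S => S.image σ) (fun S => S.image (σ⁻¹ : Equiv.Perm X)) ?_ ?_ ?_ ?_ ?_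
    · intro S hS
      rw [Finset.mem_powersetCard] at hS ⊢
      exact ⟨Finset.subset_univ _, by
        rw [Finset.card_image_of_injective _ (Equiv.injective σ)]
        exact hS.2⟩
    · intro S hS
      rw [Finset.mem_powersetCard] at hS ⊢
      exact ⟨Finset.subset_univ _, by
        rw [Finset.card_image_of_injective _ (Equiv.injective _)]
        exact hS.2⟩
    · intro S _
      show (S.image σ).image (σ⁻¹ : Equiv.Perm X) = S
      rw [Finset.image_image]
      have h3 : ((σ⁻¹ : Equiv.Perm X) : X → X) ∘ σ = id := by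
        funext x
        exact σ.symm_apply_apply x
      rw [h3, Finset.image_id]
    · intro S _
      show (S.image (σ⁻¹ : Equiv.Perm X)).image σ = S
      rw [Finset.image_image]
      have h3 : (σ : X → X) ∘ ((σ⁻¹ : Equiv.Perm X) : X → X) = id := by
        funext x
        exact σ.apply_symm_apply x
      rw [h3, Finset.image_id]
    · intro S _
      rfl
  have h3 : ∑ S ∈ Finset.powersetCard S₀.card (Finset.univ : Finset X),
      avg (fun σ : Equiv.Perm X => F (S.image σ)) =
      avg (fun σ : Equiv.Perm X => F (S₀.image σ)) * ((Fintype.card X).choose S₀.card : ℝ) := by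
    rw [Finset.sum_congr rfl h1, Finset.sum_const, Finset.card_powersetCard, Finset.card_univ,
      nsmul_eq_mul, mul_comm]
  rw [← h3, ← avg_sum (Finset.powersetCard S₀.card (Finset.univ : Finset X))
    (fun S => fun σ : Equiv.Perm X => F (S.image σ))]
  have h4 : (fun σ : Equiv.Perm X =>
      ∑ S ∈ Finset.powersetCard S₀.card (Finset.univ : Finset X), F (S.image σ)) =
      fun _ => ∑ S ∈ Finset.powersetCard S₀.card (Finset.univ : Finset X), F S := by
    funext σ
    exact h2 σ
  rw [h4, avg_const]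

theorem tr_choose1 {N n : ℕ} (h : 12 * n ≤ N) : 11 * (N + 1).choose n ≤ 12 * N.choose n := by
  have h1 := Nat.choose_mul_succ_eq N n
  have h2 : 11 * (N + 1) ≤ 12 * (N + 1 - n) := by omega
  have h3 : (11 * (N + 1).choose n) * (N + 1) ≤ (12 * N.choose n) * (N + 1) := by
    calc (11 * (N + 1).choose n) * (N + 1) = (N + 1).choose n * (11 * (N + 1)) := by ring
      _ ≤ (N + 1).choose n * (12 * (N + 1 - n)) := Nat.mul_le_mul_left _ h2
      _ = 12 * ((N + 1).choose n * (N + 1 - n)) := by ring
      _ = 12 * (N.choose n * (N + 1)) := by rw [h1]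
      _ = (12 * N.choose n) * (N + 1) := by ring
  exact Nat.le_of_mul_le_mul_right h3 (Nat.succ_pos N)

theorem tr_choose {N n : ℕ} (h : 12 * n ≤ N) : (N + 3).choose n ≤ 2 * N.choose n := by
  have h1 := tr_choose1 h
  have h2 := tr_choose1 (show 12 * n ≤ N + 1 by omega)
  have h3 := tr_choose1 (show 12 * n ≤ N + 2 by omega)
  have e2 : N + 1 + 1 = N + 2 := rfl
  have e3 : N + 2 + 1 = N + 3 := rfl
  rw [e2] at h2
  rw [e3] at h3
  omega

theorem tr_KK {X : Type} [Fintype X] [DecidableEq X] (ι : Fin n → X) (σ : Equiv.Perm X) :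
    KK ι σ = (vsL ι).image σ := by
  unfold KK vsL
  rw [Finset.image_image]
  rfl

theorem transfer {j : E → D} {a : Fin 3 → D} (h : Split j a) (hn : 12 * n ≤ Fintype.card E) {ι : Fin n → D}
    (hι : Function.Injective ι) {ι' : Fin n → E} (hι' : Function.Injective ι') (g : Finset D → ℝ) (hg : ∀ K, 0 ≤ g K) :
    avg (fun σ : Equiv.Perm E => g ((KK ι' σ).image j)) ≤ 2 * avg (fun σ : Equiv.Perm D => g (KK ι σ)) := by
  have hc : (vsL ι).card = n := card_vsL hι
  have hc' : (vsL ι').card = n := card_vsL hι'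
  have h1 := tr_avg (fun K : Finset E => g (K.image j)) (vsL ι')
  have h2 := tr_avg g (vsL ι)
  rw [hc] at h2
  rw [hc'] at h1
  have e1 : (fun σ : Equiv.Perm E => g ((KK ι' σ).image j)) =
      fun σ : Equiv.Perm E => g (((vsL ι').image σ).image j) := by
    funext σ
    rw [tr_KK]
  have e2 : (fun σ : Equiv.Perm D => g (KK ι σ)) = fun σ : Equiv.Perm D => g ((vsL ι).image σ) := by
    funext σ
    rw [tr_KK]
  rw [e1, e2]
  have h3 : ∑ S ∈ Finset.powersetCard n (Finset.univ : Finset E), g (S.image j) ≤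
      ∑ S ∈ Finset.powersetCard n (Finset.univ : Finset D), g S := by
    rw [← Finset.sum_image (f := g) (s := Finset.powersetCard n (Finset.univ : Finset E))
      (g := fun S : Finset E => S.image j)
      (fun S _ T _ hST => Finset.image_injective h.j_inj hST)]
    apply Finset.sum_le_sum_of_subset_of_nonneg
    · intro S hS
      obtain ⟨T, hT, rfl⟩ := Finset.mem_image.1 hS
      rw [Finset.mem_powersetCard] at hT ⊢
      refine ⟨Finset.subset_univ _, ?_⟩
      rw [Finset.card_image_of_injective _ h.j_inj]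
      exact hT.2
    · intro S _ _
      exact hg S
  have hcE : (0 : ℝ) < ((Fintype.card E).choose n : ℝ) := by
    have : 0 < (Fintype.card E).choose n := Nat.choose_pos (by omega)
    exact_mod_cast this
  have h4 : ((Fintype.card D).choose n : ℝ) ≤ 2 * ((Fintype.card E).choose n : ℝ) := by
    rw [h.card]
    exact_mod_cast tr_choose hn
  have h5 : 0 ≤ avg (fun σ : Equiv.Perm D => g ((vsL ι).image σ)) := avg_nonneg fun σ => hg _
  have h6 : avg (fun σ : Equiv.Perm E => g (((vsL ι').image σ).image j)) *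
      ((Fintype.card E).choose n : ℝ) ≤
      (2 * avg (fun σ : Equiv.Perm D => g ((vsL ι).image σ))) * ((Fintype.card E).choose n : ℝ) := by
    calc avg (fun σ : Equiv.Perm E => g (((vsL ι').image σ).image j)) *
        ((Fintype.card E).choose n : ℝ)
        = ∑ S ∈ Finset.powersetCard n (Finset.univ : Finset E), g (S.image j) := h1
      _ ≤ ∑ S ∈ Finset.powersetCard n (Finset.univ : Finset D), g S := h3
      _ = avg (fun σ : Equiv.Perm D => g ((vsL ι).image σ)) * ((Fintype.card D).choose n : ℝ) :=
        h2.symm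
      _ ≤ avg (fun σ : Equiv.Perm D => g ((vsL ι).image σ)) *
          (2 * ((Fintype.card E).choose n : ℝ)) := mul_le_mul_of_nonneg_left h4 h5
      _ = (2 * avg (fun σ : Equiv.Perm D => g ((vsL ι).image σ))) *
          ((Fintype.card E).choose n : ℝ) := by ring
  exact le_of_mul_le_mul_right h6 hcE

theorem tr_degV {j : E → D} {a : Fin 3 → D} (h : Split j a) (c : Cb) (G : SimpleGraph (V D))
    (O : V E) (K : Finset E) :
    degV G (emb j a c O) (K.image j) = degV (sht j a c G) O K := by
  unfold degV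
  have h1 : (K.image j).filter (fun k => G.Adj (flip (K.image j) (emb j a c O))
      (flip ((K.image j).erase k) (emb j a c O))) =
      (K.filter (fun k => (sht j a c G).Adj (flip K O) (flip (K.erase k) O))).image j := by
    ext d
    simp only [Finset.mem_filter, Finset.mem_image]
    constructor
    · rintro ⟨⟨k, hk, rfl⟩, hadj⟩
      refine ⟨k, ⟨hk, ?_⟩, rfl⟩
      rw [← Finset.image_erase h.j_inj, flip_emb h, flip_emb h] at hadj
      exact hadj
    · rintro ⟨k, ⟨hk, hadj⟩, rfl⟩
      refine ⟨⟨k, hk, rfl⟩, ?_⟩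
      rw [← Finset.image_erase h.j_inj, flip_emb h, flip_emb h]
      exact hadj
  rw [h1, Finset.card_image_of_injective _ h.j_inj]

theorem pty_sheet {j : E → D} {a : Fin 3 → D} (h : Split j a) (c : Cb) (μ : Measure Ω) (W : Ω → SimpleGraph (V D))
    (O : V E) (K : Finset E) :
    Pty μ W (emb j a c O) (K.image j) ↔ Pty μ (fun ω => sht j a c (W ω)) O K := by
  unfold Pty
  have h1 : {ω | 50 * degV (W ω) (emb j a c O) (K.image j) ≤ (K.image j).card} =
      {ω | 50 * degV (sht j a c (W ω)) O K ≤ K.card} := by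
    ext ω
    simp only [Set.mem_setOf_eq]
    rw [tr_degV h, Finset.card_image_of_injective _ h.j_inj]
  rw [h1]

theorem tr_wallAt {j : E → D} {a : Fin 3 → D} (h : Split j a) (c : Cb) (μ : Measure Ω)
    (W : Ω → SimpleGraph (V D)) (A : Set (V D)) (O : V E) (x : Fin 4 × Bool) (K : Finset E) :
    WallAt μ W A (emb j a c O) (Sum.inl x) (K.image j) ↔
      WallAt μ (fun ω => sht j a c (W ω)) (emb j a c ⁻¹' A) O (Sum.inl x) K := by
  have h1 : mv (Sum.inl x) (emb j a c O) = emb j a c (mv (Sum.inl x) O) := rfl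
  unfold WallAt
  rw [h1, aa_emb h, aa_emb h, pty_sheet h, pty_sheet h]

theorem wall_sheet {j : E → D} {a : Fin 3 → D} (h : Split j a) (hn : 12 * n ≤ Fintype.card E) {ι : Fin n → D}
    (hι : Function.Injective ι) {ι' : Fin n → E} (hι' : Function.Injective ι') (c : Cb) {μ : Measure Ω}
    {W : Ω → SimpleGraph (V D)} {A : Set (V D)} {i : Fin 4} {s : Bool} {u : Bs}
    (hW : Wall μ W ι (1 / (n : ℝ) ^ 4) A i s u) :
    Wall μ (fun ω => sht j a c (W ω)) ι' (2 / (n : ℝ) ^ 4) (emb j a c ⁻¹' A) i s u := by
  intro S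
  have h1 := hW (S.image j ∪ cs a c)
  have h2 := transfer h hn hι hι' (fun K => ind (¬ WallAt μ W A
    (emb j a c (u - Pool.LPG.uv i s, S)) (Sum.inl (i, s)) K)) (fun K => ind_nonneg _)
  have h3 : (fun σ : Equiv.Perm E => ind (¬ WallAt μ (fun ω => sht j a c (W ω)) (emb j a c ⁻¹' A)
      (u - Pool.LPG.uv i s, S) (Sum.inl (i, s)) (KK ι' σ))) =
      fun σ : Equiv.Perm E => ind (¬ WallAt μ W A
        (emb j a c (u - Pool.LPG.uv i s, S)) (Sum.inl (i, s)) ((KK ι' σ).image j)) := by
    funext σ
    rw [tr_wallAt h]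
  rw [h3]
  refine h2.trans ?_
  have h4 : (2 : ℝ) / (n : ℝ) ^ 4 = 2 * (1 / (n : ℝ) ^ 4) := by ring
  rw [h4]
  exact mul_le_mul_of_nonneg_left h1 (by norm_num)

end Pool.Agent.LPL
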