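import Pool.Agent.LPL.MgA
import Pool.Agent.LPL.Tr
import Pool.Agent.LPL.Dep
import Pool.Agent.LP.GExi

/-!
# LPL: deterministic inclusions (all sheets)

`wallgood`: if `ω ∉ EvE`, `ω ∉ Bd`, take `A` closed in `Ov (RegE (m+2) Y)` with `Wall` at every pair sound for `X`.
`¬ Bd`: `Y2` and `low m Y2` are sound below level `m + 2` with respect to `Xtot`, hence not bad (`S_not_bad'`);
`exi2` with `K = m`, `Top = {y | y ∉ Bad (Xtot) m}` gives `u1` in `Y2`, `u1 i = ht`, `u1` and `u1 - uv i s` sound below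
level `m`, with `S_comp` sound below level `m + 2`.  `S_mono`: sound for `X` (so `Wall μ W ι (1/n^4) A i s u1`) and for
every sheet.  `wall_sheet` and `mg_of_pair` in every sheet (`A' = emb c ⁻¹' A` is closed in `Shs q K`, since
`emb c '' Shs q K ⊆ Ov (RegE ..)`; bad cells by `Bad_mono`).
`sm_sub`, `leak_sub`: with this `A`: `HS` gives `aa A' (In (us, ∅)) K`, `¬ aa A' (us, ∅) K` in every sheet; `SM` is
impossible, and `Ev` gives `k c ∈ A`, `l c ∉ A`; a path of `act q (W ω)` from `vK c` to `vL c'` is a path of open edges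
inside `Ov (RegE ..)`, so `k c ∈ A ↔ l c' ∈ A`.
-/

set_option autoImplicit false

open MeasureTheory
open scoped Classical

namespace Pool.Agent.LPL

open Pool.Agent.OIP Pool.Agent.LP Pool.Agent.LPW

variable {Ω D E : Type} [MeasurableSpace Ω] [Fintype D] [DecidableEq D] [Fintype E] [DecidableEq E] {n : ℕ}

theorem incl_closed_mono {V' : Type} {G : SimpleGraph (V V')} {R R' A : Set (V V')} (h : R' ⊆ R)
    (hA : ClosedOn G R A) : ClosedOn G R' A :=
  fun u hu v hv huv => hA u (h hu) v (h hv) huv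

theorem incl_closed_sheet {q : Pos} {j : E → D} {a : Fin 3 → D} {G : SimpleGraph (V D)} {A : Set (V D)}
    (K : Finset E) (c : Cb) (hA : ClosedOn G (Ov (RegE (q.m + 2) q.Y)) A) :
    ClosedOn (sht j a c G) (Shs q K) (emb j a c ⁻¹' A) := by
  intro u hu v hv huv
  exact hA (emb j a c u) hu.1 (emb j a c v) hv.1 huv

theorem incl_anc2 {q : Pos} (h : PosOK q) {u : Bs} (hu : anc q.m u = q.Y2) : anc (q.m + 2) u = q.Y := by
  have e1 : anc (q.m + 2) u = Pool.LPG.par (Pool.LPG.par (anc q.m u)) := by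
    show Pool.LPG.anc (q.m + 1 + 1) u = _
    rw [Pool.LPG.anc_succ, Pool.LPG.anc_succ]
  rw [e1, hu, h.parY2, h.parY1]

theorem incl_us {q : Pos} (h : PosOK q) : q.us ∈ RegE (q.m + 2) q.Y ∧ q.us - uv q.i q.s ∈ RegE (q.m + 2) q.Y := by
  have hanc : anc (q.m + 2) q.us = q.Y := by
    rw [h.us_eq]
    exact h.chain 8 (by norm_num) le_rfl
  have hp : (1 : ℤ) ≤ 100 ^ (q.m + 2) := one_le_pow₀ (by norm_num)
  have hb := ball_sub h q.us hanc 3 (by linarith)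
  constructor
  · apply hb
    intro l
    constructor <;> linarith
  · apply hb
    intro l
    have : (q.us - uv q.i q.s) l = q.us l - uv q.i q.s l := rfl
    rw [this]
    have h1 : -1 ≤ uv q.i q.s l ∧ uv q.i q.s l ≤ 1 := by
      by_cases hl : l = q.i
      · rw [hl]
        have e : uv q.i q.s q.i = sg q.s := Pool.LPG.uv_same q.i q.s
        rw [e]
        cases q.s
        · constructor <;> simp [sg, Pool.LPG.sg]
        · constructor <;> simp [sg, Pool.LPG.sg]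
      · have e : uv q.i q.s l = 0 := Pool.LPG.uv_ne q.s hl
        rw [e]
        constructor <;> norm_num
    constructor <;> linarith [h1.1, h1.2]

/-- positions of the active vertices -/
noncomputable def inclPos {V' : Type} (q : Plc V') (z : AV) : V' :=
  if z.1 = 0 then q.x z.2 else if z.1 = 1 then q.y z.2 else if z.1 = 2 then q.k z.2 else q.l z.2

theorem incl_rel {V' : Type} (q : Plc V') (G : SimpleGraph V') {z w : AV} (h : ActRel q G z w) :
    G.Adj (inclPos q z) (inclPos q w) := by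
  cases h with
  | xx c d h => simpa [inclPos] using h
  | yy c d h => simpa [inclPos] using h
  | xy c d h => simpa [inclPos] using h
  | yk c h => simpa [inclPos] using h
  | yl c h => simpa [inclPos] using h

theorem incl_adj {V' : Type} (q : Plc V') (G : SimpleGraph V') {z w : AV} (h : (act q G).Adj z w) :
    G.Adj (inclPos q z) (inclPos q w) := by
  have h' : z ≠ w ∧ (ActRel q G z w ∨ ActRel q G w z) := h
  rcases h'.2 with h1 | h1
  · exact incl_rel q G h1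
  · exact (incl_rel q G h1).symm

theorem incl_path {V' : Type} (q : Plc V') (G : SimpleGraph V') {R A : Set V'} (hR : ∀ z, inclPos q z ∈ R)
    (hA : ∀ u ∈ R, ∀ v ∈ R, G.Adj u v → (u ∈ A ↔ v ∈ A)) {z w : AV}
    (h : Relation.ReflTransGen (act q G).Adj z w) : inclPos q z ∈ A ↔ inclPos q w ∈ A := by
  induction h with
  | refl => exact Iff.rfl
  | tail h1 h2 ih => exact ih.trans (hA _ (hR _) _ (hR _) (incl_adj q G h2))

theorem wallgood {q : Pos} (h : PosOK q) {j : E → D} {a : Fin 3 → D} (hs : Split j a)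
    (hE : 12 * n ≤ Fintype.card E) (hn : 2 ≤ n) {μ : Measure Ω} {W : Ω → SimpleGraph (V D)} {ι : Fin n → D}
    (hι : Function.Injective ι) {ι' : Fin n → E} (hι' : Function.Injective ι')
    {Flat : Cb → Fin 4 → Bool → Bs → Prop} {XS : Cb → Bs → Set (SimpleGraph (V E))}
    (hL : ∀ c, LocIn μ (fun ω => sht j a c (W ω)) ι' (Flat c) (XS c)) (hflat : ∀ c, AllFlat q (Flat c))
    (X : Bs → Set Ω) (K : Finset E) {ω : Ω} (h1 : ω ∉ EvE μ W ι X q.i q.s q.ht (q.m + 2) q.Y)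
    (h2 : ω ∉ Bd (Xtot W j a X XS) q) :
    ∃ A : Set (V D), ClosedOn (W ω) (Ov (RegE (q.m + 2) q.Y)) A ∧
      ∀ c, ClosedOn (sht j a c (W ω)) (Shs q K) (emb j a c ⁻¹' A) ∧
        Mg q ι' (XS c) (sht j a c (W ω)) (emb j a c ⁻¹' A) := by
  obtain ⟨A, hA, hAW⟩ : ∃ A : Set (V D), ClosedOn (W ω) (Ov (RegE (q.m + 2) q.Y)) A ∧
      ∀ u, anc (q.m + 2) u = q.Y → u q.i = q.ht → Snd (Pool.LPG.XX X ω) (q.m + 2) Set.univ 0 u →
        Snd (Pool.LPG.XX X ω) (q.m + 2) Set.univ 0 (u - uv q.i q.s) →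
        Wall μ W ι (1 / (n : ℝ) ^ 4) A q.i q.s u := by
    by_contra hcon
    apply h1
    intro A hA
    by_contra hcon2
    apply hcon
    refine ⟨A, hA, fun u hu hui hs1 hs2 => ?_⟩
    by_contra hcon3
    exact hcon2 ⟨u, hu, hui, hs1, hs2, hcon3⟩
  obtain ⟨hy1, hy2⟩ : Snd (Pool.LPG.XX (Xtot W j a X XS) ω) (q.m + 2) Set.univ q.m q.Y2 ∧
      Snd (Pool.LPG.XX (Xtot W j a X XS) ω) (q.m + 2) Set.univ q.m (q.low q.m q.Y2) := by
    by_contra hcon
    exact h2 hcon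
  set Xt : Set Bs := Pool.LPG.XX (Xtot W j a X XS) ω with hXt
  have hb1 : q.Y2 ∉ Pool.LPG.Bad Xt q.m := Pool.LPG.S_not_bad' (by omega) hy1
  have hb2 : q.low q.m q.Y2 ∉ Pool.LPG.Bad Xt q.m := Pool.LPG.S_not_bad' (by omega) hy2
  obtain ⟨u1, hu1, hu1i, hu1s, hu1s'⟩ := Pool.LPG.exi2 Xt q.m {y | y ∉ Pool.LPG.Bad Xt q.m} (fun y hy => hy) q.i q.s
    q.ht q.m le_rfl q.Y2 h.Y2i ((Pool.LPG.S_top Xt q.m _ _).2 hb1) ((Pool.LPG.S_top Xt q.m _ _).2 hb2)
  have hl1 : Snd Xt q.m Set.univ 0 u1 := Pool.LPG.S_mono (subset_refl Xt) (Set.subset_univ _) hu1s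
  have hl2 : Snd Xt q.m Set.univ 0 (u1 - uv q.i q.s) := Pool.LPG.S_mono (subset_refl Xt) (Set.subset_univ _) hu1s'
  have hin := anc_in (q := q) q.m q.Y2 u1 h.Y2i hu1 hu1i
  have ht1 : Snd Xt (q.m + 2) Set.univ 0 u1 := by
    refine (Pool.LPG.S_comp Xt (K := q.m) (K' := q.m + 2) Set.univ (by omega) q.m 0 (by omega) u1).2 ⟨hl1, ?_⟩
    have e1 : Pool.LPG.anc q.m u1 = q.Y2 := hu1
    rw [e1]
    exact hy1
  have ht2 : Snd Xt (q.m + 2) Set.univ 0 (u1 - uv q.i q.s) := by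
    refine (Pool.LPG.S_comp Xt (K := q.m) (K' := q.m + 2) Set.univ (by omega) q.m 0 (by omega) _).2 ⟨hl2, ?_⟩
    have e1 : Pool.LPG.anc q.m (u1 - uv q.i q.s) = q.low q.m q.Y2 := hin.1
    rw [e1]
    exact hy2
  have hXsub : Pool.LPG.XX X ω ⊆ Xt := fun z hz => Or.inl hz
  have hW := hAW u1 (incl_anc2 h hu1) hu1i (Pool.LPG.S_mono hXsub (subset_refl _) ht1)
    (Pool.LPG.S_mono hXsub (subset_refl _) ht2)
  refine ⟨A, hA, fun c => ?_⟩
  have hcl := incl_closed_sheet (j := j) (a := a) K c hA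
  have hcsub : {z | sht j a c (W ω) ∈ XS c z} ⊆ Xt := fun z hz => Or.inr ⟨c, hz⟩
  refine ⟨hcl, ?_⟩
  exact mg_of_pair h hn (hL c) (hflat c) hcl (fun hh => hb1 (Pool.LPG.Bad_mono hcsub _ hh))
    (fun hh => hb2 (Pool.LPG.Bad_mono hcsub _ hh)) u1 hu1 hu1i (Pool.LPG.S_mono hcsub (subset_refl _) hl1)
    (Pool.LPG.S_mono hcsub (subset_refl _) hl2) (wall_sheet hs hE hι hι' c hW)

theorem sm_sub {q : Pos} (h : PosOK q) {j : E → D} {a : Fin 3 → D} (hs : Split j a)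
    (hE : 12 * n ≤ Fintype.card E) (hn : 2 ≤ n) {μ : Measure Ω} {W : Ω → SimpleGraph (V D)} {ι : Fin n → D}
    (hι : Function.Injective ι) {ι' : Fin n → E} (hι' : Function.Injective ι')
    {Flat : Cb → Fin 4 → Bool → Bs → Prop} {XS : Cb → Bs → Set (SimpleGraph (V E))}
    (hL : ∀ c, LocIn μ (fun ω => sht j a c (W ω)) ι' (Flat c) (XS c)) (hflat : ∀ c, AllFlat q (Flat c))
    (X : Bs → Set Ω) (K : Finset E) (c : Cb) (SM : Set (SimpleGraph (V E)))
    (hSM : ∀ G ∈ SM, ∀ A, ClosedOn G (Wn q.us K) A → aa A (In q.i q.s (q.us, ∅)) K → aa A (q.us, ∅) K) :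
    {ω | sht j a c (W ω) ∈ SM} ∩ {ω | sht j a c (W ω) ∈ HS q ι' (XS c) K} ⊆
      EvE μ W ι X q.i q.s q.ht (q.m + 2) q.Y ∪ Bd (Xtot W j a X XS) q := by
  rintro ω ⟨hω1, hω2⟩
  by_contra hcon
  have hc1 : ω ∉ EvE μ W ι X q.i q.s q.ht (q.m + 2) q.Y := fun hh => hcon (Or.inl hh)
  have hc2 : ω ∉ Bd (Xtot W j a X XS) q := fun hh => hcon (Or.inr hh)
  obtain ⟨A, hA, hAc⟩ := wallgood h hs hE hn hι hι' hL hflat X K hc1 hc2
  obtain ⟨hcl, hMg⟩ := hAc c
  obtain ⟨ha1, ha2⟩ := hω2 _ hcl hMg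
  exact ha2 (hSM _ hω1 _ (incl_closed_mono (wn_sub h K) hcl) ha1)

theorem leak_sub {q : Pos} (h : PosOK q) {j : E → D} {a : Fin 3 → D} (hs : Split j a)
    (hE : 12 * n ≤ Fintype.card E) (hn : 2 ≤ n) {μ : Measure Ω} {W : Ω → SimpleGraph (V D)} {ι : Fin n → D}
    (hι : Function.Injective ι) {ι' : Fin n → E} (hι' : Function.Injective ι')
    {Flat : Cb → Fin 4 → Bool → Bs → Prop} {XS : Cb → Bs → Set (SimpleGraph (V E))}
    (hL : ∀ c, LocIn μ (fun ω => sht j a c (W ω)) ι' (Flat c) (XS c)) (hflat : ∀ c, AllFlat q (Flat c))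
    (X : Bs → Set Ω) (K : Finset E) (a' b' : Cb → E) (ha : ∀ c, a' c ∈ K) (hb : ∀ c, b' c ∈ K)
    (Ev : Cb → Set (SimpleGraph (V E)))
    (hEv : ∀ c, ∀ G ∈ Ev c, ∀ A, ClosedOn G (Wn q.us K) A → aa A (In q.i q.s (q.us, ∅)) K →
      In q.i q.s (q.us, K.erase (a' c)) ∈ A)
    (hEv' : ∀ c, ∀ G ∈ Ev c, ∀ A, ClosedOn G (Wn q.us K) A → ¬ aa A (q.us, ∅) K →
      In q.i q.s (q.us, K.erase (b' c)) ∉ A) :
    {ω | (∀ c, sht j a c (W ω) ∈ Ev c ∧ sht j a c (W ω) ∈ HS q ι' (XS c) K) ∧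
        act (plc q j a K a' b') (W ω) ∈ Lk} ⊆
      EvE μ W ι X q.i q.s q.ht (q.m + 2) q.Y ∪ Bd (Xtot W j a X XS) q := by
  rintro ω ⟨hω1, hω2⟩
  by_contra hcon
  have hc1 : ω ∉ EvE μ W ι X q.i q.s q.ht (q.m + 2) q.Y := fun hh => hcon (Or.inl hh)
  have hc2 : ω ∉ Bd (Xtot W j a X XS) q := fun hh => hcon (Or.inr hh)
  obtain ⟨A, hA, hAc⟩ := wallgood h hs hE hn hι hι' hL hflat X K hc1 hc2
  obtain ⟨c, c', hpath⟩ := hω2
  have hk : inclPos (plc q j a K a' b') (vK c) ∈ A := by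
    obtain ⟨hcl, hMg⟩ := hAc c
    obtain ⟨ha1, ha2⟩ := (hω1 c).2 _ hcl hMg
    have := hEv c _ (hω1 c).1 _ (incl_closed_mono (wn_sub h K) hcl) ha1
    simpa [inclPos, plc] using this
  have hl : inclPos (plc q j a K a' b') (vL c') ∉ A := by
    obtain ⟨hcl, hMg⟩ := hAc c'
    obtain ⟨ha1, ha2⟩ := (hω1 c').2 _ hcl hMg
    have := hEv' c' _ (hω1 c').1 _ (incl_closed_mono (wn_sub h K) hcl) ha2
    simpa [inclPos, plc] using this
  have hus := incl_us h
  have hR : ∀ z, inclPos (plc q j a K a' b') z ∈ (Ov (RegE (q.m + 2) q.Y) : Set (V D)) := by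
    intro z
    unfold inclPos
    split_ifs
    · exact hus.1
    · exact hus.2
    · exact hus.2
    · exact hus.2
  exact hl ((incl_path _ _ hR hA hpath).1 hk)

end Pool.Agent.LPL
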