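import Pool.Agent.LPL.Defs

/-!
# LPL: numbers of the conditioning event, measure version of `fnum` (WNum)

Same proof as `fnum` with `measureReal_mono` and `measureReal_union_le` (no measurability needed).
-/

set_option autoImplicit false

open MeasureTheory
open scoped Classical

namespace Pool.Agent.LPL

open Pool.Agent.OIP Pool.Agent.LP

/-- `Ev` = leaves in the majority clusters, `SM` = same majority, `H` = good connection, `k`, `l` = hub joined to the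
first / second leaf, `x` = vertical hub edge closed -/
theorem fnumM {Ω : Type} [MeasurableSpace Ω] (μ : Measure Ω) [IsProbabilityMeasure μ] {Ev SM H k l x : Set Ω}
    (a1 : LP.sc * (1 - LP.sc) - 1 / 10 ^ 5 ≤ μ.real Ev)
    (a2 : μ.real (Ev \ SM) ≤ LP.sc * (1 - LP.sc) + 1 / 10 ^ 5)
    (b : LP.sc * (LP.sc * (1 - LP.sc)) - 1 / 10 ^ 5 ≤ μ.real (Ev ∩ k))
    (c : (1 - LP.sc) * (LP.sc * (1 - LP.sc)) - 1 / 10 ^ 5 ≤ μ.real (Ev ∩ l))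
    (d : μ.real ((Ev \ SM) ∩ l ∩ x) ≤ 1 / 10 ^ 5) (hS : μ.real (SM ∩ H) ≤ 1 / 10 ^ 5)
    (hH : μ.real Hᶜ ≤ 1 / 10 ^ 5) :
    1 / 5 ≤ μ.real ((Ev \ SM) ∩ H) ∧
    (LP.sc - 1 / 1000) * μ.real ((Ev \ SM) ∩ H) ≤ μ.real ((Ev \ SM) ∩ H ∩ k) ∧
    (1 - LP.sc - 1 / 1000) * μ.real ((Ev \ SM) ∩ H) ≤ μ.real ((Ev \ SM) ∩ H ∩ l) ∧
    μ.real ((Ev \ SM) ∩ H ∩ x ∩ l) ≤ 1 / 1000 * μ.real ((Ev \ SM) ∩ H) := by
  obtain ⟨s1, s2⟩ := LP.wnum_sc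
  have hF : μ.real ((Ev \ SM) ∩ H) ≤ LP.sc * (1 - LP.sc) + 1 / 10 ^ 5 :=
    (measureReal_mono Set.inter_subset_left).trans a2
  have key : ∀ B : Set Ω, μ.real (Ev ∩ B) ≤ μ.real ((Ev \ SM) ∩ H ∩ B) + 1 / 10 ^ 5 + 1 / 10 ^ 5 := by
    intro B
    have h1 : μ.real (Ev ∩ B) ≤ μ.real (((Ev \ SM) ∩ H ∩ B) ∪ ((SM ∩ H) ∪ Hᶜ)) := by
      refine measureReal_mono ?_
      rintro ω ⟨hA, hB⟩
      by_cases hCω : ω ∈ H
      · by_cases hSω : ω ∈ SM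
        · exact Or.inr (Or.inl ⟨hSω, hCω⟩)
        · exact Or.inl ⟨⟨⟨hA, hSω⟩, hCω⟩, hB⟩
      · exact Or.inr (Or.inr hCω)
    have h2 := measureReal_union_le (μ := μ) ((Ev \ SM) ∩ H ∩ B) ((SM ∩ H) ∪ Hᶜ)
    have h3 := measureReal_union_le (μ := μ) (SM ∩ H) Hᶜ
    linarith
  have hFl : LP.sc * (1 - LP.sc) - 1 / 10 ^ 5 ≤ μ.real ((Ev \ SM) ∩ H) + 1 / 10 ^ 5 + 1 / 10 ^ 5 := by
    have h1 := key Set.univ
    rw [Set.inter_univ, Set.inter_univ] at h1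
    linarith
  have q1 : 0.2320 ≤ LP.sc * (1 - LP.sc) := by nlinarith
  have q2 : LP.sc * (1 - LP.sc) ≤ 0.2322 := by nlinarith
  have hF5 : 1 / 5 ≤ μ.real ((Ev \ SM) ∩ H) := by
    norm_num at hFl ⊢
    linarith
  refine ⟨hF5, ?_, ?_, ?_⟩
  · have h1 := key k
    have h2 : (LP.sc - 1 / 1000) * μ.real ((Ev \ SM) ∩ H) ≤
        (LP.sc - 1 / 1000) * (LP.sc * (1 - LP.sc) + 1 / 10 ^ 5) :=
      mul_le_mul_of_nonneg_left hF (by linarith)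
    have h3 : (LP.sc - 1 / 1000) * (LP.sc * (1 - LP.sc) + 1 / 10 ^ 5) =
        LP.sc * (LP.sc * (1 - LP.sc)) - 1 / 1000 * (LP.sc * (1 - LP.sc)) + (LP.sc - 1 / 1000) * (1 / 10 ^ 5) := by
      ring
    norm_num at h1 h2 h3 b ⊢
    linarith
  · have h1 := key l
    have h2 : (1 - LP.sc - 1 / 1000) * μ.real ((Ev \ SM) ∩ H) ≤
        (1 - LP.sc - 1 / 1000) * (LP.sc * (1 - LP.sc) + 1 / 10 ^ 5) :=
      mul_le_mul_of_nonneg_left hF (by linarith)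
    have h3 : (1 - LP.sc - 1 / 1000) * (LP.sc * (1 - LP.sc) + 1 / 10 ^ 5) =
        (1 - LP.sc) * (LP.sc * (1 - LP.sc)) - 1 / 1000 * (LP.sc * (1 - LP.sc)) +
          (1 - LP.sc - 1 / 1000) * (1 / 10 ^ 5) := by ring
    norm_num at h1 h2 h3 c ⊢
    linarith
  · have h1 : μ.real ((Ev \ SM) ∩ H ∩ x ∩ l) ≤ μ.real ((Ev \ SM) ∩ l ∩ x) := by
      refine measureReal_mono ?_
      rintro ω ⟨⟨⟨hA, _⟩, hx⟩, hl⟩
      exact ⟨⟨hA, hl⟩, hx⟩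
    norm_num at d hF5 ⊢
    linarith

end Pool.Agent.LPL
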