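import Pool.Agent.LPL.Incl
import Pool.Agent.LPL.Cho
import Pool.Agent.LPL.Num
import Pool.Agent.LPL.CondM

/-!
# LPL: lower bound of the probability of the leak event

`leak_flat`: let `B = EvE ∪ Bd`.  If `μ B > 10^(-5)` then `μ EvE ≥ 10^(-5) - μ Bd ≥ 5 * 10^(-6)`.  Otherwise take `K`
from `choose_K`; in every sheet `NumOK` gives `a' c`, `b' c`, `Ev c`, `SM c`; `F c = {G | sht c G ∈ (Ev c \ SM c) ∩ HS}`
is `DepOn` the sheet (`depOn_sht`, `hs_dep`, `wn_sub`); `sm_sub` gives `μ (SM ∩ HS) ≤ 10^(-5)`; `fnumM` gives the numbers;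
`cond_mainM` with `lam = μ B` (`leak_sub`) and `∏ μ (F c) ≥ (1/5)^8` gives `p ≤ pc + 10000 * μ B / (1/5)^8`, so
`μ EvE ≥ (1/5)^8 (p - pc) / 10000 - μ Bd`.
`leak_nonflat`: `Flat c0` fails at `u0`.  On the event that `u0`, `u0 - uv i s` are sound below level `k ≥ 1` with
respect to `Xtot` (`prob_unsound`: probability at least `1 - 2 * 10^(-11)`), for every `A` closed in `Ov (RegE k Y)`:
if `Wall μ W ι (1/n^4) A i s u0` then by `wall_sheet` and `LocIn.flat` (`Ball u0 3 ⊆ RegE k Y`) `Flat c0 i s u0`, a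
contradiction; so `u0` witnesses `EvE`.
`bd_small`: `prob_S` for `Xtot` (`xtot_meas`, `xtot_prob`).
-/

set_option autoImplicit false

open MeasureTheory
open scoped Classical

namespace Pool.Agent.LPL

open Pool.Agent.OIP Pool.Agent.LP Pool.Agent.LPW

variable {Ω D E : Type} [MeasurableSpace Ω] [Fintype D] [DecidableEq D] [Fintype E] [DecidableEq E] {n : ℕ}

theorem xtot_meas {j : E → D} {a : Fin 3 → D} (hs : Split j a) {W : Ω → SimpleGraph (V D)} {X : Bs → Set Ω}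
    (hX : ∀ z, MeasurableSet[FV W (Ball z 3)] (X z)) {XS : Cb → Bs → Set (SimpleGraph (V E))}
    (hdep : ∀ c z, DepOn (Ov (Ball z 3)) (XS c z)) (z : Bs) :
    MeasurableSet[FV W (Ball z 3)] (Xtot W j a X XS z) := by
  have h1 : Xtot W j a X XS z = X z ∪ ⋃ c, {ω | sht j a c (W ω) ∈ XS c z} := by
    ext ω
    simp only [Xtot, Set.mem_union, Set.mem_iUnion]
    exact Iff.rfl
  rw [h1]
  refine MeasurableSet.union (hX z) (MeasurableSet.iUnion fun c => ?_)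
  have h2 : DepOn (overB z 3) {G : SimpleGraph (V D) | sht j a c G ∈ XS c z} := by
    refine (depOn_sht c (hdep c z)).mono ?_
    rintro _ ⟨v, hv, rfl⟩
    exact hv
  exact concM_meas W (overB_finite z 3) h2

theorem xtot_prob {j : E → D} {a : Fin 3 → D} {μ : Measure Ω} [IsProbabilityMeasure μ] {W : Ω → SimpleGraph (V D)}
    {X : Bs → Set Ω} (hX : ∀ z, μ (X z) ≤ ENNReal.ofReal (1 / 10 ^ 21)) {XS : Cb → Bs → Set (SimpleGraph (V E))}
    (hXS : ∀ c z, μ {ω | sht j a c (W ω) ∈ XS c z} ≤ ENNReal.ofReal (1 / 10 ^ 21)) (z : Bs) :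
    μ (Xtot W j a X XS z) ≤ ENNReal.ofReal (1 / 10 ^ 20) := by
  have h1 : Xtot W j a X XS z = X z ∪ ⋃ c, {ω | sht j a c (W ω) ∈ XS c z} := by
    ext ω
    simp only [Xtot, Set.mem_union, Set.mem_iUnion]
    exact Iff.rfl
  rw [h1]
  have h2 : μ (⋃ c, {ω | sht j a c (W ω) ∈ XS c z}) ≤ ENNReal.ofReal (8 * (1 / 10 ^ 21)) := by
    calc μ (⋃ c, {ω | sht j a c (W ω) ∈ XS c z}) ≤ ∑ c, μ {ω | sht j a c (W ω) ∈ XS c z} :=
          measure_iUnion_fintype_le _ _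
      _ ≤ ∑ _c : Cb, ENNReal.ofReal (1 / 10 ^ 21) := Finset.sum_le_sum fun c _ => hXS c z
      _ = ENNReal.ofReal (8 * (1 / 10 ^ 21)) := by
          rw [Finset.sum_const, Finset.card_univ]
          have h3 : Fintype.card Cb = 8 := by
            simp [Cb]
          rw [h3, nsmul_eq_mul, ENNReal.ofReal_mul (by norm_num)]
          norm_num
  calc μ (X z ∪ ⋃ c, {ω | sht j a c (W ω) ∈ XS c z}) ≤ μ (X z) + μ (⋃ c, {ω | sht j a c (W ω) ∈ XS c z}) :=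
        measure_union_le _ _
    _ ≤ ENNReal.ofReal (1 / 10 ^ 21) + ENNReal.ofReal (8 * (1 / 10 ^ 21)) := add_le_add (hX z) h2
    _ = ENNReal.ofReal (1 / 10 ^ 21 + 8 * (1 / 10 ^ 21)) := (ENNReal.ofReal_add (by norm_num) (by norm_num)).symm
    _ ≤ ENNReal.ofReal (1 / 10 ^ 20) := ENNReal.ofReal_le_ofReal (by norm_num)

theorem bd_small {j : E → D} {a : Fin 3 → D} (hs : Split j a) {p : ℝ} {μ : Measure Ω} {W : Ω → SimpleGraph (V D)}
    (hM : MModel p μ W) {X : Bs → Set Ω} (hX : ∀ z, MeasurableSet[FV W (Ball z 3)] (X z))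
    (hXp : ∀ z, μ (X z) ≤ ENNReal.ofReal (1 / 10 ^ 21)) {XS : Cb → Bs → Set (SimpleGraph (V E))}
    (hdep : ∀ c z, DepOn (Ov (Ball z 3)) (XS c z))
    (hXS : ∀ c z, μ {ω | sht j a c (W ω) ∈ XS c z} ≤ ENNReal.ofReal (1 / 10 ^ 21)) (ε : ℝ) (hε : 0 < ε) :
    ∃ m₀ : ℕ, ∀ q : Pos, m₀ ≤ q.m → μ.real (Bd (Xtot W j a X XS) q) ≤ ε := by
  have hprob := hM.prob
  obtain ⟨k', hk'⟩ := Pool.LPG.prob_S μ (FV W) (locV μ W hM.meas hM.indep) (Xtot W j a X XS)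
    (xtot_meas hs hX hdep) (xtot_prob hXp hXS) (ε / 2) (by linarith)
  refine ⟨k', fun q hq => ?_⟩
  have h1 : Bd (Xtot W j a X XS) q ⊆
      {ω | ¬ Snd (Pool.LPG.XX (Xtot W j a X XS) ω) (q.m + 2) Set.univ q.m q.Y2} ∪
      {ω | ¬ Snd (Pool.LPG.XX (Xtot W j a X XS) ω) (q.m + 2) Set.univ q.m (q.low q.m q.Y2)} := by
    intro ω hω
    by_contra hcon
    rw [Set.mem_union, not_or] at hcon
    refine hω ⟨?_, ?_⟩
    · by_contra h2
      exact hcon.1 h2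
    · by_contra h2
      exact hcon.2 h2
  have h2 : μ (Bd (Xtot W j a X XS) q) ≤ ENNReal.ofReal ε := by
    calc μ (Bd (Xtot W j a X XS) q) ≤ μ ({ω | ¬ Snd (Pool.LPG.XX (Xtot W j a X XS) ω) (q.m + 2) Set.univ q.m q.Y2} ∪
          {ω | ¬ Snd (Pool.LPG.XX (Xtot W j a X XS) ω) (q.m + 2) Set.univ q.m (q.low q.m q.Y2)}) := measure_mono h1
      _ ≤ μ {ω | ¬ Snd (Pool.LPG.XX (Xtot W j a X XS) ω) (q.m + 2) Set.univ q.m q.Y2} +
          μ {ω | ¬ Snd (Pool.LPG.XX (Xtot W j a X XS) ω) (q.m + 2) Set.univ q.m (q.low q.m q.Y2)} :=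
          measure_union_le _ _
      _ ≤ ENNReal.ofReal (ε / 2) + ENNReal.ofReal (ε / 2) :=
          add_le_add (hk' q.m hq (q.m + 2) (by omega) q.Y2) (hk' q.m hq (q.m + 2) (by omega) (q.low q.m q.Y2))
      _ = ENNReal.ofReal ε := by
          rw [← ENNReal.ofReal_add (by linarith) (by linarith)]
          congr 1
          ring
  exact ENNReal.toReal_le_of_le_ofReal hε.le h2

/-- soundness for the total family implies soundness for the family of the model -/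
private theorem lo_snd {j : E → D} {a : Fin 3 → D} {W : Ω → SimpleGraph (V D)} {X : Bs → Set Ω}
    {XS : Cb → Bs → Set (SimpleGraph (V E))} {ω : Ω} {k : ℕ} {l : ℕ} {y : Bs}
    (h : Snd (Pool.LPG.XX (Xtot W j a X XS) ω) k Set.univ l y) : Snd (Pool.LPG.XX X ω) k Set.univ l y :=
  Pool.LPG.S_mono (fun _ hz => Or.inl hz) (fun _ hz => hz) h

theorem leak_nonflat {j : E → D} {a : Fin 3 → D} (hs : Split j a) (hE : 12 * n ≤ Fintype.card E) {p : ℝ}
    {μ : Measure Ω} {W : Ω → SimpleGraph (V D)} (hM : MModel p μ W) {ι : Fin n → D}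
    (hι : Function.Injective ι) {ι' : Fin n → E} (hι' : Function.Injective ι')
    {Flat : Cb → Fin 4 → Bool → Bs → Prop} {XS : Cb → Bs → Set (SimpleGraph (V E))}
    (hL : ∀ c, LocIn μ (fun ω => sht j a c (W ω)) ι' (Flat c) (XS c))
    {X : Bs → Set Ω} (hX : ∀ z, MeasurableSet[FV W (Ball z 3)] (X z))
    (hXp : ∀ z, μ (X z) ≤ ENNReal.ofReal (1 / 10 ^ 21)) (i : Fin 4) (s : Bool) (ht : ℤ) (k : ℕ) (hk : 1 ≤ k) (Y : Bs)
    (u0 : Bs) (hu : anc k u0 = Y) (hi : u0 i = ht) (c0 : Cb) (hf : ¬ Flat c0 i s u0) :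
    1 / 2 ≤ μ.real (EvE μ W ι X i s ht k Y) := by
  have hprob := hM.prob
  have hB : ∀ u : Bs, μ {ω | ¬ Snd (Pool.LPG.XX (Xtot W j a X XS) ω) k Set.univ 0 u} ≤
      ENNReal.ofReal (1 / 10 ^ 11) := fun u =>
    Pool.LPG.prob_unsound μ (FV W) (locV μ W hM.meas hM.indep) (Xtot W j a X XS)
      (xtot_meas hs hX (fun c z => (hL c).xsDep z)) (xtot_prob hXp (fun c z => (hL c).xsP z)) k u
  have hball : Ball u0 3 ⊆ RegE k Y := by
    intro x hx r
    have h1 := hx r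
    have h2 : u0 r / 100 ^ k = Y r := congrFun hu r
    have h100 : (100 : ℤ) ≤ 100 ^ k := by
      calc (100 : ℤ) = 100 ^ 1 := by norm_num
        _ ≤ 100 ^ k := pow_le_pow_right₀ (by norm_num) hk
    have hpos : (0 : ℤ) < 100 ^ k := by positivity
    have e1 := Int.mul_ediv_add_emod (u0 r) (100 ^ k)
    have e2 := Int.emod_nonneg (u0 r) hpos.ne'
    have e3 := Int.emod_lt_of_pos (u0 r) hpos
    rw [h2] at e1
    constructor
    · linarith [h1.1]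
    · linarith [h1.2]
  have hsub : (EvE μ W ι X i s ht k Y)ᶜ ⊆
      {ω | ¬ Snd (Pool.LPG.XX (Xtot W j a X XS) ω) k Set.univ 0 u0} ∪
      {ω | ¬ Snd (Pool.LPG.XX (Xtot W j a X XS) ω) k Set.univ 0 (u0 - uv i s)} := by
    intro ω hω
    by_contra hcon
    rw [Set.mem_union, not_or] at hcon
    have hS1 : Snd (Pool.LPG.XX (Xtot W j a X XS) ω) k Set.univ 0 u0 := by
      by_contra h2
      exact hcon.1 h2
    have hS2 : Snd (Pool.LPG.XX (Xtot W j a X XS) ω) k Set.univ 0 (u0 - uv i s) := by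
      by_contra h2
      exact hcon.2 h2
    apply hω
    intro A hA
    refine ⟨u0, hu, hi, lo_snd hS1, lo_snd hS2, fun hW => hf ?_⟩
    have hW' := wall_sheet hs hE hι hι' c0 hW
    have hn1 : sht j a c0 (W ω) ∉ XS c0 u0 := by
      intro h3
      exact Pool.LPG.S_not_bad' (k := 0) (by omega) hS1 (Or.inr ⟨c0, h3⟩)
    have hn2 : sht j a c0 (W ω) ∉ XS c0 (u0 - uv i s) := by
      intro h3
      exact Pool.LPG.S_not_bad' (k := 0) (by omega) hS2 (Or.inr ⟨c0, h3⟩)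
    have hcl : ClosedOn (sht j a c0 (W ω)) (Ov (Ball u0 3)) (emb j a c0 ⁻¹' A) := by
      intro u hu' v hv hadj
      exact hA (emb j a c0 u) (hball hu') (emb j a c0 v) (hball hv) hadj
    exact (hL c0).flat i s u0 ω _ hcl hn1 hn2 hW'
  have hc : μ (EvE μ W ι X i s ht k Y)ᶜ ≤ ENNReal.ofReal (1 / 2) := by
    calc μ (EvE μ W ι X i s ht k Y)ᶜ ≤ μ ({ω | ¬ Snd (Pool.LPG.XX (Xtot W j a X XS) ω) k Set.univ 0 u0} ∪
          {ω | ¬ Snd (Pool.LPG.XX (Xtot W j a X XS) ω) k Set.univ 0 (u0 - uv i s)}) := measure_mono hsub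
      _ ≤ μ {ω | ¬ Snd (Pool.LPG.XX (Xtot W j a X XS) ω) k Set.univ 0 u0} +
          μ {ω | ¬ Snd (Pool.LPG.XX (Xtot W j a X XS) ω) k Set.univ 0 (u0 - uv i s)} := measure_union_le _ _
      _ ≤ ENNReal.ofReal (1 / 10 ^ 11) + ENNReal.ofReal (1 / 10 ^ 11) := add_le_add (hB _) (hB _)
      _ = ENNReal.ofReal (1 / 10 ^ 11 + 1 / 10 ^ 11) := (ENNReal.ofReal_add (by norm_num) (by norm_num)).symm
      _ ≤ ENNReal.ofReal (1 / 2) := ENNReal.ofReal_le_ofReal (by norm_num)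
  have hc' : μ.real (EvE μ W ι X i s ht k Y)ᶜ ≤ 1 / 2 := ENNReal.toReal_le_of_le_ofReal (by norm_num) hc
  have htot : (1 : ℝ) ≤ μ.real (EvE μ W ι X i s ht k Y) + μ.real (EvE μ W ι X i s ht k Y)ᶜ := by
    have h1 := measureReal_union_le (μ := μ) (EvE μ W ι X i s ht k Y) (EvE μ W ι X i s ht k Y)ᶜ
    rw [Set.union_compl_self, probReal_univ] at h1
    exact h1
  linarith

theorem leak_flat {q : Pos} (h : PosOK q) {j : E → D} {a : Fin 3 → D} (hs : Split j a)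
    (hE : 12 * n ≤ Fintype.card E) (hn : 2 ≤ n) {p : ℝ} (hp : pc < p) {μ : Measure Ω} {W : Ω → SimpleGraph (V D)}
    (hM : MModel p μ W) {ι : Fin n → D} (hι : Function.Injective ι) {ι' : Fin n → E} (hι' : Function.Injective ι')
    {Flat : Cb → Fin 4 → Bool → Bs → Prop} {XS : Cb → Bs → Set (SimpleGraph (V E))}
    (hL : ∀ c, LocIn μ (fun ω => sht j a c (W ω)) ι' (Flat c) (XS c)) (hflat : ∀ c, AllFlat q (Flat c))
    (X : Bs → Set Ω)
    (hB : μ.real (Bd (Xtot W j a X XS) q) ≤ min (5 / 10 ^ 6) ((1 / 5) ^ 8 * (p - pc) / 20000)) :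
    min (5 / 10 ^ 6) ((1 / 5) ^ 8 * (p - pc) / 20000) ≤ μ.real (EvE μ W ι X q.i q.s q.ht (q.m + 2) q.Y) := by
  have hprob := hM.prob
  set EE : Set Ω := EvE μ W ι X q.i q.s q.ht (q.m + 2) q.Y with hEE
  set BB : Set Ω := Bd (Xtot W j a X XS) q with hBB
  set c₀ : ℝ := min (5 / 10 ^ 6) ((1 / 5) ^ 8 * (p - pc) / 20000) with hc₀
  have hc1 : c₀ ≤ 5 / 10 ^ 6 := min_le_left _ _
  have hc2 : c₀ ≤ (1 / 5) ^ 8 * (p - pc) / 20000 := min_le_right _ _
  have hun : μ.real (EE ∪ BB) ≤ μ.real EE + μ.real BB := measureReal_union_le _ _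
  by_cases hlam : 1 / 10 ^ 5 < μ.real (EE ∪ BB)
  · norm_num at hlam hc1
    linarith
  · push Not at hlam
    obtain ⟨K, hK⟩ := choose_K h (fun c => sheet_model hs c hM) hL hflat
    have hnum : ∀ c, ∃ a' b' : E, ∃ Ev SM : Set (SimpleGraph (V E)), a' ∈ K ∧ b' ∈ K ∧
        DepOn (Wn q.us K) Ev ∧ DepOn (Wn q.us K) SM ∧
        (∀ G ∈ Ev, ∀ A, ClosedOn G (Wn q.us K) A → aa A (In q.i q.s (q.us, ∅)) K →
          In q.i q.s (q.us, K.erase a') ∈ A) ∧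
        (∀ G ∈ Ev, ∀ A, ClosedOn G (Wn q.us K) A → ¬ aa A (q.us, ∅) K → In q.i q.s (q.us, K.erase b') ∉ A) ∧
        (∀ G ∈ SM, ∀ A, ClosedOn G (Wn q.us K) A → aa A (In q.i q.s (q.us, ∅)) K → aa A (q.us, ∅) K) ∧
        LP.sc * (1 - LP.sc) - 1 / 10 ^ 5 ≤ μ.real {ω | sht j a c (W ω) ∈ Ev} ∧
        μ.real {ω | sht j a c (W ω) ∈ Ev \ SM} ≤ LP.sc * (1 - LP.sc) + 1 / 10 ^ 5 ∧
        LP.sc * (LP.sc * (1 - LP.sc)) - 1 / 10 ^ 5 ≤
          μ.real {ω | sht j a c (W ω) ∈ Ev ∧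
            (sht j a c (W ω)).Adj (In q.i q.s (q.us, K)) (In q.i q.s (q.us, K.erase a'))} ∧
        (1 - LP.sc) * (LP.sc * (1 - LP.sc)) - 1 / 10 ^ 5 ≤
          μ.real {ω | sht j a c (W ω) ∈ Ev ∧
            (sht j a c (W ω)).Adj (In q.i q.s (q.us, K)) (In q.i q.s (q.us, K.erase b'))} ∧
        μ.real {ω | sht j a c (W ω) ∈ Ev \ SM ∧
          (sht j a c (W ω)).Adj (In q.i q.s (q.us, K)) (In q.i q.s (q.us, K.erase b')) ∧
          ¬ (sht j a c (W ω)).Adj (q.us, K) (In q.i q.s (q.us, K))} ≤ 1 / 10 ^ 5 := by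
      intro c
      obtain ⟨a', ha', b', hb', Ev, SM, h1⟩ := (hK c).1
      exact ⟨a', b', Ev, SM, ha', hb', h1⟩
    choose a' b' Ev SM ha' hb' hEvD hSMD hEvA hEvB hSMA n1 n2 n3 n4 n5 using hnum
    -- the conditioning events
    let F : Cb → Set (SimpleGraph (V D)) := fun c =>
      {G | sht j a c G ∈ (Ev c \ SM c) ∩ HS q ι' (XS c) K}
    have hF : ∀ c, DepOn ((plc q j a K a' b').sh c) (F c) := by
      intro c
      refine depOn_sht c ?_
      refine DepOn.inter ?_ (hs_dep h ι' (fun z => (hL c).xsDep z) K)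
      exact ((hEvD c).inter (hSMD c).compl).mono (wn_sub h K)
    have hkey : ∀ c, 1 / 5 ≤ μ.real {ω | W ω ∈ F c} ∧
        (LP.sc - 1 / 1000) * μ.real {ω | W ω ∈ F c} ≤
          μ.real {ω | W ω ∈ F c ∧ (W ω).Adj ((plc q j a K a' b').y c) ((plc q j a K a' b').k c)} ∧
        (1 - LP.sc - 1 / 1000) * μ.real {ω | W ω ∈ F c} ≤
          μ.real {ω | W ω ∈ F c ∧ (W ω).Adj ((plc q j a K a' b').y c) ((plc q j a K a' b').l c)} ∧
        μ.real {ω | W ω ∈ F c ∧ ¬ (W ω).Adj ((plc q j a K a' b').x c) ((plc q j a K a' b').y c) ∧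
          (W ω).Adj ((plc q j a K a' b').y c) ((plc q j a K a' b').l c)} ≤
          1 / 1000 * μ.real {ω | W ω ∈ F c} := by
      intro c
      have hSS : μ.real ({ω | sht j a c (W ω) ∈ SM c} ∩ {ω | sht j a c (W ω) ∈ HS q ι' (XS c) K}) ≤
          1 / 10 ^ 5 :=
        (measureReal_mono (sm_sub h hs hE hn hι hι' hL hflat X K c (SM c) (hSMA c))).trans hlam
      have hHH : μ.real {ω | sht j a c (W ω) ∈ HS q ι' (XS c) K}ᶜ ≤ 1 / 10 ^ 5 := (hK c).2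
      have hd : μ.real (({ω | sht j a c (W ω) ∈ Ev c} \ {ω | sht j a c (W ω) ∈ SM c}) ∩
          {ω | (sht j a c (W ω)).Adj (In q.i q.s (q.us, K)) (In q.i q.s (q.us, K.erase (b' c)))} ∩
          {ω | ¬ (sht j a c (W ω)).Adj (q.us, K) (In q.i q.s (q.us, K))}) ≤ 1 / 10 ^ 5 := by
        refine le_trans (le_of_eq ?_) (n5 c)
        congr 1
        ext ω
        exact and_assoc
      obtain ⟨f1, f2, f3, f4⟩ := fnumM μ (Ev := {ω | sht j a c (W ω) ∈ Ev c})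
        (SM := {ω | sht j a c (W ω) ∈ SM c})
        (H := {ω | sht j a c (W ω) ∈ HS q ι' (XS c) K})
        (k := {ω | (sht j a c (W ω)).Adj (In q.i q.s (q.us, K)) (In q.i q.s (q.us, K.erase (a' c)))})
        (l := {ω | (sht j a c (W ω)).Adj (In q.i q.s (q.us, K)) (In q.i q.s (q.us, K.erase (b' c)))})
        (x := {ω | ¬ (sht j a c (W ω)).Adj (q.us, K) (In q.i q.s (q.us, K))})
        (n1 c) (n2 c) (n3 c) (n4 c) hd hSS hHH
      have e0 : ({ω | sht j a c (W ω) ∈ Ev c} \ {ω | sht j a c (W ω) ∈ SM c}) ∩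
          {ω | sht j a c (W ω) ∈ HS q ι' (XS c) K} = {ω | W ω ∈ F c} := Set.ext fun ω => Iff.rfl
      rw [e0] at f1 f2 f3 f4
      refine ⟨f1, f2, f3, le_trans (le_of_eq ?_) f4⟩
      congr 1
      ext ω
      exact and_assoc.symm
    have hpos : ∀ c, 0 < μ.real {ω | W ω ∈ F c} := fun c => lt_of_lt_of_le (by norm_num) (hkey c).1
    obtain ⟨hxx, hyy, hxy⟩ := plc_edges h hs K a' b' hM
    have hLk : μ.real {ω | (∀ c, W ω ∈ F c) ∧ act (plc q j a K a' b') (W ω) ∈ Lk} ≤ μ.real (EE ∪ BB) := by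
      refine measureReal_mono (fun ω hω => ?_)
      refine leak_sub h hs hE hn hι hι' hL hflat X K a' b' ha' hb' Ev hEvA hEvB ⟨fun c => ?_, hω.2⟩
      exact ⟨(hω.1 c).1.1, (hω.1 c).2⟩
    have hmain := cond_mainM μ W hM.meas hM.indep (plc_ok h hs ha' hb')
      (fun c => (shs_finite q K).image _) hp.le hxx hyy hxy hF hpos
      (fun c => (hkey c).2.1) (fun c => (hkey c).2.2.1) (fun c => (hkey c).2.2.2) hLk
    have hprod : (1 / 5 : ℝ) ^ 8 ≤ ∏ c : Cb, μ.real {ω | W ω ∈ F c} := by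
      have h3 : Fintype.card Cb = 8 := by simp [Cb]
      calc (1 / 5 : ℝ) ^ 8 = ∏ _c : Cb, (1 / 5 : ℝ) := by
            rw [Finset.prod_const, Finset.card_univ, h3]
        _ ≤ ∏ c : Cb, μ.real {ω | W ω ∈ F c} :=
            Finset.prod_le_prod (fun _ _ => by norm_num) (fun c _ => (hkey c).1)
    have h5 : (0 : ℝ) < (1 / 5) ^ 8 := by positivity
    have hl0 : 0 ≤ μ.real (EE ∪ BB) := measureReal_nonneg
    have hdiv : μ.real (EE ∪ BB) / ∏ c : Cb, μ.real {ω | W ω ∈ F c} ≤ μ.real (EE ∪ BB) / (1 / 5) ^ 8 :=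
      div_le_div_of_nonneg_left hl0 h5 hprod
    have h6 : p - pc ≤ 10000 * (μ.real (EE ∪ BB) / (1 / 5) ^ 8) := by linarith
    have h7 : (1 / 5) ^ 8 * (p - pc) / 10000 ≤ μ.real (EE ∪ BB) := by
      have h8 : (1 / 5 : ℝ) ^ 8 * (p - pc) ≤ (1 / 5) ^ 8 * (10000 * (μ.real (EE ∪ BB) / (1 / 5) ^ 8)) :=
        mul_le_mul_of_nonneg_left h6 h5.le
      have h9 : (1 / 5 : ℝ) ^ 8 * (10000 * (μ.real (EE ∪ BB) / (1 / 5) ^ 8)) = 10000 * μ.real (EE ∪ BB) := by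
        field_simp
      rw [h9] at h8
      linarith
    have h10 : (1 / 5 : ℝ) ^ 8 * (p - pc) / 10000 = 2 * ((1 / 5) ^ 8 * (p - pc) / 20000) := by ring
    rw [h10] at h7
    linarith

end Pool.Agent.LPL
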