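import Pool.Agent.LPL.LocB

/-!
# LPL: local input of the leak theorem (Part IV.3), assembly

`loc_main`: for one sheet `(μ, W)` there are bad sites `XS` and a flatness predicate `Flat` with all the properties of
`LocIn`.  Bad sites: `BadE` for the stars of size `n` and `2 n`; `Flat i s u` is `FlatW`.
-/

set_option autoImplicit false

open MeasureTheory ProbabilityTheory Finset
open scoped Classical

namespace Pool.Agent.LPL

open Pool.Agent.OIP Pool.Agent.LP Pool.Agent.LPW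

theorem loc_exp {x : ℝ} (hx : 0 < x) : Real.exp (-x) ≤ 2 / x ^ 2 := by
  have h1 := Real.quadratic_le_exp_of_nonneg hx.le
  have h2 : 0 < x ^ 2 := by positivity
  rw [Real.exp_neg, inv_eq_one_div, div_le_div_iff₀ (Real.exp_pos x) h2]
  nlinarith

/-- the numbers: everything is small for large `n` -/
theorem loc_num (c : ℝ) (hc : 0 < c) : ∃ n₁ : ℕ, 1 ≤ n₁ ∧ ∀ n : ℕ, n₁ ≤ n →
    (n : ℝ) * (1 / (n : ℝ) ^ 4) ≤ 1 / 10 ^ 12 ∧ 1 / (n : ℝ) ^ 4 ≤ 1 / 10 ^ 12 ∧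
    (n : ℝ) * Real.exp (-c * n) ≤ 1 / 10 ^ 12 ∧ Real.exp (-c * n) ≤ 1 / 10 ^ 12 ∧
    Real.exp (-c * ((n + n : ℕ) : ℝ)) ≤ 1 / 10 ^ 12 ∧ Real.exp (-((n : ℝ) / 500000)) ≤ 1 / 10 ^ 12 := by
  obtain ⟨n₂, hn₂⟩ := exists_nat_ge (2 / (c ^ 2 * (1 / 10 ^ 12)))
  refine ⟨max (10 ^ 30) n₂, (by norm_num : 1 ≤ 10 ^ 30).trans (le_max_left _ _), fun n hn => ?_⟩
  have h1 : (10 ^ 30 : ℝ) ≤ n := by exact_mod_cast (le_max_left _ _).trans hn
  have h2 : (2 / (c ^ 2 * (1 / 10 ^ 12)) : ℝ) ≤ n :=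
    hn₂.trans (by exact_mod_cast (le_max_right _ _).trans hn)
  have hn0 : (0 : ℝ) < n := by linarith [show (0 : ℝ) < 10 ^ 30 by norm_num]
  have hn1 : (1 : ℝ) ≤ n := by linarith [show (1 : ℝ) ≤ 10 ^ 30 by norm_num]
  have hcn : 0 < c * n := by positivity
  have e1 : Real.exp (-c * n) ≤ 2 / (c * n) ^ 2 := by
    have h := loc_exp hcn
    rw [neg_mul]
    exact h
  have a1 : (n : ℝ) * Real.exp (-c * n) ≤ 1 / 10 ^ 12 := by
    refine (mul_le_mul_of_nonneg_left e1 hn0.le).trans ?_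
    have h3 : (n : ℝ) * (2 / (c * n) ^ 2) = 2 / (c ^ 2 * n) := by
      field_simp
    rw [h3]
    rw [div_le_iff₀ (by positivity)] at h2
    rw [div_le_iff₀ (by positivity)]
    nlinarith
  have a2 : Real.exp (-c * n) ≤ 1 / 10 ^ 12 := by
    have h3 := Real.exp_pos (-c * n)
    nlinarith
  have a3 : Real.exp (-c * ((n + n : ℕ) : ℝ)) ≤ 1 / 10 ^ 12 := by
    refine le_trans (Real.exp_le_exp.2 ?_) a2
    push_cast
    nlinarith
  have a4 : Real.exp (-((n : ℝ) / 500000)) ≤ 1 / 10 ^ 12 := by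
    have h := loc_exp (show (0 : ℝ) < n / 500000 by positivity)
    refine h.trans ?_
    rw [div_le_iff₀ (by positivity)]
    nlinarith
  have p3 : (10 ^ 12 : ℝ) ≤ (n : ℝ) ^ 3 := by
    have h4 : (1 : ℝ) ≤ (n : ℝ) ^ 2 := one_le_pow₀ hn1
    have h5 : (n : ℝ) ^ 3 = (n : ℝ) ^ 2 * n := by ring
    nlinarith
  have p4 : (10 ^ 12 : ℝ) ≤ (n : ℝ) ^ 4 := by
    have h5 : (n : ℝ) ^ 4 = (n : ℝ) ^ 3 * n := by ring
    nlinarith
  refine ⟨?_, ?_, a1, a2, a3, a4⟩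
  · have h3 : (n : ℝ) * (1 / (n : ℝ) ^ 4) = 1 / (n : ℝ) ^ 3 := by
      field_simp
    rw [h3]
    exact one_div_le_one_div_of_le (by norm_num) p3
  · exact one_div_le_one_div_of_le (by norm_num) p4

theorem loc_main : ∃ n₁ : ℕ, ∀ n : ℕ, n₁ ≤ n → ∃ N₁ : ℕ,
    ∀ (E : Type) [Fintype E] [DecidableEq E], N₁ ≤ Fintype.card E →
    ∀ ι : Fin n → E, Function.Injective ι →
    ∀ (Ω : Type) [MeasurableSpace Ω] (μ : Measure Ω) (W : Ω → SimpleGraph (V E)), MModel pc μ W →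
    ∃ (Flat : Fin 4 → Bool → Bs → Prop) (XS : Bs → Set (SimpleGraph (V E))), LocIn μ W ι Flat XS := by
  obtain ⟨c, n₀, hc, hsize⟩ := loc_size (1 / 10 ^ 5) (by norm_num)
  obtain ⟨n₁, hn₁, hnum⟩ := loc_num c hc
  refine ⟨max n₀ n₁, fun n hn => ?_⟩
  have hnn₀ : n₀ ≤ n := (le_max_left _ _).trans hn
  have hnn₁ : n₁ ≤ n := (le_max_right _ _).trans hn
  have hn1 : 1 ≤ n := hn₁.trans hnn₁
  obtain ⟨b1, b2, b3, b4, b5, b6⟩ := hnum n hnn₁
  have hn0 : (0 : ℝ) < n := by exact_mod_cast hn1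
  have hr : (0 : ℝ) < 1 / (n : ℝ) ^ 4 := by positivity
  obtain ⟨I₁, N₂, hI₁, hs₁⟩ := hsize n hnn₀ (1 / (n : ℝ) ^ 4) (1 / 10 ^ 21 / 2) hr (by norm_num)
  obtain ⟨I₂, N₃, hI₂, hs₂⟩ := hsize (n + n) (by omega) (1 / (n : ℝ) ^ 4) (1 / 10 ^ 21 / 2) hr
    (by norm_num)
  obtain ⟨N₄, hN₄⟩ := exists_nat_ge ((n : ℝ) ^ 2 * 10 ^ 12)
  refine ⟨max (2 * n + 2) (max N₄ (max N₂ N₃)), ?_⟩
  intro E _ _ hE ι hι Ω _ μ W hMod
  have hM := hMod.prob
  have hE0 : 2 * n + 2 ≤ Fintype.card E := (le_max_left _ _).trans hE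
  have hE4 : N₄ ≤ Fintype.card E := ((le_max_left _ _).trans (le_max_right _ _)).trans hE
  have hE2 : N₂ ≤ Fintype.card E :=
    (((le_max_left _ _).trans (le_max_right _ _)).trans (le_max_right _ _)).trans hE
  have hE3 : N₃ ≤ Fintype.card E :=
    (((le_max_right _ _).trans (le_max_right _ _)).trans (le_max_right _ _)).trans hE
  have hEpos : (0 : ℝ) < (Fintype.card E : ℝ) := by
    have : 0 < Fintype.card E := by omega
    exact_mod_cast this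
  have hN2 : 2 ≤ Fintype.card E := by omega
  have hNn : (n : ℝ) ^ 2 / (Fintype.card E : ℝ) ≤ 1 / 10 ^ 12 := by
    rw [div_le_iff₀ hEpos]
    have h1 : (N₄ : ℝ) ≤ Fintype.card E := by exact_mod_cast hE4
    linarith
  obtain ⟨ι₂, hι₂⟩ : ∃ ι₂ : Fin (n + n) → E, Function.Injective ι₂ := by
    have h1 : Fintype.card (Fin (n + n)) ≤ Fintype.card E := by
      rw [Fintype.card_fin]
      omega
    obtain ⟨f⟩ := Function.Embedding.nonempty_of_card_le h1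
    exact ⟨f, f.injective⟩
  obtain ⟨X₁, T₁, hd₁, hp₁, hg₁, ht₁⟩ := hs₁ E hE2 ι hι Ω μ W hMod
  obtain ⟨X₂, T₂, hd₂, hp₂, hg₂, ht₂⟩ := hs₂ E hE3 ι₂ hι₂ Ω μ W hMod
  set e₀ : ℝ := Real.exp (-c * n) with he₀
  set r : ℝ := 1 / (n : ℝ) ^ 4 with hrdef
  have he₀pos : 0 < e₀ := Real.exp_pos _
  have hρ : 2 / (n : ℝ) ^ 4 = 2 * r := by
    rw [hrdef]
    ring
  have hρ' : 0 ≤ r + 6 * e₀ + 2 * (2 * r) := by positivity
  have hδ : 2 * (n * (r + 6 * e₀ + 2 * (2 * r))) + ((n : ℝ) ^ 2 / (Fintype.card E : ℝ) +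
      ((r + 6 * Real.exp (-c * ((n + n : ℕ) : ℝ))) + 2 * Real.exp (-((n : ℝ) / 500000)))) +
      (r + 6 * e₀) ≤ 1 / 10 ^ 9 := by
    have h1 : 2 * ((n : ℝ) * (r + 6 * e₀ + 2 * (2 * r))) = 10 * (n * r) + 12 * (n * e₀) := by ring
    rw [h1]
    have h2 : (39 : ℝ) * (1 / 10 ^ 12) ≤ 1 / 10 ^ 9 := by norm_num
    linarith
  have hδ1 : 2 * (1 / 10 ^ 9 : ℝ) + (r + 6 * e₀ + 2 * (2 * r)) < 1 := by
    have h2 : 2 * (1 / 10 ^ 9 : ℝ) + 11 * (1 / 10 ^ 12) < 1 := by norm_num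
    linarith
  -- giants
  have hgiant : ∀ (G : SimpleGraph (V E)) (z : Bs) (τ : Prop), G ∉ X₁ z ∪ X₂ z →
      FlatT μ W ι τ (2 * r) z → ∃ x, IsG G ι z x := by
    intro G z τ hG hF
    have hG1 : G ∉ X₁ z := fun h => hG (Or.inl h)
    have hG2 : G ∉ X₂ z := fun h => hG (Or.inr h)
    exact loc_giant hM hn1 hι hI₁ hN2 hρ' (hg₁ G z hG1) hF hι₂ hI₂ (hg₂ G z hG2) hδ hδ1
  have hlink : ∀ (G : SimpleGraph (V E)) (z z' : Bs) (j : Fin 4) (t : Bool) (τ : Prop),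
      G ∉ X₁ z ∪ X₂ z → z' = z + uv j t → FlatT μ W ι τ (2 * r) z → FlatT μ W ι τ (2 * r) z' →
      ∀ x x', IsG G ι z x → IsG G ι z' x' → Cn G (Ov {z, z'}) x x' := by
    intro G z z' j t τ hG hz' hF hF' x x' hx hx'
    have hG1 : G ∉ X₁ z := fun h => hG (Or.inl h)
    exact loc_link hM hn1 hι hI₁ hN2 (hg₁ G z hG1) hF hz' hF' hx.2 hx'.2 hδ1
  refine ⟨fun i s u => FlatW (1 / 10 ^ 5) (2 * e₀) (r + 6 * e₀ + 2 * r) (2 * r) μ W ι T₁ I₁ i s u,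
    fun z => X₁ z ∪ X₂ z, ?_⟩
  constructor
  · -- xsDep
    intro z G H h
    exact or_congr (hd₁ z G H h) (hd₂ z G H h)
  · -- xsP
    intro z
    calc μ {ω | W ω ∈ X₁ z ∪ X₂ z} ≤ μ {ω | W ω ∈ X₁ z} + μ {ω | W ω ∈ X₂ z} :=
          measure_union_le {ω | W ω ∈ X₁ z} {ω | W ω ∈ X₂ z}
      _ ≤ ENNReal.ofReal (1 / 10 ^ 21 / 2) + ENNReal.ofReal (1 / 10 ^ 21 / 2) :=
          add_le_add (hp₁ z) (hp₂ z)
      _ = ENNReal.ofReal (1 / 10 ^ 21) := by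
          rw [← ENNReal.ofReal_add (by positivity) (by positivity)]
          congr 1
          ring
  · -- flat
    intro i s u ω A hA _ h2 hw
    rw [hρ] at hw
    have hG1 : W ω ∉ X₁ (u - uv i s) := fun h => h2 (Or.inl h)
    exact flat_of_wall hn1 hI₁ (hg₁ (W ω) _ hG1) hA hw
  · -- gO
    intro i s u ω hF hX
    exact hgiant (W ω) u True hX hF.out
  · -- gI
    intro i s u ω hF hX
    exact hgiant (W ω) (u - uv i s) False hX hF.inn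
  · -- lO
    intro i s u j t ω x x' _ hF hF' hX _ hx hx'
    exact hlink (W ω) u (u + uv j t) j t True hX rfl hF.out hF'.out x x' hx hx'
  · -- lI
    intro i s u j t ω x x' _ hF hF' hX _ hx hx'
    have h1 : u + uv j t - uv i s = u - uv i s + uv j t := by rw [sub_add_eq_add_sub]
    have h2 := hF'.inn
    rw [h1] at h2
    exact hlink (W ω) (u - uv i s) (u - uv i s + uv j t) j t False hX rfl hF.inn h2 x x' hx hx'
  · -- num
    intro i s u hF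
    refine (num_of_flat le_rfl hM hI₁ hF).trans ?_
    have h2 : (11 : ℝ) * (1 / 10 ^ 12) ≤ 1 / 10 ^ 4 := by norm_num
    linarith
  · -- lnk
    intro i s u j t hji hF hF'
    have hax : ax (Sum.inl (i, s) : Dir E) ≠ ax (Sum.inl (j, t) : Dir E) := by
      intro h
      exact hji (Sum.inl.inj h).symm
    have h1 := lnk_of_flat (ε := 1 / 10 ^ 5) (e₁ := 2 * e₀) (by positivity) (by
      have h2 : (2 : ℝ) * (1 / 10 ^ 12) ≤ 1 / 10 ^ 7 := by norm_num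
      linarith) hM hn1 hI₁ hF hF' (ht₁ _ _ _ hax)
    refine h1.trans ?_
    have h2 : (9 : ℝ) * (1 / 10 ^ 12) ≤ 1 / 10 ^ 4 := by norm_num
    linarith

end Pool.Agent.LPL
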