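import Pool.Agent.LPL.Defs
import Pool.Agent.LP.WTyp

/-!
# LPL: local input of the leak theorem (Part IV.3), one star

`FlatW`: flatness of a wall site (types of almost all stars at all centres on both sides, almost all stars at the centre
`(u - uv i s, ∅)` are typical and unlinked).  `numOK_of`: the numbers of an unlinked star.  `lnkOK_of`: reliable links.
-/

set_option autoImplicit false
set_option linter.unusedSectionVars false

open MeasureTheory ProbabilityTheory Finset
open scoped Classical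

namespace Pool.Agent.LPL

open Pool.Agent.OIP Pool.Agent.LP Pool.Agent.LPW
open Pool.LPH (fr fr_mono fr_or fr_le_add fr_le_add3 fr_nonneg)

section

variable {Ω D : Type} [MeasurableSpace Ω] [Fintype D] [DecidableEq D] {n : ℕ}

theorem uv_bs (i : Fin 4) (s : Bool) : uv i s = lmodel_bs (Sum.inl (i, s) : Dir D) := rfl

theorem sd_empty (A : Finset D) : symmDiff ∅ A = A := bot_symmDiff A

theorem flip_empty_snd (S : Finset D) (z : Bs) : flip S ((z, ∅) : V D) = (z, S) := by
  show (z, symmDiff ∅ S) = (z, S)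
  rw [sd_empty]

/-- corners of the plaquette at the inner centre -/
theorem cor_tf (u : Bs) (i j : Fin 4) (s t : Bool) (S : Finset D) :
    lam4 ((u - uv i s, S) : V D) (Sum.inl (i, s)) (Sum.inl (j, t)) (true, false) = (u, S) := by
  show (u - uv i s + uv i s, S) = (u, S)
  rw [sub_add_cancel]

theorem cor_ft (u : Bs) (i j : Fin 4) (s t : Bool) (S : Finset D) :
    lam4 ((u - uv i s, S) : V D) (Sum.inl (i, s)) (Sum.inl (j, t)) (false, true) =
      (u + uv j t - uv i s, S) := by
  show (u - uv i s + uv j t, S) = (u + uv j t - uv i s, S)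
  rw [sub_add_eq_add_sub]

theorem cor_tt (u : Bs) (i j : Fin 4) (s t : Bool) (S : Finset D) :
    lam4 ((u - uv i s, S) : V D) (Sum.inl (i, s)) (Sum.inl (j, t)) (true, true) = (u + uv j t, S) := by
  show (u - uv i s + uv i s + uv j t, S) = (u + uv j t, S)
  rw [sub_add_cancel]

/-- the window of a plaquette of base directions at `(u - uv i s, ∅)` -/
theorem winV_Wn (u : Bs) (i j : Fin 4) (s t : Bool) (ι : Fin n → D) (T : Finset D) :
    winV (lam4 ((u - uv i s, ∅) : V D) (Sum.inl (i, s)) (Sum.inl (j, t))) ι T ⊆ Wn u (vsL ι) := by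
  rintro v ⟨w, _, _, hw, rfl⟩
  refine ⟨?_, ?_⟩
  · intro k
    rw [lmodel_phi_fst]
    have h1 := abs_le.1 (lmodel_bs_abs (Sum.inl (i, s) : Dir D) k)
    have h2 := abs_le.1 (lmodel_bs_abs (Sum.inl (j, t) : Dir D) k)
    show u k - 3 ≤ (u - lmodel_bs (Sum.inl (i, s) : Dir D)) k + _ + _ ∧
      (u - lmodel_bs (Sum.inl (i, s) : Dir D)) k + _ + _ ≤ u k + 3
    rw [Pi.sub_apply]
    split_ifs <;> constructor <;> linarith [h1.1, h1.2, h2.1, h2.2]
  · have h1 : (phi (lam4 ((u - uv i s, ∅) : V D) (Sum.inl (i, s)) (Sum.inl (j, t))) w).2 = w.2 := by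
      rw [lmodel_phi]
      show symmDiff (symmDiff (symmDiff ∅ (if w.1.1 = true then (∅ : Finset D) else ∅))
        (if w.1.2 = true then (∅ : Finset D) else ∅)) w.2 = w.2
      rw [ite_self, ite_self, lmodel_sd, lmodel_sd, sd_empty]
    rw [h1]
    exact hw

theorem Wn_Ov (u : Bs) (K : Finset D) : Wn u K ⊆ (Ov (Ball u 3) : Set (V D)) := fun _ hv => hv.1

/-- another axis -/
def oth (i : Fin 4) : Fin 4 := i + 1

theorem oth_ne (i : Fin 4) : oth i ≠ i := by
  unfold oth
  omega

/-- the star is typical and the two layers are unlinked -/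
def Unl (ε e₁ : ℝ) (μ : Measure Ω) (W : Ω → SimpleGraph (V D)) (i : Fin 4) (s : Bool) (u : Bs) (ι : Fin n → D)
    (T : Finset D) : Prop :=
  (∃ U P, TypV ε e₁ μ W (u - uv i s, ∅) (Sum.inl (i, s)) (Sum.inl (oth i, true)) ι T U P) ∧
    UU ε e₁ μ W (u - uv i s, ∅) (Sum.inl (i, s)) (Sum.inl (oth i, true)) ι T (false, false) (true, false)

/-- flatness of the wall site `u` -/
structure FlatW (ε e₁ κ ρ : ℝ) (μ : Measure Ω) (W : Ω → SimpleGraph (V D)) (ι : Fin n → D) (T : ℕ → Finset D)
    (I : ℕ) (i : Fin 4) (s : Bool) (u : Bs) : Prop where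
  inn : FlatT μ W ι False ρ (u - uv i s)
  out : FlatT μ W ι True ρ u
  unl : avg (fun t : Fin I => avg (fun σ : Equiv.Perm D =>
    ind (¬ Unl ε e₁ μ W i s u (σ ∘ ι) ((T t).image σ)))) ≤ κ

theorem plaq_ff_tf : plaq.Adj (false, false) (true, false) := Or.inr ⟨by simp, rfl⟩
theorem plaq_ff_ft : plaq.Adj (false, false) (false, true) := Or.inl ⟨rfl, by simp⟩
theorem plaq_tf_tt : plaq.Adj (true, false) (true, true) := Or.inl ⟨rfl, by simp⟩

theorem flat_of_wall {ε e₁ θ ρ : ℝ} {μ : Measure Ω} {W : Ω → SimpleGraph (V D)} (hn : 1 ≤ n)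
    {ι : Fin n → D} {T : ℕ → Finset D} {I : ℕ} (hI : 1 ≤ I) {i : Fin 4} {s : Bool} {u : Bs}
    {G : SimpleGraph (V D)} (hW : GW ε e₁ θ μ W ι T I G (u - uv i s)) {A : Set (V D)}
    (hA : ClosedOn G (Ov (Ball u 3)) A) (hw : Wall μ W ι ρ A i s u) :
    FlatW ε e₁ (θ + ρ) ρ μ W ι T I i s u where
  inn := by
    intro O hO
    refine le_trans ?_ (hw O.2)
    unfold fr
    refine avg_mono fun σ => ind_mono fun h h' => h ?_
    have hO' : O = (u - Pool.LPG.uv i s, O.2) := Prod.ext hO rfl
    rw [hO']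
    exact ⟨fun h1 => absurd h1 h'.2.2.1, fun h1 => h1.elim⟩
  out := by
    intro O hO
    refine le_trans ?_ (hw O.2)
    unfold fr
    refine avg_mono fun σ => ind_mono fun h h' => h ?_
    have hO' : O = mv (Sum.inl (i, s)) (u - Pool.LPG.uv i s, O.2) := by
      refine Prod.ext ?_ rfl
      show O.1 = u - uv i s + uv i s
      rw [sub_add_cancel]
      exact hO
    rw [hO']
    exact ⟨fun _ => trivial, fun _ => h'.2.2.2⟩
  unl := by
    have hI' : Nonempty (Fin I) := ⟨⟨0, hI⟩⟩
    have hax : ax (Sum.inl (i, s) : Dir D) ≠ ax (Sum.inl (oth i, true) : Dir D) := by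
      intro h
      exact oth_ne i (Sum.inl.inj h).symm
    have h1 := hW (u - uv i s, ∅) rfl _ _ hax
    have h2 := hw ∅
    calc avg (fun t : Fin I => avg (fun σ : Equiv.Perm D =>
        ind (¬ Unl ε e₁ μ W i s u (σ ∘ ι) ((T t).image σ))))
        ≤ avg (fun t : Fin I => avg (fun σ : Equiv.Perm D =>
          ind (WBad ε e₁ μ W (u - uv i s, ∅) (Sum.inl (i, s)) (Sum.inl (oth i, true)) (σ ∘ ι)
            ((T t).image σ) G)) + ρ) := avg_mono fun t => ?_
      _ = avg (fun t : Fin I => avg (fun σ : Equiv.Perm D =>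
          ind (WBad ε e₁ μ W (u - uv i s, ∅) (Sum.inl (i, s)) (Sum.inl (oth i, true)) (σ ∘ ι)
            ((T t).image σ) G))) + ρ := by rw [avg_add, avg_const]
      _ ≤ θ + ρ := by linarith
    refine le_trans ?_ (add_le_add le_rfl h2)
    rw [← avg_add]
    refine avg_mono fun σ => ?_
    refine le_trans (ind_mono ?_) (Pool.LPH.ind_or_le _ _)
    intro h
    by_contra hcon
    push Not at hcon
    obtain ⟨hB, hwa⟩ := hcon
    apply h
    refine typ_bd hn hB (A := A) (hA.mono ?_) plaq_ff_tf ?_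
    · exact (winV_Wn u i (oth i) s true _ _).trans (Wn_Ov _ _)
    · rw [cor_tf]
      intro h3
      have h4 := hwa.2.1
      have h5 : mv (Sum.inl (i, s)) ((u - Pool.LPG.uv i s, ∅) : V D) = (u, ∅) := cor_tf u i i s s ∅
      rw [h5] at h4
      exact h4 (h3.1 hwa.1)

/-- the numbers of an unlinked star -/
theorem numOK_of {ε e₁ : ℝ} (hε : ε ≤ 1 / 10 ^ 5) {μ : Measure Ω} {W : Ω → SimpleGraph (V D)}
    (hM : IsProbabilityMeasure μ) {ι : Fin n → D} {T : Finset D} {i : Fin 4} {s : Bool} {u : Bs}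
    (h : Unl ε e₁ μ W i s u ι T) (hP : ¬ Pty μ W (u - uv i s, ∅) (vsL ι)) :
    NumOK μ W i s u (vsL ι) := by
  obtain ⟨hex, hU⟩ := h
  have hPP := (not_congr (typ_pty hM hex hU)).1 hP
  obtain ⟨hι, hsub, hTyp⟩ := typV_UU hex
  obtain ⟨j, j', hN⟩ := hTyp.mnum _ _ hU hPP
  set lam := lam4 ((u - uv i s, ∅) : V D) (Sum.inl (i, s)) (Sum.inl (oth i, true)) with hlam
  have hwin : winV lam ι T ⊆ Wn u (vsL ι) := winV_Wn u i (oth i) s true ι T
  have htf : lam (true, false) = (u, ∅) := cor_tf u i (oth i) s true ∅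
  have hff : lam (false, false) = (u - uv i s, ∅) := rfl
  have hcard : Fintype.card (Fin n) = n := Fintype.card_fin n
  have hleaf : ∀ k : Fin n, phi lam (xL ι (leaf ((false, false), k))) =
      In i s (u, (vsL ι).erase (ι k)) := fun k => flip_empty_snd _ _
  have hhub : phi lam (xL ι (hub (false, false))) = In i s (u, vsL ι) := flip_empty_snd _ _
  have hhub' : phi lam (xL ι (hub (true, false))) = (u, vsL ι) := by
    show flip (vsL ι) (lam (true, false)) = (u, vsL ι)
    rw [htf, flip_empty_snd]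
  -- adjacency of the star graph
  have hadj1 : ∀ (G : SimpleGraph (V D)) (k : Fin n),
      (starV lam ι T G).Adj (hub (false, false)) (leaf ((false, false), k)) ↔
        G.Adj (In i s (u, vsL ι)) (In i s (u, (vsL ι).erase (ι k))) := by
    intro G k
    show G.Adj (phi lam (xL ι (hub (false, false)))) (phi lam (xL ι (leaf ((false, false), k)))) ↔ _
    rw [hhub, hleaf]
  have hadj2 : ∀ G : SimpleGraph (V D),
      (starV lam ι T G).Adj (hub (false, false)) (hub (true, false)) ↔
        G.Adj (u, vsL ι) (In i s (u, vsL ι)) := by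
    intro G
    show G.Adj (phi lam (xL ι (hub (false, false)))) (phi lam (xL ι (hub (true, false)))) ↔ _
    rw [hhub, hhub', SimpleGraph.adj_comm]
  have haa : ∀ (G : SimpleGraph (V D)) (A : Set (V D)), ClosedOn G (Wn u (vsL ι)) A →
      ∀ (a : (Bool × Bool) × Fin n) (l : Bool × Bool), InMaj (starV lam ι T G) a l →
      (aa A (lam l) (vsL ι) ↔ phi lam (xL ι (leaf a)) ∈ A) := by
    intro G A hA a l ha
    refine aa_of_cluster lam hι T (hA.mono hwin) ?_
    unfold InMaj at ha
    rwa [hcard] at ha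
  refine ⟨ι j, mem_vsL ι j, ι j', mem_vsL ι j',
    {G | starV lam ι T G ∈ {G' | EvA (false, false) (true, false) j j' G'}},
    {G | starV lam ι T G ∈ {G' | SameMaj G' (false, false) (true, false)}},
    depOn_starV lam hι T hwin (depOn_EvA _ _ _ _), depOn_starV lam hι T hwin (depOn_SameMaj _ _),
    ?_, ?_, ?_, ?_, ?_, ?_, ?_, ?_⟩
  · rintro G ⟨h1, h2⟩ A hA h3
    have h4 := (haa G A hA _ _ h1).1 h3
    rw [hleaf] at h4
    exact h4
  · rintro G ⟨h1, h2⟩ A hA h3 h4
    apply h3
    have h5 := (haa G A hA _ _ h2).2 (by rw [hleaf]; exact h4)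
    rw [htf] at h5
    exact h5
  · rintro G ⟨a, h1, h2⟩ A hA h3
    have h4 := (haa G A hA _ _ h1).1 h3
    have h5 := (haa G A hA _ _ h2).2 h4
    rw [htf] at h5
    exact h5
  · have h1 := hN.a1
    have h2 : μ.real {ω | starV lam ι T (W ω) ∈ {G' | EvA (false, false) (true, false) j j' G'}} =
      μ.real {ω | W ω ∈ {G | starV lam ι T G ∈ {G' | EvA (false, false) (true, false) j j' G'}}} := rfl
    linarith
  · have h1 := hN.a2
    have h2 : μ.real {ω | starV lam ι T (W ω) ∈
        {G' | EvA (false, false) (true, false) j j' G' ∧ ¬ SameMaj G' (false, false) (true, false)}} =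
      μ.real {ω | W ω ∈ {G | starV lam ι T G ∈ {G' | EvA (false, false) (true, false) j j' G'}} \
        {G | starV lam ι T G ∈ {G' | SameMaj G' (false, false) (true, false)}}} := rfl
    linarith
  · have h1 := hN.b
    have h2 : {ω | starV lam ι T (W ω) ∈ {G' | EvA (false, false) (true, false) j j' G' ∧
        G'.Adj (hub (false, false)) (leaf ((false, false), j))}} =
      {ω | W ω ∈ {G | starV lam ι T G ∈ {G' | EvA (false, false) (true, false) j j' G'}} ∧
        (W ω).Adj (In i s (u, vsL ι)) (In i s (u, (vsL ι).erase (ι j)))} := by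
      ext ω
      exact and_congr_right fun _ => hadj1 (W ω) j
    rw [h2] at h1
    linarith
  · have h1 := hN.c
    have h2 : {ω | starV lam ι T (W ω) ∈ {G' | EvA (false, false) (true, false) j j' G' ∧
        G'.Adj (hub (false, false)) (leaf ((false, false), j'))}} =
      {ω | W ω ∈ {G | starV lam ι T G ∈ {G' | EvA (false, false) (true, false) j j' G'}} ∧
        (W ω).Adj (In i s (u, vsL ι)) (In i s (u, (vsL ι).erase (ι j')))} := by
      ext ω
      exact and_congr_right fun _ => hadj1 (W ω) j'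
    rw [h2] at h1
    linarith
  · have h1 := hN.d
    have h2 : {ω | starV lam ι T (W ω) ∈ {G' | EvA (false, false) (true, false) j j' G' ∧
        ¬ SameMaj G' (false, false) (true, false) ∧
        G'.Adj (hub (false, false)) (leaf ((false, false), j')) ∧
        ¬ G'.Adj (hub (false, false)) (hub (true, false))}} =
      {ω | W ω ∈ {G | starV lam ι T G ∈ {G' | EvA (false, false) (true, false) j j' G'}} \
        {G | starV lam ι T G ∈ {G' | SameMaj G' (false, false) (true, false)}} ∧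
        (W ω).Adj (In i s (u, vsL ι)) (In i s (u, (vsL ι).erase (ι j'))) ∧
        ¬ (W ω).Adj (u, vsL ι) (In i s (u, vsL ι))} := by
      ext ω
      constructor
      · rintro ⟨a1, a2, a3, a4⟩
        exact ⟨⟨a1, a2⟩, (hadj1 (W ω) j').1 a3, fun h => a4 ((hadj2 (W ω)).2 h)⟩
      · rintro ⟨⟨a1, a2⟩, a3, a4⟩
        exact ⟨a1, a2, (hadj1 (W ω) j').2 a3, fun h => a4 ((hadj2 (W ω)).1 h)⟩
    rw [h2] at h1
    linarith

/-- reliable links of a typical star -/
theorem lnkOK_of {ε e₁ : ℝ} (he₁ : 0 ≤ e₁) (he₁' : e₁ ≤ 1 / 10 ^ 7) {μ : Measure Ω}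
    {W : Ω → SimpleGraph (V D)} (hM : IsProbabilityMeasure μ) (hn : 1 ≤ n) {ι : Fin n → D}
    {T : Finset D} {i j : Fin 4} {s t : Bool} {u : Bs}
    (hex : ∃ U P, TypV ε e₁ μ W (u - uv i s, ∅) (Sum.inl (i, s)) (Sum.inl (j, t)) ι T U P)
    (p1 : ¬ Pty μ W (u - uv i s, ∅) (vsL ι)) (p2 : ¬ Pty μ W (u + uv j t - uv i s, ∅) (vsL ι))
    (p3 : Pty μ W (u, ∅) (vsL ι)) (p4 : Pty μ W (u + uv j t, ∅) (vsL ι)) :
    LnkOK μ W i s u (uv j t) (vsL ι) := by
  unfold LnkOK
  have h1 := prob_FailV (ε := ε) he₁ μ W ((u - uv i s, ∅) : V D) (Sum.inl (i, s)) (Sum.inl (j, t)) ι T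
  refine le_trans (measureReal_mono ?_ (measure_ne_top _ _)) (h1.trans he₁')
  intro ω hω
  by_contra hF
  apply hω
  have hB : ¬ WBad ε e₁ μ W ((u - uv i s, ∅) : V D) (Sum.inl (i, s)) (Sum.inl (j, t)) ι T (W ω) := by
    rintro (h | h)
    · exact h hex
    · exact hF h
  have hwin := winV_Wn u i j s t ι T
  constructor
  · intro A hA
    have h := link_free hM hn hB plaq_tf_tt (by
      rw [cor_tf, cor_tt]
      exact ⟨fun _ => p4, fun _ => p3⟩) (hA.mono hwin)
    rw [cor_tf, cor_tt] at h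
    exact h
  · intro A hA
    have h := link_free hM hn hB plaq_ff_ft (by
      rw [cor_ft]
      exact ⟨fun h => absurd h p1, fun h => absurd h p2⟩) (hA.mono hwin)
    rw [cor_ft] at h
    exact h

end

end Pool.Agent.LPL
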