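import Pool.Agent.LPL.LocA

/-!
# LPL: local input of the leak theorem (Part IV.3), averages over the stars and bad sites

`num_of_flat`, `lnk_of_flat`: fraction of the stars with wrong numbers / unreliable links.  `loc_size`: one size of
stars, bad sites as sets of graphs, off which `GW` holds (all centres); the fraction of typical stars is large at all
centres.
-/

set_option autoImplicit false
set_option linter.unusedSectionVars false

open MeasureTheory ProbabilityTheory Finset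
open scoped Classical

namespace Pool.Agent.LPL

open Pool.Agent.OIP Pool.Agent.LP Pool.Agent.LPW
open Pool.LPH (fr fr_mono fr_or fr_le_add fr_le_add3 fr_nonneg)

section

variable {Ω D : Type} [MeasurableSpace Ω] [Fintype D] [DecidableEq D] {n : ℕ}

theorem num_of_flat {ε e₁ κ ρ : ℝ} (hε : ε ≤ 1 / 10 ^ 5) {μ : Measure Ω} {W : Ω → SimpleGraph (V D)}
    (hM : IsProbabilityMeasure μ) {ι : Fin n → D} {T : ℕ → Finset D} {I : ℕ} (hI : 1 ≤ I) {i : Fin 4}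
    {s : Bool} {u : Bs} (h : FlatW ε e₁ κ ρ μ W ι T I i s u) :
    avg (fun σ : Equiv.Perm D => ind (¬ NumOK μ W i s u (KK ι σ))) ≤ κ + ρ := by
  have hI' : Nonempty (Fin I) := ⟨⟨0, hI⟩⟩
  have h2 : avg (fun σ : Equiv.Perm D => ind (¬ (Pty μ W (u - uv i s, ∅) (KK ι σ) ↔ False))) ≤ ρ :=
    h.inn (u - uv i s, ∅) rfl
  calc avg (fun σ : Equiv.Perm D => ind (¬ NumOK μ W i s u (KK ι σ)))
      = avg (fun _ : Fin I => avg (fun σ : Equiv.Perm D => ind (¬ NumOK μ W i s u (KK ι σ)))) :=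
        (avg_const _).symm
    _ ≤ avg (fun t : Fin I => avg (fun σ : Equiv.Perm D =>
        ind (¬ Unl ε e₁ μ W i s u (σ ∘ ι) ((T t).image σ))) + ρ) := avg_mono fun t => ?_
    _ = avg (fun t : Fin I => avg (fun σ : Equiv.Perm D =>
        ind (¬ Unl ε e₁ μ W i s u (σ ∘ ι) ((T t).image σ)))) + ρ := by rw [avg_add, avg_const]
    _ ≤ κ + ρ := by linarith [h.unl]
  refine le_trans ?_ (add_le_add le_rfl h2)
  rw [← avg_add]
  refine avg_mono fun σ => ?_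
  refine le_trans (ind_mono ?_) (ind_or_le _ _)
  intro h3
  by_contra hcon
  push Not at hcon
  obtain ⟨h4, h5⟩ := hcon
  refine h3 (numOK_of (ι := σ ∘ ι) hε hM h4 ?_)
  intro h6
  exact h5.1 h6

theorem lnk_of_flat {ε e₁ κ ρ η : ℝ} (he₁ : 0 ≤ e₁) (he₁' : e₁ ≤ 1 / 10 ^ 7) {μ : Measure Ω}
    {W : Ω → SimpleGraph (V D)} (hM : IsProbabilityMeasure μ) (hn : 1 ≤ n) {ι : Fin n → D}
    {T : ℕ → Finset D} {I : ℕ} (hI : 1 ≤ I) {i j : Fin 4} {s t : Bool} {u : Bs}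
    (h : FlatW ε e₁ κ ρ μ W ι T I i s u) (h' : FlatW ε e₁ κ ρ μ W ι T I i s (u + uv j t))
    (hty : avg (fun r : Fin I => avg (fun σ : Equiv.Perm D => ind (¬ ∃ U P,
      TypV ε e₁ μ W (u - uv i s, ∅) (Sum.inl (i, s)) (Sum.inl (j, t)) (σ ∘ ι) ((T r).image σ) U P))) ≤ η) :
    avg (fun σ : Equiv.Perm D => ind (¬ LnkOK μ W i s u (uv j t) (KK ι σ))) ≤ η + 4 * ρ := by
  have hI' : Nonempty (Fin I) := ⟨⟨0, hI⟩⟩
  have q1 : avg (fun σ : Equiv.Perm D => ind (¬ (Pty μ W (u - uv i s, ∅) (KK ι σ) ↔ False))) ≤ ρ :=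
    h.inn (u - uv i s, ∅) rfl
  have q2 : avg (fun σ : Equiv.Perm D =>
      ind (¬ (Pty μ W (u + uv j t - uv i s, ∅) (KK ι σ) ↔ False))) ≤ ρ :=
    h'.inn (u + uv j t - uv i s, ∅) rfl
  have q3 : avg (fun σ : Equiv.Perm D => ind (¬ (Pty μ W (u, ∅) (KK ι σ) ↔ True))) ≤ ρ :=
    h.out (u, ∅) rfl
  have q4 : avg (fun σ : Equiv.Perm D => ind (¬ (Pty μ W (u + uv j t, ∅) (KK ι σ) ↔ True))) ≤ ρ :=
    h'.out (u + uv j t, ∅) rfl
  calc avg (fun σ : Equiv.Perm D => ind (¬ LnkOK μ W i s u (uv j t) (KK ι σ)))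
      = avg (fun _ : Fin I => avg (fun σ : Equiv.Perm D =>
          ind (¬ LnkOK μ W i s u (uv j t) (KK ι σ)))) := (avg_const _).symm
    _ ≤ avg (fun r : Fin I => avg (fun σ : Equiv.Perm D => ind (¬ ∃ U P,
        TypV ε e₁ μ W (u - uv i s, ∅) (Sum.inl (i, s)) (Sum.inl (j, t)) (σ ∘ ι) ((T r).image σ) U P)) +
          4 * ρ) := avg_mono fun r => ?_
    _ = avg (fun r : Fin I => avg (fun σ : Equiv.Perm D => ind (¬ ∃ U P,
        TypV ε e₁ μ W (u - uv i s, ∅) (Sum.inl (i, s)) (Sum.inl (j, t)) (σ ∘ ι) ((T r).image σ) U P))) +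
          4 * ρ := by rw [avg_add, avg_const]
    _ ≤ η + 4 * ρ := by linarith
  have h5 : avg (fun σ : Equiv.Perm D => ind (¬ LnkOK μ W i s u (uv j t) (KK ι σ))) ≤
      avg (fun σ : Equiv.Perm D => ind (¬ ∃ U P,
        TypV ε e₁ μ W (u - uv i s, ∅) (Sum.inl (i, s)) (Sum.inl (j, t)) (σ ∘ ι) ((T r).image σ) U P)) +
      (avg (fun σ : Equiv.Perm D => ind (¬ (Pty μ W (u - uv i s, ∅) (KK ι σ) ↔ False))) +
      (avg (fun σ : Equiv.Perm D =>
        ind (¬ (Pty μ W (u + uv j t - uv i s, ∅) (KK ι σ) ↔ False))) +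
      (avg (fun σ : Equiv.Perm D => ind (¬ (Pty μ W (u, ∅) (KK ι σ) ↔ True))) +
      avg (fun σ : Equiv.Perm D => ind (¬ (Pty μ W (u + uv j t, ∅) (KK ι σ) ↔ True)))))) := by
    rw [← avg_add, ← avg_add, ← avg_add, ← avg_add]
    refine avg_mono fun σ => ?_
    have e1 : ∀ P1 P2 P3 P4 P5 : Prop, ind (P1 ∨ P2 ∨ P3 ∨ P4 ∨ P5) ≤
        ind P1 + (ind P2 + (ind P3 + (ind P4 + ind P5))) := by
      intro P1 P2 P3 P4 P5
      have a1 := ind_or_le P1 (P2 ∨ P3 ∨ P4 ∨ P5)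
      have a2 := ind_or_le P2 (P3 ∨ P4 ∨ P5)
      have a3 := ind_or_le P3 (P4 ∨ P5)
      have a4 := ind_or_le P4 P5
      linarith
    refine le_trans (ind_mono ?_) (e1 _ _ _ _ _)
    intro h3
    by_contra hcon
    push Not at hcon
    obtain ⟨c1, c2, c3, c4, c5⟩ := hcon
    refine h3 (lnkOK_of (ι := σ ∘ ι) he₁ he₁' hM hn c1 ?_ ?_ ?_ ?_)
    · intro h6
      exact c2.1 h6
    · intro h6
      exact c3.1 h6
    · exact c4.2 trivial
    · exact c5.2 trivial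
  linarith

end

/-- **One size of stars**, bad sites as sets of graphs. -/
theorem loc_size (ε : ℝ) (hε : 0 < ε) : ∃ (c : ℝ) (n₀ : ℕ), 0 < c ∧ ∀ m : ℕ, n₀ ≤ m → ∀ η δ : ℝ, 0 < η →
    0 < δ → ∃ I N₀ : ℕ, 1 ≤ I ∧
    ∀ (D : Type) [Fintype D] [DecidableEq D], N₀ ≤ Fintype.card D →
    ∀ ι : Fin m → D, Function.Injective ι →
    ∀ (Ω : Type) [MeasurableSpace Ω] (μ : Measure Ω) (W : Ω → SimpleGraph (V D)), MModel pc μ W →
    ∃ (X : Bs → Set (SimpleGraph (V D))) (T : ℕ → Finset D),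
      (∀ z, DepOn (Ov (Ball z 3)) (X z)) ∧
      (∀ z, μ {ω | W ω ∈ X z} ≤ ENNReal.ofReal δ) ∧
      (∀ G z, G ∉ X z → GW ε (2 * Real.exp (-c * m)) (η + 6 * Real.exp (-c * m)) μ W ι T I G z) ∧
      ∀ (O : V D) (e e' : Dir D), ax e ≠ ax e' →
        avg (fun t : Fin I => avg (fun σ : Equiv.Perm D => ind (¬ ∃ U P,
          TypV ε (2 * Real.exp (-c * m)) μ W O e e' (σ ∘ ι) ((T t).image σ) U P))) ≤ η := by
  obtain ⟨c, n₀, hc, htyp⟩ := typ_model ε hε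
  refine ⟨c, max 3 n₀, hc, fun m hm η δ hη hδ => ?_⟩
  have h3 : 3 ≤ m := (le_max_left _ _).trans hm
  obtain ⟨M, I, N₁, hM, hI, htyp'⟩ := htyp m ((le_max_right _ _).trans hm) η hη
  have hζ : 0 < 2 * Real.exp (-c * m) := by positivity
  obtain ⟨N₂, hbad⟩ := bad_small (m + M * 4 ^ I) (1 * I) (2 * Real.exp (-c * m)) δ hζ hδ
  refine ⟨I, max (m + M * 4 ^ I) (max N₁ N₂), hI, ?_⟩
  intro D _ _ hD ι hι Ω _ μ W hMod
  have := hMod.prob
  have hD0 : m + M * 4 ^ I ≤ Fintype.card D := (le_max_left _ _).trans hD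
  have hD1 : N₁ ≤ Fintype.card D := ((le_max_left _ _).trans (le_max_right _ _)).trans hD
  have hD2 : N₂ ≤ Fintype.card D := ((le_max_right _ _).trans (le_max_right _ _)).trans hD
  obtain ⟨T, hT⟩ := exists_far (vsL ι) M I (by rw [card_vsL hι]; exact hD0)
  set τ : Fin 1 → Fin I → Test D := fun _ t => vgTest ε (2 * Real.exp (-c * m)) μ W h3 ι hι (T t) with hτ
  refine ⟨fun z => BadE τ (η + 6 * Real.exp (-c * m)) z, T, fun z => bad_dep τ _ z, ?_, ?_, ?_⟩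
  · intro z
    refine hbad D hD2 Ω μ W hMod.meas hMod.indep 1 I τ le_rfl ?_ η (η + 6 * Real.exp (-c * m)) ?_ ?_ ?_ z
    · intro s t
      show (vsL ι ∪ T t).card ≤ _
      refine (Finset.card_union_le _ _).trans ?_
      rw [card_vsL hι, (hT t t.2).2]
      exact Nat.add_le_add_left (Nat.mul_le_mul_left M (Nat.pow_le_pow_right (by norm_num) t.2.le)) m
    · intro s t O e e' σ
      exact prob_FailV hζ.le μ W O e e' (σ ∘ ι) ((T t).image σ)
    · intro s O e e' he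
      exact htyp' D hD1 Ω μ W hMod O e e' he ι hι T hT
    · linarith
  · intro G z hG O hO e e' he
    by_contra hcon
    push Not at hcon
    exact hG ⟨O, hO, e, e', he, 0, hcon⟩
  · intro O e e' he
    exact htyp' D hD1 Ω μ W hMod O e e' he ι hι T hT

end Pool.Agent.LPL
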