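import Pool.Agent.LPL.Loc

/-!
# LPL: IV.3, the local input for a general model (helper38)

`loc_main` is proved in Loc.lean.
-/

set_option autoImplicit false
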