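import Pool.Agent.LPL.Lo
import Pool.Agent.LPL.LocMain

/-!
# LPL: the leak theorem (statement of LP.VLeak.leak_main)

`n₁ = max 2 (loc_main)`, `N₁ = N₁(loc_main) + 12 n + 3`.  Choose `a : Fin 3 → D` injective, `E = {d // ∀ y, d ≠ a y}`,
`j = Subtype.val`, `ι' : Fin n → E` injective (`n ≤ card E`).  Every sheet is a model for `p`, hence for `pc`
(`sheet_model`, monotonicity): `loc_main` gives `Flat c`, `XS c`.  `l = min (5/10^6) ((1/5)^8 (p - pc)/20000)`
(at most `1/2`), `k₁ = m₀ + 3` with `m₀` from `bd_small` for `ε = l`.  For `k = m + 2`: `E = EvE ..`, `evE_meas`;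
non-flat case `leak_nonflat`, flat case `pos_exists`, `leak_flat`.  For `ω ∈ EvE` and `A` closed everywhere the
conclusion is the definition.
-/

set_option autoImplicit false

open MeasureTheory
open scoped Classical

namespace Pool.Agent.LPL

open Pool.Agent.OIP Pool.Agent.LP Pool.Agent.LPW

private theorem main_card {D : Type} [Fintype D] [DecidableEq D] (a : Fin 3 → D)
    (ha : Function.Injective a) :
    Fintype.card D = Fintype.card {d : D // ∀ y, d ≠ a y} + 3 := by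
  have h1 : Fintype.card {d : D // ∀ y, d ≠ a y} =
      ((Finset.univ : Finset D).filter (fun d => ∀ y, d ≠ a y)).card := Fintype.card_subtype _
  have h2 : ((Finset.univ : Finset D).filter (fun d => ¬ ∀ y, d ≠ a y)) =
      (Finset.univ : Finset (Fin 3)).image a := by
    ext d
    simp only [Finset.mem_filter, Finset.mem_univ, true_and, Finset.mem_image]
    constructor
    · intro h
      by_contra hc
      exact h fun y hy => hc ⟨y, hy.symm⟩
    · rintro ⟨y, rfl⟩ h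
      exact h y rfl
  have h3 := Finset.card_filter_add_card_filter_not (s := (Finset.univ : Finset D))
    (fun d => ∀ y, d ≠ a y)
  rw [h2, Finset.card_image_of_injective _ ha] at h3
  simp only [Finset.card_univ, Fintype.card_fin] at h3
  rw [h1, ← h3]

theorem leak_main' : ∃ n₁ : ℕ, ∀ n : ℕ, n₁ ≤ n → ∃ N₁ : ℕ,
    ∀ (D : Type) [Fintype D] [DecidableEq D], N₁ ≤ Fintype.card D →
    ∀ ι : Fin n → D, Function.Injective ι →
    ∀ p : ℝ, pc < p →
    ∀ (Ω : Type) [MeasurableSpace Ω] (μ : Measure Ω) (W : Ω → SimpleGraph (V D)), MModel p μ W →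
    ∀ X : (Fin 4 → ℤ) → Set Ω, (∀ z, MeasurableSet[FV W (Pool.LPG.Ball z 3)] (X z)) →
      (∀ z, μ (X z) ≤ ENNReal.ofReal (1 / 10 ^ 21)) →
    ∃ l : ℝ, 0 < l ∧ ∃ k₁ : ℕ, ∀ k, k₁ ≤ k → ∀ (i : Fin 4) (s : Bool) (c : ℤ) (Y : Fin 4 → ℤ),
      Y i = c / 100 ^ k →
      ∃ E : Set Ω, MeasurableSet[FV W (Pool.LPG.RegE k Y)] E ∧ ENNReal.ofReal l ≤ μ E ∧
        ∀ ω ∈ E, ∀ A : Set (V D), ClosedA (W ω) A →
          ∃ u, Pool.LPG.anc k u = Y ∧ u i = c ∧
            Pool.LPG.S (Pool.LPG.XX X ω) k Set.univ 0 u ∧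
            Pool.LPG.S (Pool.LPG.XX X ω) k Set.univ 0 (u - Pool.LPG.uv i s) ∧
            ¬ Wall μ W ι (1 / (n : ℝ) ^ 4) A i s u := by
  obtain ⟨n₀, hloc⟩ := loc_main
  refine ⟨max 2 n₀, fun n hn => ?_⟩
  have hn2 : 2 ≤ n := (le_max_left _ _).trans hn
  obtain ⟨N₀, hN₀⟩ := hloc n ((le_max_right _ _).trans hn)
  refine ⟨N₀ + 12 * n + 3, ?_⟩
  intro D _ _ hD ι hι p hp Ω _ μ W hM X hX hXp
  -- the active directions
  obtain ⟨⟨a, ha⟩⟩ : Nonempty (Fin 3 ↪ D) := by
    apply Function.Embedding.nonempty_of_card_le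
    rw [Fintype.card_fin]
    omega
  have hcard := main_card a ha
  obtain ⟨⟨ι', hι'⟩⟩ : Nonempty (Fin n ↪ {d : D // ∀ y, d ≠ a y}) := by
    apply Function.Embedding.nonempty_of_card_le
    rw [Fintype.card_fin]
    omega
  have hs : Split (Subtype.val : {d : D // ∀ y, d ≠ a y} → D) a :=
    ⟨Subtype.val_injective, ha, fun x y => x.2 y, hcard⟩
  have hE : 12 * n ≤ Fintype.card {d : D // ∀ y, d ≠ a y} := by omega
  have hmod : ∀ c : Cb, MModel pc μ
      (fun ω => sht (Subtype.val : {d : D // ∀ y, d ≠ a y} → D) a c (W ω)) := by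
    intro c
    have h := sheet_model hs c hM
    exact ⟨h.prob, h.meas, h.indep, fun v d => hp.le.trans (h.edge v d), h.latt⟩
  have hex : ∀ c : Cb, ∃ (Flat : Fin 4 → Bool → Bs → Prop)
      (XS : Bs → Set (SimpleGraph (V {d : D // ∀ y, d ≠ a y}))), LocIn μ
        (fun ω => sht (Subtype.val : {d : D // ∀ y, d ≠ a y} → D) a c (W ω)) ι' Flat XS := fun c =>
    hN₀ {d : D // ∀ y, d ≠ a y} (by omega) ι' hι' Ω μ _ (hmod c)
  choose Flat XS hL using hex
  obtain ⟨l, hl⟩ : ∃ l : ℝ, l = min (5 / 10 ^ 6) ((1 / 5) ^ 8 * (p - pc) / 20000) := ⟨_, rfl⟩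
  have hl0 : 0 < l := by
    rw [hl]
    apply lt_min (by norm_num)
    have : 0 < p - pc := by linarith
    positivity
  have hl1 : l ≤ 1 / 2 := by
    rw [hl]
    exact (min_le_left _ _).trans (by norm_num)
  obtain ⟨m₀, hm₀⟩ := bd_small hs hM hX hXp (fun c z => (hL c).xsDep z) (fun c z => (hL c).xsP z)
    l hl0
  refine ⟨l, hl0, m₀ + 3, ?_⟩
  intro k hk i s ht Y hY
  obtain ⟨m, rfl⟩ : ∃ m, k = m + 2 := ⟨k - 2, by omega⟩
  have hprob := hM.prob
  refine ⟨EvE μ W ι X i s ht (m + 2) Y, evE_meas hM ι hX i s ht (m + 2) (by omega) Y hY, ?_, ?_⟩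
  · have hreal : l ≤ μ.real (EvE μ W ι X i s ht (m + 2) Y) := by
      by_cases hf : ∃ (c0 : Cb) (u0 : Bs), anc (m + 2) u0 = Y ∧ u0 i = ht ∧ ¬ Flat c0 i s u0
      · obtain ⟨c0, u0, h1, h2, h3⟩ := hf
        exact hl1.trans (leak_nonflat hs hE hM hι hι' hL hX hXp i s ht (m + 2) (by omega) Y u0 h1
          h2 c0 h3)
      · push Not at hf
        obtain ⟨q, hq, rfl, rfl, rfl, rfl, rfl⟩ := pos_exists i s ht m (by omega) Y hY
        have hflat : ∀ c, AllFlat q (Flat c) := fun c u hu hui => hf c u hu hui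
        have hB : μ.real (Bd (Xtot W (Subtype.val : {d : D // ∀ y, d ≠ a y} → D) a X XS) q) ≤
            min (5 / 10 ^ 6) ((1 / 5) ^ 8 * (p - pc) / 20000) := by
          rw [← hl]
          exact hm₀ q (by omega)
        rw [hl]
        exact leak_flat hq hs hE hn2 hp hM hι hι' hL hflat X hB
    rw [ENNReal.ofReal_le_iff_le_toReal (measure_ne_top μ _)]
    exact hreal
  · intro ω hω A hA
    exact hω A (fun u _ v _ huv => hA u v huv)

end Pool.Agent.LPL
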