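import Pool.Agent.LPL.Geo

/-!
# LPL: wall-good sets: from one sound pair to all sound sites of `Y2`, and on to `v` (deterministic, one sheet)

`mg_of_pair`: `wall_giants` at `u1` and `spread_out`, `spread_in` with `k = m`, `y = Y2`, `y = q.low m Y2`,
`R = Shs q K` (`away1`, `ball_sub`, `anc_out`; the cells `Y2`, `low m Y2` lie within `Y1`, `low (m+1) Y1`: `par_lev`).
`mg_to_v`: `Mg` gives the statement at `u2` (soundness below `m + 1` implies soundness below `m`: `S_comp`), then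
`spread_out`, `spread_in` with `k = m + 1`, `y = Y1`, `y = q.low (m + 1) Y1`.
`hs_of`: from `v` to `us` by the 8 links, all in `Wn (v + r e_f) K ⊆ Shs q K`; at `v`: `isG_mem` with `O = (v, ∅)`
and `O = In (v, ∅)`.
-/

set_option autoImplicit false

open MeasureTheory
open scoped Classical

namespace Pool.Agent.LPL

open Pool.Agent.OIP Pool.Agent.LP Pool.Agent.LPW

variable {Ω E : Type} [MeasurableSpace Ω] [Fintype E] [DecidableEq E] {n : ℕ}

theorem mga_mono {G : SimpleGraph (V E)} {R R' A : Set (V E)} (h : ClosedOn G R A) (hR : R' ⊆ R) :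
    ClosedOn G R' A := fun u hu v hv => h u (hR hu) v (hR hv)

theorem mga_ball (u : Bs) : u ∈ Ball u 3 := by
  intro l
  constructor <;> linarith

theorem mga_abs (i : Fin 4) (s : Bool) (l : Fin 4) : -1 ≤ uv i s l ∧ uv i s l ≤ 1 := by
  by_cases hl : l = i
  · subst hl
    have h1 : uv l s l = Pool.LPG.sg s := Pool.LPG.uv_same l s
    rw [h1]
    cases s
    · rw [Pool.LPG.sg_false]; norm_num
    · rw [Pool.LPG.sg_true]; norm_num
  · have h1 : uv i s l = 0 := Pool.LPG.uv_ne s hl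
    rw [h1]
    norm_num

theorem mga_ball_in (u : Bs) (i : Fin 4) (s : Bool) : u - uv i s ∈ Ball u 3 := by
  intro l
  have h := mga_abs i s l
  rw [Pi.sub_apply]
  constructor <;> linarith [h.1, h.2]

theorem mga_ball_out (z : Bs) (i : Fin 4) (s : Bool) : z ∈ Ball (z + uv i s) 3 := by
  intro l
  have h := mga_abs i s l
  rw [Pi.add_apply]
  constructor <;> linarith [h.1, h.2]

theorem mga_ball_sub {q : Pos} (h : PosOK q) {u : Bs} (hu : anc (q.m + 2) u = q.Y) :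
    Ball u 3 ⊆ RegE (q.m + 2) q.Y := by
  apply ball_sub h u hu 3
  have : (1 : ℤ) ≤ 100 ^ (q.m + 2) := one_le_pow₀ (by norm_num)
  linarith

/-- ancestors -/
theorem mga_anc1 {q : Pos} (h : PosOK q) {u : Bs} (hu : anc q.m u = q.Y2) :
    anc (q.m + 1) u = q.Y1 := by
  have h1 : anc (q.m + 1) u = Pool.LPG.par (anc q.m u) := Pool.LPG.anc_succ q.m u
  rw [h1, hu, h.parY2]

theorem mga_anc2 {q : Pos} (h : PosOK q) {u : Bs} (hu : anc (q.m + 1) u = q.Y1) :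
    anc (q.m + 2) u = q.Y := by
  have h1 : anc (q.m + 2) u = Pool.LPG.par (anc (q.m + 1) u) := Pool.LPG.anc_succ (q.m + 1) u
  rw [h1, hu, h.parY1]

/-- fibres near the cell `Y1` are in `Shs` -/
theorem mga_ov {q : Pos} (h : PosOK q) {u : Bs} (hu : anc (q.m + 1) u = q.Y1) {z : Bs}
    (hz : z ∈ Ball u 3) (K : Finset E) : (Ov {z} : Set (V E)) ⊆ Shs q K := by
  intro v hv
  have hv' : v.1 = z := hv
  refine ⟨?_, ?_⟩
  · rw [hv']
    exact mga_ball_sub h (mga_anc2 h hu) hz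
  · rintro ⟨h1, -⟩
    have h2 := away1 h u hu z hz
    rw [hv'] at h1
    rcases h1 with h1 | h1
    · exact h2.1 h1
    · exact h2.2 h1

theorem mga_sound {X : Set Bs} {m : ℕ} {u : Bs} (h : Snd X (m + 1) Set.univ 0 u) :
    Snd X m Set.univ 0 u :=
  ((Pool.LPG.S_comp X Set.univ (Nat.le_succ m) m 0 (by omega) u).1 h).1

theorem mg_of_pair {q : Pos} (h : PosOK q) {μ : Measure Ω} {W : Ω → SimpleGraph (V E)} {ι : Fin n → E} (hn : 2 ≤ n)
    {Flat : Fin 4 → Bool → Bs → Prop} {XS : Bs → Set (SimpleGraph (V E))} (hL : LocIn μ W ι Flat XS)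
    (hflat : AllFlat q Flat) {ω : Ω} {A : Set (V E)} {K : Finset E} (hA : ClosedOn (W ω) (Shs q K) A)
    (hb : q.Y2 ∉ Pool.LPG.Bad {z | W ω ∈ XS z} q.m) (hb' : q.low q.m q.Y2 ∉ Pool.LPG.Bad {z | W ω ∈ XS z} q.m)
    (u1 : Bs) (hu : anc q.m u1 = q.Y2) (hi : u1 q.i = q.ht) (hs : Snd {z | W ω ∈ XS z} q.m Set.univ 0 u1)
    (hs' : Snd {z | W ω ∈ XS z} q.m Set.univ 0 (u1 - uv q.i q.s))
    (hW : Wall μ W ι (2 / (n : ℝ) ^ 4) A q.i q.s u1) : Mg q ι XS (W ω) A := by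
  have hu' := mga_anc1 h hu
  obtain ⟨g1, g2⟩ := wall_giants (G := W ω) hn hW
    (mga_mono hA (mga_ov h hu' (mga_ball u1) K))
    (mga_mono hA (mga_ov h hu' (mga_ball_in u1 q.i q.s) K))
  obtain ⟨e1, e2⟩ := anc_in (q := q) q.m q.Y2 u1 h.Y2i hu hi
  refine ⟨?_, ?_⟩
  · intro u hau hiu hsu
    refine spread_out h hL hflat hA (k := q.m) h.m1 hb ?_ u1 u hu hau hi hiu hs hsu g1
    intro w hw _
    exact ⟨mga_anc2 h (mga_anc1 h hw), mga_ov h (mga_anc1 h hw) (mga_ball w) K⟩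
  · intro z haz hiz hsz
    refine spread_in h hL hflat hA (k := q.m) h.m1 hb' ?_ (u1 - uv q.i q.s) z e1 haz e2 hiz hs' hsz g2
    intro w hw hwi
    have h1 := (anc_out (q := q) q.m q.Y2 w h.Y2i hw hwi).1
    exact ⟨mga_anc2 h (mga_anc1 h h1), mga_ov h (mga_anc1 h h1) (mga_ball_out w q.i q.s) K⟩

theorem mg_to_v {q : Pos} (h : PosOK q) {μ : Measure Ω} {W : Ω → SimpleGraph (V E)} {ι : Fin n → E}
    {Flat : Fin 4 → Bool → Bs → Prop} {XS : Bs → Set (SimpleGraph (V E))} (hL : LocIn μ W ι Flat XS)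
    (hflat : AllFlat q Flat) {ω : Ω} {A : Set (V E)} {K : Finset E} (hA : ClosedOn (W ω) (Shs q K) A)
    (hM : Mg q ι XS (W ω) A) (hb : q.Y1 ∉ Pool.LPG.Bad {z | W ω ∈ XS z} (q.m + 1))
    (hb' : q.low (q.m + 1) q.Y1 ∉ Pool.LPG.Bad {z | W ω ∈ XS z} (q.m + 1))
    (hs1 : Snd {z | W ω ∈ XS z} (q.m + 1) Set.univ 0 q.u2)
    (hs2 : Snd {z | W ω ∈ XS z} (q.m + 1) Set.univ 0 (q.u2 - uv q.i q.s))
    (hs3 : Snd {z | W ω ∈ XS z} (q.m + 1) Set.univ 0 q.v)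
    (hs4 : Snd {z | W ω ∈ XS z} (q.m + 1) Set.univ 0 (q.v - uv q.i q.s)) :
    (∀ x, IsG (W ω) ι q.v x → x ∉ A) ∧ (∀ x, IsG (W ω) ι (q.v - uv q.i q.s) x → x ∈ A) := by
  have a1 := mga_anc1 h h.u2a
  obtain ⟨e1, e2⟩ := anc_in (q := q) q.m q.Y2 q.u2 h.Y2i h.u2a h.u2i
  obtain ⟨e3, e4⟩ := anc_in (q := q) (q.m + 1) q.Y1 q.u2 h.Y1i a1 h.u2i
  obtain ⟨e5, e6⟩ := anc_in (q := q) (q.m + 1) q.Y1 q.v h.Y1i h.va h.vi
  refine ⟨?_, ?_⟩
  · refine spread_out h hL hflat hA (k := q.m + 1) (by omega) hb ?_ q.u2 q.v a1 h.va h.u2i h.vi hs1 hs3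
      (hM.1 q.u2 h.u2a h.u2i (mga_sound hs1))
    intro w hw _
    exact ⟨mga_anc2 h hw, mga_ov h hw (mga_ball w) K⟩
  · refine spread_in h hL hflat hA (k := q.m + 1) (by omega) hb' ?_ (q.u2 - uv q.i q.s)
      (q.v - uv q.i q.s) e3 e5 e4 e6 hs2 hs4
      (hM.2 (q.u2 - uv q.i q.s) e1 e2 (mga_sound hs2))
    intro w hw hwi
    have h1 := (anc_out (q := q) (q.m + 1) q.Y1 w h.Y1i hw hwi).1
    exact ⟨mga_anc2 h h1, mga_ov h h1 (mga_ball_out w q.i q.s) K⟩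

/-- the giant of `z` exists and contains the majority of the star `(O, K)` -/
def Rgl (G : SimpleGraph (V E)) (ι : Fin n → E) (z : Bs) (O : V E) (K : Finset E) : Prop :=
  ∀ x, IsG G ι z x → aa (Cl G {z} x) O K

theorem hs_of {q : Pos} (h : PosOK q) {μ : Measure Ω} {W : Ω → SimpleGraph (V E)} {ι : Fin n → E}
    {Flat : Fin 4 → Bool → Bs → Prop} {XS : Bs → Set (SimpleGraph (V E))} (hL : LocIn μ W ι Flat XS)
    (hflat : AllFlat q Flat) {ω : Ω} {K : Finset E}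
    (hb : q.Y1 ∉ Pool.LPG.Bad {z | W ω ∈ XS z} (q.m + 1))
    (hb' : q.low (q.m + 1) q.Y1 ∉ Pool.LPG.Bad {z | W ω ∈ XS z} (q.m + 1))
    (hs1 : Snd {z | W ω ∈ XS z} (q.m + 1) Set.univ 0 q.u2)
    (hs2 : Snd {z | W ω ∈ XS z} (q.m + 1) Set.univ 0 (q.u2 - uv q.i q.s))
    (hs3 : Snd {z | W ω ∈ XS z} (q.m + 1) Set.univ 0 q.v)
    (hs4 : Snd {z | W ω ∈ XS z} (q.m + 1) Set.univ 0 (q.v - uv q.i q.s))
    (hr : Rgl (W ω) ι q.v (q.v, ∅) K) (hr' : Rgl (W ω) ι (q.v - uv q.i q.s) (In q.i q.s (q.v, ∅)) K)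
    (hl : ∀ r : ℕ, r < 8 → Same (W ω) (Wn (q.v + (r : ℤ) • uv q.f true) K) (q.v + (r : ℤ) • uv q.f true, ∅) K
        (q.v + (r : ℤ) • uv q.f true + uv q.f true, ∅) K ∧
      Same (W ω) (Wn (q.v + (r : ℤ) • uv q.f true) K) (In q.i q.s (q.v + (r : ℤ) • uv q.f true, ∅)) K
        (In q.i q.s (q.v + (r : ℤ) • uv q.f true + uv q.f true, ∅)) K) :
    W ω ∈ HS q ι XS K := by
  intro A hA hM
  obtain ⟨g1, g2⟩ := mg_to_v h hL hflat hA hM hb hb' hs1 hs2 hs3 hs4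
  have hflv : Flat q.i q.s q.v := hflat q.v (mga_anc2 h h.va) h.vi
  have hx3 : W ω ∉ XS q.v := Pool.LPG.S_not_bad' (k := 0) (by omega : 0 < q.m + 1) hs3
  have hx4 : W ω ∉ XS (q.v - uv q.i q.s) :=
    Pool.LPG.S_not_bad' (k := 0) (by omega : 0 < q.m + 1) hs4
  obtain ⟨x0, hx0⟩ := hL.gO q.i q.s q.v ω hflv hx3
  obtain ⟨x1, hx1⟩ := hL.gI q.i q.s q.v ω hflv hx4
  have m0 := isG_mem (mga_mono hA (mga_ov h h.va (mga_ball q.v) K)) (O := (q.v, ∅)) rfl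
    (hr x0 hx0) hx0.1
  have m1 := isG_mem (mga_mono hA (mga_ov h h.va (mga_ball_in q.v q.i q.s) K))
    (O := In q.i q.s (q.v, ∅)) rfl (hr' x1 hx1) hx1.1
  have base : aa A (In q.i q.s (q.v, ∅)) K ∧ ¬ aa A (q.v, ∅) K :=
    ⟨m1.1 (g2 x1 hx1), fun hc => g1 x0 hx0 (m0.2 hc)⟩
  have key : ∀ r : ℕ, r ≤ 8 → aa A (In q.i q.s (q.v + (r : ℤ) • uv q.f true, ∅)) K ∧
      ¬ aa A (q.v + (r : ℤ) • uv q.f true, ∅) K := by
    intro r
    induction r with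
    | zero =>
      intro _
      have e0 : q.v + ((0 : ℕ) : ℤ) • uv q.f true = q.v := by
        rw [Nat.cast_zero, zero_smul, add_zero]
      rw [e0]
      exact base
    | succ r ih =>
      intro hr8
      obtain ⟨i1, i2⟩ := ih (by omega)
      obtain ⟨s1, s2⟩ := hl r (by omega)
      have hW : (Wn (q.v + (r : ℤ) • uv q.f true) K : Set (V E)) ⊆ Shs q K := by
        intro v hv
        refine ⟨mga_ball_sub h (h.chain (r : ℤ) (by positivity) (by exact_mod_cast (by omega : r ≤ 8)))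
          hv.1, fun hc => hv.2 hc.2⟩
      have e1 : q.v + ((r + 1 : ℕ) : ℤ) • uv q.f true =
          q.v + (r : ℤ) • uv q.f true + uv q.f true := by
        rw [Nat.cast_add, Nat.cast_one, add_smul, one_smul, add_assoc]
      rw [e1]
      have t1 := s1 A (mga_mono hA hW)
      have t2 := s2 A (mga_mono hA hW)
      exact ⟨t2.1 i1, fun hc => i2 (t1.2 hc)⟩
  have h8 := key 8 le_rfl
  have e8 : q.v + ((8 : ℕ) : ℤ) • uv q.f true = q.us := by
    rw [h.us_eq]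
    rfl
  rw [e8] at h8
  exact h8

end Pool.Agent.LPL
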