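import Pool.Agent.LPL.Defs

/-!
# LPL: soundness depends only on the bad sites nearby (deterministic)

`Bad X k y` depends on `X` inside `{x | ∀ i, 100^k y i - 100^k + 1 ≤ x i ≤ 100^k y i + 2 * 100^k - 2}` (induction on
`k`, as in `reg_sub`); `Snd X K univ k y` by induction on `K - k` (`S_step`), as in `meas_S`: the cells
`z ∈ Big (par ..)` used are within distance `2 * 100^K - 3` of the cell.  If `K = k` there is no dependence.
-/

set_option autoImplicit false

namespace Pool.Agent.LPL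

open Pool.Agent.OIP Pool.Agent.LP

/-- sites on which soundness of the vertex `y` with respect to the levels below `K` depends -/
def RegX (K : ℕ) (y : Bs) : Set Bs := {x | ∀ i, y i - 2 * 100 ^ K + 3 ≤ x i ∧ x i ≤ y i + 2 * 100 ^ K - 3}

/-- cells of level `k` being bad depends on nearby sites -/
private theorem sloc_bad (X X' : Set Bs) (k : ℕ) : ∀ z : Bs,
    (∀ x : Bs, (∀ i, 100 ^ k * z i - 100 ^ k + 1 ≤ x i ∧ x i ≤ 100 ^ k * z i + 2 * 100 ^ k - 2) →
      (x ∈ X ↔ x ∈ X')) → (z ∈ Pool.LPG.Bad X k ↔ z ∈ Pool.LPG.Bad X' k) := by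
  induction k with
  | zero =>
    intro z h
    refine h z fun i => ?_
    constructor <;> norm_num
  | succ k ih =>
    intro Y h
    have hp : (1 : ℤ) ≤ 100 ^ k := one_le_pow₀ (by norm_num)
    have key : ∀ z ∈ Pool.LPG.Big Y, (z ∈ Pool.LPG.Bad X k ↔ z ∈ Pool.LPG.Bad X' k) := by
      intro z hz
      refine ih z fun x hx => h x fun i => ?_
      have h1 := hz i
      have h2 := hx i
      have e1 : (100 : ℤ) ^ (k + 1) = 100 * 100 ^ k := by ring
      rw [e1]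
      have a1 : 100 ^ k * (100 * Y i - 16) ≤ 100 ^ k * z i := mul_le_mul_of_nonneg_left h1.1 (by linarith)
      have a2 : 100 ^ k * z i ≤ 100 ^ k * (100 * Y i + 115) :=
        mul_le_mul_of_nonneg_left (by linarith [h1.2]) (by linarith)
      constructor
      · nlinarith [h2.1]
      · nlinarith [h2.2]
    show (∃ y ∈ Pool.LPG.Bad X k, ∃ y' ∈ Pool.LPG.Bad X k, y ∈ Pool.LPG.Big Y ∧ y' ∈ Pool.LPG.Big Y ∧
        ∃ i, y i + 8 ≤ y' i) ↔
      (∃ y ∈ Pool.LPG.Bad X' k, ∃ y' ∈ Pool.LPG.Bad X' k, y ∈ Pool.LPG.Big Y ∧ y' ∈ Pool.LPG.Big Y ∧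
        ∃ i, y i + 8 ≤ y' i)
    constructor
    · rintro ⟨y, hy, y', hy', h1, h2, h3⟩
      exact ⟨y, (key y h1).1 hy, y', (key y' h2).1 hy', h1, h2, h3⟩
    · rintro ⟨y, hy, y', hy', h1, h2, h3⟩
      exact ⟨y, (key y h1).2 hy, y', (key y' h2).2 hy', h1, h2, h3⟩

private theorem sloc_spot {B B' : Set Bs} {Y : Bs} (h : ∀ z ∈ Pool.LPG.Big Y, (z ∈ B ↔ z ∈ B')) (x : Bs) :
    x ∈ Pool.LPG.Spot B Y ↔ x ∈ Pool.LPG.Spot B' Y := by
  constructor
  · rintro ⟨h1, h2⟩
    refine ⟨fun i => ?_, fun i => ?_⟩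
    · obtain ⟨y, hy, hY, hx⟩ := h1 i
      exact ⟨y, (h y hY).1 hy, hY, hx⟩
    · obtain ⟨y, hy, hY, hx⟩ := h2 i
      exact ⟨y, (h y hY).1 hy, hY, hx⟩
  · rintro ⟨h1, h2⟩
    refine ⟨fun i => ?_, fun i => ?_⟩
    · obtain ⟨y, hy, hY, hx⟩ := h1 i
      exact ⟨y, (h y hY).2 hy, hY, hx⟩
    · obtain ⟨y, hy, hY, hx⟩ := h2 i
      exact ⟨y, (h y hY).2 hy, hY, hx⟩

private theorem sloc_par (k : ℕ) (y : Bs) : Pool.LPG.par (Pool.LPG.anc k y) = Pool.LPG.anc (k + 1) y := by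
  funext i
  show y i / 100 ^ k / 100 = y i / 100 ^ (k + 1)
  rw [pow_succ, Int.ediv_ediv_of_nonneg (by positivity)]

theorem snd_local (X X' : Set Bs) (K : ℕ) (y : Bs) (h : ∀ z ∈ RegX K y, (z ∈ X ↔ z ∈ X')) :
    Snd X K Set.univ 0 y ↔ Snd X' K Set.univ 0 y := by
  have main : ∀ n : ℕ, n ≤ K → (Pool.LPG.SndA X K Set.univ n (Pool.LPG.anc (K - n) y) ↔
      Pool.LPG.SndA X' K Set.univ n (Pool.LPG.anc (K - n) y)) := by
    intro n
    induction n with
    | zero => exact fun _ => Iff.rfl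
    | succ n ih =>
      intro hn
      have e1 : K - n = K - (n + 1) + 1 := by omega
      have h1 := ih (by omega)
      rw [e1, ← sloc_par] at h1
      refine and_congr (not_congr (sloc_spot ?_ _)) h1
      intro z hz
      refine sloc_bad X X' (K - (n + 1)) z fun x hx => h x fun i => ?_
      rw [sloc_par] at hz
      have hzi := hz i
      have hxi := hx i
      obtain ⟨j, hj⟩ : ∃ j, j = K - (n + 1) := ⟨_, rfl⟩
      rw [← hj] at hzi hxi
      have hjK : j + 1 ≤ K := by omega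
      have hp : (1 : ℤ) ≤ 100 ^ j := one_le_pow₀ (by norm_num)
      have hK : (100 : ℤ) * 100 ^ j ≤ 100 ^ K := by
        have : (100 : ℤ) ^ (j + 1) ≤ 100 ^ K := pow_le_pow_right₀ (by norm_num) hjK
        calc (100 : ℤ) * 100 ^ j = 100 ^ (j + 1) := by ring
          _ ≤ 100 ^ K := this
      have hdef : Pool.LPG.anc (j + 1) y i = y i / 100 ^ (j + 1) := rfl
      rw [hdef] at hzi
      have q1 := Int.emod_add_mul_ediv (y i) (100 ^ (j + 1))
      have q2 := Int.emod_nonneg (y i) (b := 100 ^ (j + 1)) (by positivity)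
      have q3 := Int.emod_lt_of_pos (y i) (b := 100 ^ (j + 1)) (by positivity)
      have e2 : (100 : ℤ) ^ (j + 1) = 100 * 100 ^ j := by ring
      obtain ⟨Q, hQ⟩ : ∃ Q, Q = y i / 100 ^ (j + 1) := ⟨_, rfl⟩
      obtain ⟨R, hR⟩ : ∃ R, R = y i % 100 ^ (j + 1) := ⟨_, rfl⟩
      rw [← hQ] at hzi q1
      rw [← hR] at q1 q2 q3
      rw [e2] at q1 q3
      have a1 : 100 ^ j * (100 * Q - 16) ≤ 100 ^ j * z i := mul_le_mul_of_nonneg_left hzi.1 (by linarith)
      have a2 : 100 ^ j * z i ≤ 100 ^ j * (100 * Q + 115) :=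
        mul_le_mul_of_nonneg_left (by linarith [hzi.2]) (by linarith)
      constructor
      · nlinarith [hxi.1]
      · nlinarith [hxi.2]
  have h2 := main K le_rfl
  have e3 : Pool.LPG.anc (K - K) y = y := by
    funext i
    show y i / 100 ^ (K - K) = y i
    rw [Nat.sub_self, pow_zero, Int.ediv_one]
  rw [e3] at h2
  exact h2

end Pool.Agent.LPL
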